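import Pool.Agent.Helper56.LC.Farkas
import Pool.Graph.R_pool_sql_team_seeded_1e53cb71.Helper43K9.NH.Can

/-!
# Weights and angular components of a point of a torus over a valued field
-/

set_option autoImplicit false
set_option linter.unusedSectionVars false
set_option linter.unusedVariables false

namespace Pool.Agent.Helper56.LC

open Pool.Agent.TH165.ACC (pr ex Cn lead part pr_add pr_zero pr_neg pr_sub pr_smul pr_smul_right
  coeff_part)
open Pool.Agent.Helper43K9.NH MvPolynomial

variable {n : ℕ} {K : Type} [Field K] [Algebra ℂ K]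

/-- the additive value group -/
abbrev VG (O : ValuationSubring K) : Type := Additive (O.ValueGroup)ˣ

/-- the weights of the point `η` -/
noncomputable def uO (O : ValuationSubring K) {η : Fin n → K} (hη : ∀ i, η i ≠ 0) :
    (Fin n → ℤ) →+ VG O where
  toFun m := Additive.ofMul (Units.mk0 (O.valuation (ch η m))
    ((Valuation.ne_zero_iff _).2 (ch_ne hη m)))⁻¹
  map_zero' := by
    rw [ofMul_eq_zero, inv_eq_one]
    ext
    simp [ch_zero]
  map_add' m m' := by
    rw [← ofMul_mul, ← mul_inv]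
    congr 2
    ext
    simp [ch_add hη]

theorem uO_nonneg {O : ValuationSubring K} {η : Fin n → K} (hη : ∀ i, η i ≠ 0) (m : Fin n → ℤ) :
    0 ≤ uO O hη m ↔ ch η m ∈ O := by
  rw [← O.valuation_le_one_iff]
  change Additive.ofMul 1 ≤ Additive.ofMul _ ↔ _
  rw [Additive.ofMul_le, one_le_inv', ← Units.val_le_val]
  rfl

theorem uO_pos {O : ValuationSubring K} {η : Fin n → K} (hη : ∀ i, η i ≠ 0) (m : Fin n → ℤ) :
    0 < uO O hη m ↔ ch η m ∈ O.nonunits := by
  rw [ValuationSubring.mem_nonunits_iff]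
  change Additive.ofMul 1 < Additive.ofMul _ ↔ _
  rw [Additive.ofMul_lt, one_lt_inv', ← Units.val_lt_val]
  rfl

/-- a character of `ℤ^n` is given by a point of the torus -/
theorem ch_of_hom {κ : Type} [Field κ] (α : Multiplicative (Fin n → ℤ) →* κˣ) (m : Fin n → ℤ) :
    ch (fun l => (α (Multiplicative.ofAdd (Pi.single l 1)) : κ)) m =
      (α (Multiplicative.ofAdd m) : κ) := by
  have h1 : m = ∑ l, m l • (Pi.single l 1 : Fin n → ℤ) := by
    funext k
    rw [Finset.sum_apply, Finset.sum_eq_single k]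
    · simp
    · intro b _ hb
      simp [hb.symm]
    · intro h; exact absurd (Finset.mem_univ _) h
  conv_rhs => rw [h1, ofAdd_sum, map_prod]
  rw [ch]
  push_cast
  refine Finset.prod_congr rfl fun l _ => ?_
  rw [ofAdd_zsmul, map_zpow, Units.val_zpow_eq_zpow_val]

/-- the complex numbers in the valuation ring -/
noncomputable def cO {O : ValuationSubring K} (hO : ∀ c : ℂ, algebraMap ℂ K c ∈ O) : ℂ →+* O :=
  (algebraMap ℂ K).codRestrict O.toSubring hO

/-- the residue field is an algebra over the complex numbers -/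
@[reducible] noncomputable def algR {O : ValuationSubring K}
    (hO : ∀ c : ℂ, algebraMap ℂ K c ∈ O) : Algebra ℂ (IsLocalRing.ResidueField O) :=
  ((IsLocalRing.residue O).comp (cO hO)).toAlgebra

/-- **Angular components.** -/
theorem exists_ang (O : ValuationSubring K) {η : Fin n → K} (hη : ∀ i, η i ≠ 0) :
    ∃ ξ : Fin n → IsLocalRing.ResidueField O, (∀ i, ξ i ≠ 0) ∧
      ∀ m (h : ch η m ∈ O), uO O hη m = 0 → IsLocalRing.residue O ⟨ch η m, h⟩ = ch ξ m := by
  classical
  let u := (uO O hη).toIntLinearMap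
  have hfree : Module.Free ℤ (LinearMap.range u) := by
    have h1 : Module.Finite ℤ (LinearMap.range u) := inferInstance
    exact Module.free_of_finite_type_torsion_free'
  obtain ⟨s, hs⟩ := Module.projective_lifting_property u.rangeRestrict LinearMap.id
    u.surjective_rangeRestrict
  have hus : ∀ x, u (s x) = (x : VG O) := by
    intro x
    have h1 := LinearMap.congr_fun hs x
    exact congrArg Subtype.val h1
  let τ : (Fin n → ℤ) →ₗ[ℤ] (Fin n → ℤ) := s.comp u.rangeRestrict
  have hτ : ∀ m, uO O hη (m - τ m) = 0 := by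
    intro m
    have h1 : uO O hη (τ m) = uO O hη m := hus (u.rangeRestrict m)
    rw [map_sub, h1, sub_self]
  have hτ0 : ∀ m, uO O hη m = 0 → τ m = 0 := by
    intro m hm
    have h1 : u.rangeRestrict m = 0 := Subtype.ext hm
    change s (u.rangeRestrict m) = 0
    rw [h1, map_zero]
  have hmem : ∀ m, ch η (m - τ m) ∈ O := fun m => (uO_nonneg hη _).1 (hτ m).ge
  have hunit : ∀ m, IsLocalRing.residue O ⟨ch η (m - τ m), hmem m⟩ ≠ 0 := by
    intro m h
    have h1 : (⟨ch η (m - τ m), hmem m⟩ : O) ∈ IsLocalRing.maximalIdeal O :=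
      (IsLocalRing.residue_eq_zero_iff _).1 h
    have h2 : ch η (m - τ m) ∈ O.nonunits := by
      rw [ValuationSubring.mem_nonunits_iff_exists_mem_maximalIdeal]
      exact ⟨hmem m, h1⟩
    have h3 := (uO_pos hη _).2 h2
    rw [hτ] at h3
    exact lt_irrefl _ h3
  let α : Multiplicative (Fin n → ℤ) →* (IsLocalRing.ResidueField O)ˣ :=
    { toFun := fun m => Units.mk0 _ (hunit m.toAdd)
      map_one' := by
        ext
        have h1 : (⟨ch η (Multiplicative.toAdd (1 : Multiplicative (Fin n → ℤ)) -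
            τ (Multiplicative.toAdd 1)), hmem _⟩ : O) = 1 := by
          apply Subtype.ext
          change ch η (0 - τ 0) = 1
          rw [map_zero, sub_zero, ch_zero]
        rw [Units.val_mk0, h1, map_one]
        rfl
      map_mul' := fun m m' => by
        ext
        rw [Units.val_mk0, Units.val_mul, Units.val_mk0, Units.val_mk0, ← map_mul]
        congr 1
        apply Subtype.ext
        change ch η ((m.toAdd + m'.toAdd) - τ (m.toAdd + m'.toAdd)) =
          ch η (m.toAdd - τ m.toAdd) * ch η (m'.toAdd - τ m'.toAdd)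
        rw [← ch_add hη, map_add]
        congr 1
        abel }
  refine ⟨fun l => (α (Multiplicative.ofAdd (Pi.single l 1)) : IsLocalRing.ResidueField O),
    fun i => Units.ne_zero _, fun m h hm => ?_⟩
  rw [ch_of_hom]
  change IsLocalRing.residue O ⟨ch η m, h⟩ = IsLocalRing.residue O ⟨ch η (m - τ m), hmem m⟩
  congr 1
  apply Subtype.ext
  change ch η m = ch η (m - τ m)
  rw [hτ0 m hm, sub_zero]

/-- the reduction of a polynomial -/
theorem red_part {O : ValuationSubring K} {η : Fin n → K} (hη : ∀ i, η i ≠ 0)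
    (hO : ∀ c : ℂ, algebraMap ℂ K c ∈ O) {κ : Type} [Field κ] [Algebra ℂ κ] (red : O →+* κ)
    (hred : ∀ c, red ⟨algebraMap ℂ K c, hO c⟩ = algebraMap ℂ κ c)
    (hred0 : ∀ x : O, (x : K) ∈ O.nonunits → red x = 0) {ξ : Fin n → κ} (hξ : ∀ i, ξ i ≠ 0)
    (hξ' : ∀ m (h : ch η m ∈ O), uO O hη m = 0 → red ⟨ch η m, h⟩ = ch ξ m)
    (q : MvPolynomial (Fin n) ℂ) (m0 x : Fin n → ℤ)
    (h1 : ∀ s ∈ q.support, 0 ≤ uO O hη (ex s - m0))
    (h2 : ∀ s ∈ q.support, uO O hη (ex s - m0) = 0 ↔ pr (ex s) x = pr m0 x) :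
    ∃ h : aeval η q * ch η (-m0) ∈ O,
      red ⟨aeval η q * ch η (-m0), h⟩ = aeval ξ (part x (pr m0 x) q) * ch ξ (-m0) := by
  classical
  have hmem : ∀ s ∈ q.support, ch η (ex s - m0) ∈ O := fun s hs => (uO_nonneg hη _).1 (h1 s hs)
  let T : (Fin n →₀ ℕ) → O := fun s => if hs : s ∈ q.support then
    ⟨algebraMap ℂ K (q.coeff s), hO _⟩ * ⟨ch η (ex s - m0), hmem s hs⟩ else 0
  have hT : ∀ s ∈ q.support, (T s : K) = algebraMap ℂ K (q.coeff s) * ch η (ex s - m0) := by
    intro s hs
    simp only [T]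
    rw [dif_pos hs]
    rfl
  have hsum : aeval η q * ch η (-m0) = ((∑ s ∈ q.support, T s : O) : K) := by
    have h3 : ((∑ s ∈ q.support, T s : O) : K) = ∑ s ∈ q.support, (T s : K) :=
      map_sum O.subtype _ _
    rw [h3, aeval_eq_sum, Finset.sum_mul]
    refine Finset.sum_congr rfl fun s hs => ?_
    rw [hT s hs, mul_assoc, ← ch_add hη, sub_eq_add_neg]
  have hO' : aeval η q * ch η (-m0) ∈ O := by
    rw [hsum]
    exact (∑ s ∈ q.support, T s : O).2
  refine ⟨hO', ?_⟩
  have h3 : (⟨aeval η q * ch η (-m0), hO'⟩ : O) = ∑ s ∈ q.support, T s := Subtype.ext hsum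
  rw [h3, map_sum, part, map_sum, Finset.sum_filter, Finset.sum_mul]
  refine Finset.sum_congr rfl fun s hs => ?_
  have h4 : T s = ⟨algebraMap ℂ K (q.coeff s), hO _⟩ * ⟨ch η (ex s - m0), hmem s hs⟩ := by
    simp only [T]
    rw [dif_pos hs]
  rw [h4, map_mul, hred]
  split_ifs with h5
  · rw [hξ' _ _ ((h2 s hs).2 h5), aeval_mon, sub_eq_add_neg, ch_add hξ, mul_assoc]
  · have h6 : 0 < uO O hη (ex s - m0) :=
      lt_of_le_of_ne (h1 s hs) fun h => h5 ((h2 s hs).1 h.symm)
    rw [hred0 _ ((uO_pos hη _).1 h6), mul_zero, zero_mul]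

end Pool.Agent.Helper56.LC
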