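import Pool.Agent.Helper56.LC.Count
import Pool.Graph.R_pool_sql_team_seeded_1e53cb71.Helper43K9.CI.Idx

/-!
# Nondegeneracy at the points of the torus over extension fields
-/

set_option autoImplicit false
set_option linter.unusedSectionVars false
set_option linter.unusedVariables false

namespace Pool.Agent.Helper56.LC

open Pool.Agent.TH165.ACC (pr ex Cn lead part pr_add pr_zero pr_neg pr_sub pr_smul pr_smul_right
  coeff_part)
open Pool.Agent.Helper43K9.NH MvPolynomial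

variable {n r : ℕ} {κ : Type} [Field κ] [Algebra ℂ κ]

theorem indep_of_minor (v : Fin r → Fin n → κ) (σ : Fin r → Fin n)
    (h : (Matrix.of fun (j k : Fin r) => v j (σ k)).det ≠ 0) : LinearIndependent κ v := by
  have h1 := Matrix.linearIndependent_rows_of_det_ne_zero h
  let A : (Fin n → κ) →ₗ[κ] (Fin r → κ) :=
    LinearMap.pi fun k => LinearMap.proj (σ k)
  exact LinearIndependent.of_comp A h1

theorem exists_minor_of_null (G : Fin r → MvPolynomial (Fin n) ℂ)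
    (hG : ∀ ξ : Fin n → ℂ, (∀ i, ξ i ≠ 0) → (∀ j, eval ξ (G j) = 0) →
      LinearIndependent ℂ fun (j : Fin r) (i : Fin n) => eval ξ (pderiv i (G j)))
    (ξ : Fin n → κ) (hξ : ∀ i, ξ i ≠ 0) (h0 : ∀ j, aeval ξ (G j) = 0) :
    ∃ σ : Fin r → Fin n,
      (Matrix.of fun (j k : Fin r) => lg ξ (G j) (σ k)).det ≠ 0 := by
  classical
  let 𝔭 : Ideal (MvPolynomial (Fin n) ℂ) := RingHom.ker (aeval (R := ℂ) ξ)
  have h𝔭 : 𝔭.IsPrime := RingHom.ker_isPrime _
  have hX : ∀ i, (X i : MvPolynomial (Fin n) ℂ) ∉ 𝔭 := by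
    intro i hi
    rw [RingHom.mem_ker, aeval_X] at hi
    exact hξ i hi
  obtain ⟨ζ, hζ𝔭, hζ⟩ : ∃ ζ ∈ zeroLocus ℂ 𝔭, ∀ i, ζ i ≠ 0 := by
    by_contra h2
    push Not at h2
    have h3 : (∏ i, (X i : MvPolynomial (Fin n) ℂ)) ∈ vanishingIdeal ℂ (zeroLocus ℂ 𝔭) := by
      rw [mem_vanishingIdeal_iff]
      intro ξ hξ
      obtain ⟨i, hi⟩ := h2 ξ hξ
      rw [map_prod]
      exact Finset.prod_eq_zero (Finset.mem_univ i) (by rw [aeval_X, hi])
    rw [vanishingIdeal_zeroLocus_eq_radical, h𝔭.radical, h𝔭.prod_mem_iff] at h3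
    obtain ⟨i, -, hi⟩ := h3
    exact hX i hi
  have hev : ∀ q ∈ 𝔭, eval ζ q = 0 := by
    intro q hq
    have := mem_zeroLocus_iff.1 hζ𝔭 q hq
    rwa [← coe_aeval_eq_eval]
  have hind := hG ζ hζ fun j => hev _ (RingHom.mem_ker.2 (h0 j))
  have hli : LinearIndependent ℂ fun (j : Fin r) (i : Fin n) =>
      eval ζ (X i * pderiv i (G j)) := by
    let D : (Fin n → ℂ) →ₗ[ℂ] (Fin n → ℂ) :=
      LinearMap.pi fun i => ζ i • LinearMap.proj i
    have hD : ∀ z i, D z i = ζ i * z i := fun z i => rfl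
    have h2 := hind.map' D (by
      rw [LinearMap.ker_eq_bot']
      intro z hz
      funext i
      have h3 := congrFun hz i
      rw [hD] at h3
      exact (mul_eq_zero.1 h3).resolve_left (hζ i))
    have h3 : (fun (j : Fin r) (i : Fin n) => eval ζ (X i * pderiv i (G j))) =
        D ∘ fun (j : Fin r) (i : Fin n) => eval ζ (pderiv i (G j)) := by
      funext j i
      rw [Function.comp_apply, hD, map_mul, eval_X]
    rw [h3]
    exact h2
  obtain ⟨σ, -, hdet⟩ := Pool.Agent.TH165.ACC.exists_minor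
    (Matrix.of fun (j : Fin r) (i : Fin n) => eval ζ (X i * pderiv i (G j))) hli
  refine ⟨σ, fun h => hdet ?_⟩
  obtain ⟨Q, hQe⟩ : ∃ Q : Matrix (Fin r) (Fin r) (MvPolynomial (Fin n) ℂ),
      Q = Matrix.of fun (j k : Fin r) => X (σ k) * pderiv (σ k) (G j) := ⟨_, rfl⟩
  have hQ : Q.det ∈ 𝔭 := by
    rw [RingHom.mem_ker]
    have h1 := AlgHom.map_det (aeval (R := ℂ) ξ : MvPolynomial (Fin n) ℂ →ₐ[ℂ] κ) Q
    rw [h1, ← h]
    congr 1
    ext j k
    rw [hQe]
    rfl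
  have h1 := hev _ hQ
  rw [RingHom.map_det] at h1
  rw [← Matrix.det_transpose, ← h1]
  congr 1
  ext j k
  rw [hQe]
  rfl

end Pool.Agent.Helper56.LC
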