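import Pool.Agent.Helper56.LC.Second
import Pool.Agent.Helper56.LC.Null
import Pool.Graph.R_pool_sql_team_seeded_1e53cb71.Helper43K9.CI.Lead
import Pool.Graph.R_pool_sql_team_seeded_1e53cb71.Helper43K9.CI.Asm

/-!
# The limit theorem
-/

set_option autoImplicit false
set_option linter.unusedSectionVars false
set_option linter.unusedVariables false

namespace Pool.Agent.Helper56.LC

open Pool.Agent.TH165.ACC (pr ex Cn lead part pr_add pr_zero pr_neg pr_sub pr_smul pr_smul_right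
  coeff_part ex_add exists_nat_ex lead_eq support_euler euler_part)
open Pool.Agent.Helper43K9.NH MvPolynomial Filter

variable {n N r : ℕ}

/-- the face of a weight -/
theorem face_exists {E : Fin N → Fin n → ℤ} {w : Fin n → ℤ} (hw : ∀ m ∈ Cn E, 0 ≤ pr m w) :
    ∃ K : Finset (Fin N), ∀ m ∈ Cn E, pr m w = 0 ↔ ∀ k ∈ K, pr m (E k) = 0 := by
  classical
  let u : (Fin n → ℤ) →+ ℤ :=
    { toFun := fun m => pr m w
      map_zero' := pr_zero w
      map_add' := fun m m' => pr_add m m' w }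
  obtain ⟨D, J, g, hD, hg, -, -, hrep⟩ := farkasG E u hw
  have hrep' : ∀ m, D * pr m w = ∑ i, pr m (E i) * g i := hrep
  refine ⟨Finset.univ.filter fun k => 0 < g k, fun m hm => ⟨fun h => ?_, fun h => ?_⟩⟩
  · have h1 := hrep' m
    rw [h, mul_zero] at h1
    have h2 := (Finset.sum_eq_zero_iff_of_nonneg fun i _ => mul_nonneg (hm i) (hg i)).1 h1.symm
    intro k hk
    exact (mul_eq_zero.1 (h2 k (Finset.mem_univ _))).resolve_right (Finset.mem_filter.1 hk).2.ne'
  · have h1 := hrep' m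
    rw [Finset.sum_eq_zero fun i _ => ?_] at h1
    · exact (mul_eq_zero.1 h1).resolve_left hD.ne'
    · by_cases hi : 0 < g i
      · rw [h i (Finset.mem_filter.2 ⟨Finset.mem_univ _, hi⟩), zero_mul]
      · rw [le_antisymm (not_lt.1 hi) (hg i), mul_zero]

/-- Euler's formula for a polynomial which is homogeneous for the weight `e` -/
theorem euler_hom {κ : Type} [Field κ] [Algebra ℂ κ] (ξ : Fin n → κ)
    (q : MvPolynomial (Fin n) ℂ) (e : Fin n → ℤ) (c : ℤ) (h : ∀ s ∈ q.support, pr (ex s) e = c) :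
    ∑ l, lg ξ q l * (e l : κ) = (c : κ) * aeval ξ q := by
  simp only [lg, aeval_euler, Finset.sum_mul]
  rw [Finset.sum_comm, aeval_eq_sum, Finset.mul_sum]
  refine Finset.sum_congr rfl fun s hs => ?_
  have h1 := h s hs
  have h2 : ∑ l, ((s l : ℕ) : κ) * (e l : κ) = (c : κ) := by
    rw [← h1, pr]
    push_cast
    refine Finset.sum_congr rfl fun l _ => ?_
    simp [Pool.Agent.TH165.ACC.ex]
  rw [← h2, Finset.sum_mul]
  exact Finset.sum_congr rfl fun l _ => by ring

variable {ι : Type} (𝒰 : Ultrafilter ι) {Kι : ι → Type} [∀ i, Field (Kι i)]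
  [∀ i, Algebra ℂ (Kι i)]

/-- **The limit theorem.** -/
theorem limit_main (E : Fin N → Fin n → ℤ)
    (hfull : ∀ m : Fin n → ℤ, (∀ i, pr m (E i) = 0) → m = 0)
    (F : Fin r → MvPolynomial (Fin n) ℂ) (hF : ∀ j, F j ≠ 0)
    (hnd : ∀ w, Inn E w → ∀ ξ : Fin n → ℂ, (∀ i, ξ i ≠ 0) →
      (∀ j, eval ξ (lead w (F j)) = 0) →
        LinearIndependent ℂ fun (j : Fin r) (i : Fin n) => eval ξ (pderiv i (lead w (F j))))
    (η : ∀ i, Fin n → Kι i) (hη : ∀ i l, η i l ≠ 0) (w : ι → Fin n → ℤ)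
    (hw : ∀ i, ∀ m ∈ Cn E, 0 ≤ pr m (w i))
    (hconst : ∀ i, ∀ m ∈ Cn E, pr m (w i) = 0 → ∃ c : ℂ, ch (η i) m = algebraMap ℂ (Kι i) c)
    (hlead : ∀ᶠ i in (𝒰 : Filter ι), ∀ j, aeval (η i) (lead (w i) (F j)) = 0)
    (hP : ∀ (S : Finset (Fin n → ℤ)) (a : (Fin n → ℤ) → ℂ), (∀ m ∈ S, m ∈ Cn E) → 0 ∈ S →
      a 0 ≠ 0 → ∀ᶠ i in (𝒰 : Filter ι), ∑ m ∈ S, algebraMap ℂ (Kι i) (a m) * ch (η i) m ≠ 0)
    (T : Finset (Fin n))
    (hT : ∀ᶠ i in (𝒰 : Filter ι), AlgebraicIndependent ℂ (fun l : T => η i l)) :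
    ∃ J : Finset (Fin N), ∀ᶠ i in (𝒰 : Filter ι), Inn E (w i + ∑ j ∈ J, E j) ∧
      (LinearIndependent (Kι i) fun j => lg (η i) (lead (w i) (F j))) ∧
      T.card + J.card + (Finset.univ.filter fun j => ∃ m ∈ expo (F j),
        pr m (w i) = phi (expo (F j)) (w i) ∧ ∀ k ∈ J, pr m (E k) = phi (expo (F j)) (E k)).card
          ≤ n := by
  classical
  -- the types
  obtain ⟨f, -, hf⟩ := uf_const 𝒰 (Fintype.piFinset fun j => (F j).support.powerset.image
    fun A => ∑ s ∈ A, monomial s (coeff s (F j))) (fun i j => lead (w i) (F j)) (by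
      intro i
      rw [Fintype.mem_piFinset]
      intro j
      exact Finset.mem_image.2 ⟨_, Finset.mem_powerset.2 (Finset.filter_subset _ _), rfl⟩)
  choose Kf hKf using fun i => face_exists (hw i)
  obtain ⟨K0, -, hK0⟩ := uf_const 𝒰 Finset.univ Kf fun i => Finset.mem_univ _
  -- the limit point
  obtain ⟨K, _, _, ηs, hηs, hz, hKrep⟩ := exists_limit 𝒰 η hη
  let Γ : Set (Fin n → ℤ) := {m | m ∈ Cn E ∧ ∀ k ∈ K0, pr m (E k) = 0}
  have hΓw : ∀ᶠ i in (𝒰 : Filter ι), ∀ m ∈ Cn E, pr m (w i) = 0 ↔ m ∈ Γ := by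
    filter_upwards [hK0] with i hi m hm
    rw [hKf i m hm, hi]
    exact ⟨fun h => ⟨hm, h⟩, fun h => h.2⟩
  obtain ⟨V, hV, a, D, Q, hQV, s, ha, hD, hdual, hrep, hs0, hΓpos, hTs, hsalg⟩ :=
    exists_second (E := E) hfull hηs (by
      intro S a hS h0 ha hsum
      rw [laurent_iff 𝒰 hη hηs hz] at hsum
      obtain ⟨i, h1, h2⟩ := (hsum.and (hP S a hS h0 ha)).exists
      exact h2 h1) hKrep Γ (fun m hm => hm.1) T (by
      intro R _ _ hR hRc
      refine algIndep_limit 𝒰 hη hηs hz hR (fun c => ?_) T hT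
      refine rep_adjoin 𝒰 hη hηs (G := {x | ∃ m ∈ Γ, ∃ D : ℤ, x = ch ηs (D • m)}) ?_ _ (hRc c)
      rintro x ⟨m, hm, D, rfl⟩
      obtain ⟨s, t, hst⟩ := exists_nat_ex (D • m)
      have h1 : ex s = D • m + ex t := (eq_sub_iff_add_eq.1 hst).symm
      refine ⟨monomial s 1, t, ?_, ?_⟩
      · rw [← ch_ex, h1, ch_add hηs]
      · filter_upwards [hΓw] with i hi
        obtain ⟨c, hc⟩ := hconst i m hm.1 ((hi m hm.1).2 hm)
        refine ⟨c ^ D, ?_⟩
        rw [← ch_ex, h1, ch_add (hη i), ch_smul (hη i), hc, map_zpow₀])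
  let κ := IsLocalRing.ResidueField V
  let instκ : Algebra ℂ κ := algR hV
  obtain ⟨ξ, hξ, hξ'⟩ := exists_ang V hηs
  let red : V →+* κ := IsLocalRing.residue V
  have hred : ∀ c, red ⟨algebraMap ℂ K c, hV c⟩ = algebraMap ℂ κ c := fun c => rfl
  have hred0 : ∀ x : V, (x : K) ∈ V.nonunits → red x = 0 := by
    intro x hx
    exact (IsLocalRing.residue_eq_zero_iff _).2 (ValuationSubring.coe_mem_nonunits_iff.1 hx)
  let u := uO V hηs
  have huQ : ∀ j, 0 ≤ u (Q j) := fun j => (uO_nonneg hηs _).2 (hQV j)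
  let J : Finset (Fin N) := Finset.univ.filter fun k => ∃ j, a j = k ∧ 0 < u (Q j)
  have hJ : ∀ j, 0 < u (Q j) → a j ∈ J := fun j hj =>
    Finset.mem_filter.2 ⟨Finset.mem_univ _, j, rfl, hj⟩
  -- integral weights
  let Df : Finset (Fin n → ℤ) := Finset.univ.image Q ∪ Finset.univ.biUnion fun j =>
    ((f j).support ×ˢ (f j).support).image fun p => ex p.1 - ex p.2
  obtain ⟨x, hx⟩ := exists_int_weight u Df
  have hxQ : ∀ j, (0 < u (Q j) → 0 < pr (Q j) x) ∧ (u (Q j) = 0 → pr (Q j) x = 0) := fun j =>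
    have h := hx (Q j) (Finset.mem_union_left _ (Finset.mem_image_of_mem _ (Finset.mem_univ _)))
    ⟨h.1, h.2.1⟩
  have hxQ0 : ∀ j, 0 ≤ pr (Q j) x := by
    intro j
    rcases (huQ j).eq_or_lt with h | h
    · exact ((hxQ j).2 h.symm).ge
    · exact ((hxQ j).1 h).le
  have hxpos : ∀ j, 0 < pr (Q j) x → 0 < u (Q j) := by
    intro j hj
    rcases (huQ j).eq_or_lt with h | h
    · have := (hxQ j).2 h.symm
      omega
    · exact h
  have hxrep : ∀ m, D * pr m x = ∑ j, pr m (E (a j)) * pr (Q j) x := by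
    intro m
    rw [← pr_smul, hrep, pr_sum_l]
    exact Finset.sum_congr rfl fun j _ => pr_smul _ _ _
  -- a typical index
  have hlarge := (hf.and (hK0.and hΓw))
  obtain ⟨i0, hi0f, hi0K, hi0Γ⟩ := hlarge.exists
  have hi0f' : ∀ j, lead (w i0) (F j) = f j := fun j => congrFun hi0f j
  have hf0 : ∀ j, f j ≠ 0 := fun j => by
    rw [← hi0f' j]
    exact Pool.Agent.Helper43K9.CI.lead_ne (hF j) _
  have hfz : ∀ j, aeval ηs (f j) = 0 := by
    intro j
    rw [hz]
    filter_upwards [hf, hlead] with i hi hi2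
    rw [← congrFun hi j]
    exact hi2 j
  -- the minimal monomials
  have hmin : ∀ j, ∃ s ∈ (f j).support, ∀ t ∈ (f j).support, pr (ex s) x ≤ pr (ex t) x := by
    intro j
    have h1 : (f j).support.Nonempty := by
      rw [Finset.nonempty_iff_ne_empty, Ne, support_eq_empty]
      exact hf0 j
    exact Finset.exists_min_image _ _ h1
  choose s0 hs0f hs0min using hmin
  have hDf : ∀ j, ∀ t ∈ (f j).support, ex t - ex (s0 j) ∈ Df := fun j t ht =>
    Finset.mem_union_right _ (Finset.mem_biUnion.2 ⟨j, Finset.mem_univ _,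
      Finset.mem_image.2 ⟨(t, s0 j), Finset.mem_product.2 ⟨ht, hs0f j⟩, rfl⟩⟩)
  have hu1 : ∀ j, ∀ t ∈ (f j).support, 0 ≤ u (ex t - ex (s0 j)) := by
    intro j t ht
    by_contra hneg
    have h1 := (hx _ (hDf j t ht)).2.2 (not_le.1 hneg)
    rw [pr_sub] at h1
    have := hs0min j t ht
    omega
  have hu2 : ∀ j, ∀ t ∈ (f j).support, u (ex t - ex (s0 j)) = 0 ↔ pr (ex t) x = pr (ex (s0 j)) x := by
    intro j t ht
    constructor
    · intro h
      have h1 := (hx _ (hDf j t ht)).2.1 h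
      rw [pr_sub] at h1
      omega
    · intro h
      by_contra hne
      have h1 := (hx _ (hDf j t ht)).1 (lt_of_le_of_ne (hu1 j t ht) (Ne.symm hne))
      rw [pr_sub] at h1
      omega
  have hlx : ∀ j, lead x (f j) = part x (pr (ex (s0 j)) x) (f j) := fun j =>
    lead_eq ⟨s0 j, hs0f j, rfl⟩ (hs0min j)
  have hredf : ∀ j, ∀ q : MvPolynomial (Fin n) ℂ, q.support ⊆ (f j).support →
      ∃ h : aeval ηs q * ch ηs (-ex (s0 j)) ∈ V, red ⟨aeval ηs q * ch ηs (-ex (s0 j)), h⟩ =
        aeval ξ (part x (pr (ex (s0 j)) x) q) * ch ξ (-ex (s0 j)) := fun j q hq =>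
    red_part hηs hV red hred hred0 hξ hξ' q (ex (s0 j)) x (fun t ht => hu1 j t (hq ht))
      fun t ht => hu2 j t (hq ht)
  have hlz : ∀ j, aeval ξ (lead x (f j)) = 0 := by
    intro j
    obtain ⟨h1, h2⟩ := hredf j (f j) (Finset.Subset.refl _)
    have h3 : (⟨aeval ηs (f j) * ch ηs (-ex (s0 j)), h1⟩ : V) = 0 := by
      apply Subtype.ext
      change aeval ηs (f j) * ch ηs (-ex (s0 j)) = 0
      rw [hfz, zero_mul]
    rw [h3, map_zero, ← hlx] at h2
    exact (mul_eq_zero.1 h2.symm).resolve_right (ch_ne hξ _)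
  -- the interior weight
  have hInn : ∀ k : ℤ, 1 ≤ k → Inn E (k • w i0 + x) := by
    intro k hk m hm hm0
    have h1 := hxrep m
    have h2 : ∀ j, 0 ≤ pr m (E (a j)) * pr (Q j) x := fun j => mul_nonneg (hm _) (hxQ0 j)
    have h3 : 0 ≤ pr m x := by
      have h4 : 0 ≤ D * pr m x := by rw [h1]; exact Finset.sum_nonneg fun j _ => h2 j
      exact nonneg_of_mul_nonneg_right h4 hD
    rw [pr_add_r, pr_smul_right]
    rcases (hw i0 m hm).eq_or_lt with h4 | h4
    · obtain ⟨j, hj1, hj2⟩ := hΓpos m ((hi0Γ m hm).1 h4.symm) hm0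
      have h5 : 0 < D * pr m x := by
        rw [h1]
        exact Finset.sum_pos' (fun j _ => h2 j) ⟨j, Finset.mem_univ _, mul_pos hj2 ((hxQ j).1 hj1)⟩
      have h6 : 0 < pr m x := (mul_pos_iff_of_pos_left hD).1 h5
      rw [← h4, mul_zero, zero_add]
      exact h6
    · have h5 : 0 < k * pr m (w i0) := mul_pos (by omega) h4
      omega
  obtain ⟨k, hk1, hk⟩ : ∃ k : ℤ, 1 ≤ k ∧ ∀ j, lead x (f j) = lead (k • w i0 + x) (F j) := by
    have h1 : ∀ j, ∃ K : ℤ, 0 < K ∧ ∀ k ≥ K, lead x (lead (w i0) (F j)) =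
        lead (k • w i0 + x) (F j) := fun j =>
      Pool.Agent.Helper43K9.CI.lead_ n (F j) (w i0) x (hF j)
    choose K hK hK' using h1
    refine ⟨1 + ∑ j, K j, ?_, fun j => ?_⟩
    · have := Finset.sum_nonneg fun j (_ : j ∈ Finset.univ) => (hK j).le
      omega
    · rw [← hi0f' j]
      apply hK'
      have := Finset.single_le_sum (f := K) (fun j _ => (hK j).le) (Finset.mem_univ j)
      omega
  -- the minor
  obtain ⟨σ, hσ⟩ := exists_minor_of_null (κ := κ) (fun j => lead x (f j)) (by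
    intro ζ hζ hζ0
    have h1 := hnd _ (hInn k hk1) ζ hζ fun j => by rw [← hk j]; exact hζ0 j
    simp only [hk]
    exact h1) ξ hξ hlz
  have hlgξ := indep_of_minor (fun j => lg ξ (lead x (f j))) σ hσ
  -- the minor at the limit point
  have hminor : (Matrix.of fun (j k : Fin r) => lg ηs (f j) (σ k)).det ≠ 0 := by
    intro h0
    have h1 : ∀ j l, ∃ h : lg ηs (f j) l * ch ηs (-ex (s0 j)) ∈ V,
        red ⟨lg ηs (f j) l * ch ηs (-ex (s0 j)), h⟩ =
          lg ξ (lead x (f j)) l * ch ξ (-ex (s0 j)) := by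
      intro j l
      have h2 := hredf j (X l * pderiv l (f j)) (support_euler _ _)
      rw [← euler_part, ← hlx] at h2
      exact h2
    choose hm hm' using h1
    let A : Matrix (Fin r) (Fin r) V := Matrix.of fun j k => ⟨_, hm j (σ k)⟩
    have h2 : A.det = 0 := by
      apply Subtype.ext
      have h3 := V.subtype.map_det A
      change (A.det : K) = _ at h3
      rw [h3]
      have h4 : V.subtype.mapMatrix A = Matrix.of fun j k =>
          ch ηs (-ex (s0 j)) * (Matrix.of fun (j k : Fin r) => lg ηs (f j) (σ k)) j k := by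
        ext j k
        rw [RingHom.mapMatrix_apply, Matrix.map_apply]
        exact mul_comm _ _
      rw [h4, Matrix.det_mul_column, h0, mul_zero]
      rfl
    have h5 := red.map_det A
    rw [h2, map_zero] at h5
    have h6 : red.mapMatrix A = Matrix.of fun j k =>
        ch ξ (-ex (s0 j)) * (Matrix.of fun (j k : Fin r) => lg ξ (lead x (f j)) (σ k)) j k := by
      ext j k
      rw [RingHom.mapMatrix_apply, Matrix.map_apply]
      exact (hm' j (σ k)).trans (mul_comm _ _)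
    rw [h6, Matrix.det_mul_column] at h5
    rcases mul_eq_zero.1 h5.symm with h7 | h7
    · rw [Finset.prod_eq_zero_iff] at h7
      obtain ⟨j, -, hj⟩ := h7
      exact ch_ne hξ _ hj
    · exact hσ h7
  have hmini : ∀ᶠ i in (𝒰 : Filter ι),
      (Matrix.of fun (j k : Fin r) => lg (η i) (f j) (σ k)).det ≠ 0 := by
    obtain ⟨P, hPe⟩ : ∃ P : Matrix (Fin r) (Fin r) (MvPolynomial (Fin n) ℂ),
        P = Matrix.of fun (j k : Fin r) => X (σ k) * pderiv (σ k) (f j) := ⟨_, rfl⟩
    have hPd : ∀ (K' : Type) [Field K'] [Algebra ℂ K'] (ζ : Fin n → K'),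
        aeval ζ P.det = (Matrix.of fun (j k : Fin r) => lg ζ (f j) (σ k)).det := by
      intro K' _ _ ζ
      rw [AlgHom.map_det]
      congr 1
      ext j k
      rw [hPe]
      rfl
    have h1 : ¬ ∀ᶠ i in (𝒰 : Filter ι), aeval (η i) P.det = 0 := by
      rw [← hz, hPd K ηs]
      exact hminor
    rw [← Ultrafilter.eventually_not] at h1
    filter_upwards [h1] with i hi
    rw [← hPd (Kι i) (η i)]
    exact hi
  -- the count
  let I0 : Finset (Fin r) := Finset.univ.filter fun j =>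
    ∃ t ∈ (f j).support, ∀ k ∈ J, pr (ex t) (E k) = phi (expo (F j)) (E k)
  have hfF : ∀ j, (f j).support ⊆ (F j).support := by
    intro j t ht
    have h1 : ex t ∈ expo (lead (w i0) (F j)) := by
      rw [hi0f' j]
      exact mem_expo.2 ⟨t, ht, rfl⟩
    rw [Pool.Agent.Helper43K9.CI.expo_lead (hF j)] at h1
    obtain ⟨t', ht', h2⟩ := mem_expo.1 (Finset.mem_filter.1 h1).1
    rwa [Pool.Agent.TH165.ACC.ex_inj h2] at ht'
  have hcount : s.card + J.card + I0.card ≤ n := by
    have hJa : ∀ k : J, ∃ j, a j = k ∧ 0 < u (Q j) := fun k => (Finset.mem_filter.1 k.2).2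
    choose b hb hbu using hJa
    have h1 := count ξ hξ (ι₁ := s) (ι₂ := J) (ι₃ := I0) (fun j => Q j) (by
      have h2 : (fun j : s => ch ξ (Q j)) =
          fun j : s => IsLocalRing.residue V ⟨ch ηs (Q j), hQV j⟩ := by
        funext j
        exact (hξ' _ (hQV j) (hs0 j j.2)).symm
      rw [h2]
      exact hsalg) (fun k => E k) (fun k => Q (b k)) hD (by
      intro i j
      rw [← hb i, hdual]
      by_cases hij : i = j
      · rw [if_pos hij, if_pos (by rw [hij])]
      · rw [if_neg hij, if_neg]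
        intro h2
        apply hij
        apply Subtype.ext
        rw [← hb i, ← hb j, h2]) (by
      intro i k
      rw [← hb k, hdual, if_neg]
      intro h2
      have h3 := hbu k
      rw [h2] at h3
      have h4 := hs0 i i.2
      exact h3.ne' h4) (fun j : I0 => lead x (f j)) (fun j => hlz j)
      (hlgξ.comp (fun j : I0 => (j : Fin r)) Subtype.val_injective) (by
      intro j k
      obtain ⟨t1, ht1, ht1E⟩ := (Finset.mem_filter.1 j.2).2
      rw [euler_hom ξ (lead x (f j)) (E k) (phi (expo (F j)) (E k)), hlz, mul_zero]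
      intro t ht
      -- the exponents of the initial form
      have h2 : t ∈ (f j).support ∧ pr (ex t) x = pr (ex (s0 j)) x := by
        rw [hlx, mem_support_iff, coeff_part] at ht
        split_ifs at ht with h3
        · exact ⟨mem_support_iff.2 ht, h3⟩
        · exact absurd rfl ht
      have h3 : pr (ex t - ex t1) x ≤ 0 := by
        rw [pr_sub, h2.2]
        have := hs0min j t1 ht1
        omega
      have h4 := hxrep (ex t - ex t1)
      have h5 : ∀ l ∈ Finset.univ, 0 ≤ pr (ex t - ex t1) (E (a l)) * pr (Q l) x := by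
        intro l _
        rcases (hxQ0 l).eq_or_lt with h6 | h6
        · rw [← h6, mul_zero]
        · refine mul_nonneg ?_ h6.le
          rw [pr_sub, ht1E _ (hJ l (hxpos l h6))]
          have := (phi_spec (expo_nonempty (hF j)) (E (a l))).2 (ex t)
            (mem_expo.2 ⟨t, hfF j h2.1, rfl⟩)
          omega
      have h6 : D * pr (ex t - ex t1) x ≤ 0 := mul_nonpos_of_nonneg_of_nonpos hD.le h3
      rw [h4] at h6
      have h7 := (Finset.sum_eq_zero_iff_of_nonneg h5).1 (le_antisymm h6 (Finset.sum_nonneg h5))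
        (b k) (Finset.mem_univ _)
      have h8 := (mul_eq_zero.1 h7).resolve_right ((hxQ (b k)).1 (hbu k)).ne'
      rw [pr_sub, hb k, ht1E k k.2] at h8
      omega)
    rw [Fintype.card_coe, Fintype.card_coe, Fintype.card_coe] at h1
    exact h1
  refine ⟨J, ?_⟩
  filter_upwards [hf, hΓw, hmini] with i hi hiΓ hidet
  have hi' : ∀ j, lead (w i) (F j) = f j := fun j => congrFun hi j
  refine ⟨?_, ?_, ?_⟩
  · intro m hm hm0
    have h1 : 0 ≤ ∑ k ∈ J, pr m (E k) := Finset.sum_nonneg fun k _ => hm k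
    rw [pr_add_r, pr_sum_r]
    rcases (hw i m hm).eq_or_lt with h4 | h4
    · obtain ⟨j, hj1, hj2⟩ := hΓpos m ((hiΓ m hm).1 h4.symm) hm0
      have h5 : 0 < ∑ k ∈ J, pr m (E k) :=
        Finset.sum_pos' (fun k _ => hm k) ⟨a j, hJ j hj1, hj2⟩
      omega
    · omega
  · simp only [hi']
    exact indep_of_minor _ σ hidet
  · refine le_trans ?_ hcount
    have h1 : (Finset.univ.filter fun j => ∃ m ∈ expo (F j),
        pr m (w i) = phi (expo (F j)) (w i) ∧ ∀ k ∈ J, pr m (E k) = phi (expo (F j)) (E k)) ⊆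
          I0 := by
      intro j hj
      obtain ⟨m, hm, hmw, hmE⟩ := (Finset.mem_filter.1 hj).2
      have h2 : m ∈ expo (lead (w i) (F j)) := by
        rw [Pool.Agent.Helper43K9.CI.expo_lead (hF j)]
        exact Finset.mem_filter.2 ⟨hm, hmw⟩
      rw [hi' j] at h2
      obtain ⟨t, ht, rfl⟩ := mem_expo.1 h2
      exact Finset.mem_filter.2 ⟨Finset.mem_univ _, t, ht, hmE⟩
    have h2 := Finset.card_le_card h1
    omega

end Pool.Agent.Helper56.LC
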