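import Pool.Agent.Helper56.LC.Pair
import Pool.Agent.Helper56.LC.Lim

/-!
# The core: comparison of log discrepancies near the fixed point
-/

set_option autoImplicit false
set_option linter.unusedSectionVars false
set_option linter.unusedVariables false

namespace Pool.Agent.Helper56.LC

open Pool.Agent.H436R3.Fol Pool.Agent.H436R3.KT Pool.Agent.W497.Mld MvPolynomial Filter
open Pool.Agent.TH165.ACC (pr ex Prim Cn Hs lead part pr_add pr_zero pr_neg pr_sub pr_smul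
  pr_smul_right ex_add ex_inj)
open Pool.Agent.Helper43K9.NH (ch AA wt Inn expo phi dot ch_ne phi_expo expo_nonempty phi_spec
  mem_expo)
open Pool.Agent.Helper43K9.CI

variable {r d : ℕ} {L : Type} [Field L] [Algebra ℂ L]

/-- the growth of `φ` -/
theorem phi_grow {n N : ℕ} {E : Fin N → Fin n → ℤ} {S : Finset (Fin n → ℤ)} (hS : S.Nonempty)
    (J : Finset (Fin N)) (w : Fin n → ℤ) :
    phi S w + ∑ k ∈ J, phi S (E k) ≤ phi S (w + ∑ k ∈ J, E k) ∧
      ((¬ ∃ m ∈ S, pr m w = phi S w ∧ ∀ k ∈ J, pr m (E k) = phi S (E k)) →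
        phi S w + ∑ k ∈ J, phi S (E k) + 1 ≤ phi S (w + ∑ k ∈ J, E k)) := by
  obtain ⟨⟨m, hm, h1⟩, -⟩ := phi_spec hS (w + ∑ k ∈ J, E k)
  rw [pr_add_r, pr_sum_r] at h1
  have h2 := (phi_spec hS w).2 m hm
  have h3 : ∀ k ∈ J, phi S (E k) ≤ pr m (E k) := fun k _ => (phi_spec hS (E k)).2 m hm
  have h4 := Finset.sum_le_sum h3
  refine ⟨by omega, fun h => ?_⟩
  by_contra h5
  apply h
  have h6 : ∑ k ∈ J, phi S (E k) = ∑ k ∈ J, pr m (E k) := by omega
  exact ⟨m, hm, by omega, fun k hk => ((Finset.sum_eq_sum_iff_of_le h3).1 h6 k hk).symm⟩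

/-- the toric log discrepancy at `w + ∑ E_k` -/
theorem la_le {g : CIGerm r d L} (b : Bd g) (J : Finset (Fin g.N)) (w : Fin (d + r) → ℤ)
    {k : Fin r → ℤ} (hk : ∀ j, phi (g.S j) w + ∑ i ∈ J, phi (g.S j) (g.E i) + k j ≤
      phi (g.S j) (w + ∑ i ∈ J, g.E i)) :
    la b.ψ g.S (w + ∑ i ∈ J, g.E i) ≤
      dot b.ψ w - ∑ j, (phi (g.S j) w : ℝ) + J.card - ∑ j, (k j : ℝ) := by
  have h1 : ∑ i ∈ J, dot b.ψ (g.E i) ≤ ∑ i ∈ J, (1 + ∑ j, (phi (g.S j) (g.E i) : ℝ)) := by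
    refine Finset.sum_le_sum fun i _ => ?_
    rw [b.eq]
    have := b.nonneg i
    linarith
  rw [Finset.sum_add_distrib, Finset.sum_const, nsmul_eq_mul, mul_one, Finset.sum_comm] at h1
  have h2 : ∀ j, (phi (g.S j) w : ℝ) + ∑ i ∈ J, (phi (g.S j) (g.E i) : ℝ) + k j ≤
      (phi (g.S j) (w + ∑ i ∈ J, g.E i) : ℝ) := fun j => by exact_mod_cast hk j
  have h3 := Finset.sum_le_sum fun j (_ : j ∈ Finset.univ) => h2 j
  rw [Finset.sum_add_distrib, Finset.sum_add_distrib] at h3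
  rw [la, Pool.Agent.Helper58K9.CI.dot_add, Pool.Agent.Helper58K9.CI.dot_sum]
  linarith

theorem core (g : CIGerm r d L) : ∃ f : g.X.R, g.P f ≠ 0 ∧
    ∀ x : Pt g.X, x f ≠ 0 → ∀ v, IsOverGerm x v → ∀ c, IsCanOrd g.X.T v c → ∀ b : Bd g,
      ∃ w', Inn g.E w' ∧ la b.ψ g.S w' ≤ 1 + (c : ℝ) + dot b.ψ (wt g.y v) := by
  classical
  by_contra hcon
  push Not at hcon
  let ι : Type := {f : g.X.R // g.P f ≠ 0}
  have hcon' : ∀ i : ι, ∃ (x : Pt g.X) (v : DVal L) (c : ℤ) (b : Bd g), x i.1 ≠ 0 ∧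
      IsOverGerm x v ∧ IsCanOrd g.X.T v c ∧ ∀ w', Inn g.E w' →
        1 + (c : ℝ) + dot b.ψ (wt g.y v) < la b.ψ g.S w' := by
    intro i
    obtain ⟨x, hx, v, hv, c, hc, b, hb⟩ := hcon i.1 i.2
    exact ⟨x, v, c, b, hx, hv, hc, hb⟩
  choose x v c b hx hv hc hbad using hcon'
  -- the ultrafilter
  let 𝓕 : Filter ι := ⨅ h : ι, 𝓟 {f : ι | (h : g.X.R) ∣ (f : g.X.R)}
  have hne : 𝓕.NeBot := by
    have : Nonempty ι := ⟨⟨1, by rw [map_one]; exact one_ne_zero⟩⟩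
    refine iInf_neBot_of_directed ?_ fun h => ?_
    · intro h1 h2
      refine ⟨⟨(h1 : g.X.R) * h2, by rw [map_mul]; exact mul_ne_zero h1.2 h2.2⟩, ?_, ?_⟩
      · exact principal_mono.2 fun f hf => (dvd_mul_right _ _).trans hf
      · exact principal_mono.2 fun f hf => (dvd_mul_left _ _).trans hf
    · rw [principal_neBot_iff]
      exact ⟨h, dvd_refl (h : g.X.R)⟩
  let 𝒰 : Ultrafilter ι := Ultrafilter.of 𝓕
  have hU : ∀ h : g.X.R, g.P h ≠ 0 → ∀ᶠ i in (𝒰 : Filter ι), x i h ≠ 0 := by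
    intro h hh
    have h1 : {f : ι | h ∣ (f : g.X.R)} ∈ 𝓕 :=
      mem_iInf_of_mem (⟨h, hh⟩ : ι) (mem_principal_self _)
    have h2 : {f : ι | h ∣ (f : g.X.R)} ∈ (𝒰 : Filter ι) := Ultrafilter.of_le 𝓕 h1
    filter_upwards [h2] with i hi
    obtain ⟨k, hk⟩ := hi
    intro h0
    apply hx i
    rw [hk, map_mul, h0, zero_mul]
  -- the data
  have hdata := fun i : ι => pair_data g (hv i)
  choose Kι fι aι η T hη hw hconst hlead hP hT hlow using hdata
  obtain ⟨T0, -, hT0⟩ := uf_const 𝒰 Finset.univ T fun i => Finset.mem_univ _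
  obtain ⟨J, hJ⟩ := limit_main 𝒰 g.E g.full g.F g.Fne g.nondeg η hη
    (fun i => wt g.y (v i)) hw hconst (Filter.Eventually.of_forall fun i j => hlead i j) (by
      intro S a hS h0 ha
      have h1 : ∀ S' ∈ S.powerset, ∃ h : g.X.R,
          (h : L) = ∑ m ∈ S', algebraMap ℂ L (a m) * ch g.y m ∧ (0 ∈ S' → g.P h = a 0) :=
        fun S' hS' => exists_sum g S' (fun m hm => hS m (Finset.mem_powerset.1 hS' hm)) a
      choose! h hh hh0 using h1
      have h2 : ∀ᶠ i in (𝒰 : Filter ι), ∀ S' ∈ S.powerset, 0 ∈ S' → x i (h S') ≠ 0 := by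
        rw [Filter.eventually_all_finset]
        intro S' hS'
        by_cases h0' : 0 ∈ S'
        · filter_upwards [hU (h S') (by rw [hh0 S' hS' h0']; exact ha)] with i hi _
          exact hi
        · exact Filter.Eventually.of_forall fun i h3 => absurd h3 h0'
      filter_upwards [h2] with i hi hsum
      obtain ⟨S', hS', h0', h3⟩ := hP i S a hS hsum
      exact hi S' (Finset.mem_powerset.2 hS') (h0' h0)
        (h3 (h S') (hh S' (Finset.mem_powerset.2 hS')))) T0 (by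
      filter_upwards [hT0] with i hi
      rw [← hi]
      exact hT i)
  obtain ⟨i, ⟨hInn, hli, hcard⟩, hiT⟩ := (hJ.and hT0).exists
  have h1 := hlow i hli (c i) (hc i)
  obtain ⟨w, hw'⟩ : ∃ w, w = wt g.y (v i) := ⟨_, rfl⟩
  simp only [← hw'] at h1 hInn hcard
  refine absurd (hbad i _ hInn) (not_lt.2 ?_)
  rw [← hw']
  let I0 : Finset (Fin r) := Finset.univ.filter fun j => ∃ m ∈ expo (g.F j),
    pr m w = phi (expo (g.F j)) w ∧ ∀ k ∈ J, pr m (g.E k) = phi (expo (g.F j)) (g.E k)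
  have h2 := la_le (b i) J w (k := fun j => if j ∈ I0 then 0 else 1) (by
    intro j
    have h3 := phi_grow (E := g.E) (S_ne g j) J w
    split_ifs with h4
    · rw [add_zero]
      exact h3.1
    · exact h3.2 fun h5 => h4 (Finset.mem_filter.2 ⟨Finset.mem_univ _, h5⟩))
  have h3 : ∑ j, (((if j ∈ I0 then 0 else 1 : ℤ) : ℤ) : ℝ) = (r : ℝ) - I0.card := by
    have h4 : ∀ j, (((if j ∈ I0 then 0 else 1 : ℤ) : ℤ) : ℝ) =
        1 - (if j ∈ I0 then 1 else 0 : ℝ) := by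
      intro j
      split_ifs <;> simp
    simp only [h4]
    rw [Finset.sum_sub_distrib, Finset.sum_ite_mem, Finset.univ_inter]
    simp
  rw [h3] at h2
  have h4 : (T0.card : ℝ) + J.card + I0.card ≤ ((d + r : ℕ) : ℝ) := by exact_mod_cast hcard
  have h5 : ((d + r : ℕ) : ℝ) - (T i).card - r - 1 - ∑ j, (phi (g.S j) w : ℝ) ≤ (c i : ℝ) := by
    exact_mod_cast h1
  rw [hiT] at h5
  linarith

end Pool.Agent.Helper56.LC
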