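import Pool.Graph.R_pool_sql_team_seeded_1e53cb71.Helper43K9.NH.Base
import Pool.Graph.R_seed8.TH165.ACC.Cara

/-!
# Farkas' lemma over ordered groups

For a homomorphism `u : ℤ^n → G` to an ordered abelian group which is nonnegative on the dual of the
cone of the `E i`, a positive multiple of `u` is a nonnegative combination of linearly independent
`E i` (Bartl's proof of Farkas' lemma).
-/

set_option autoImplicit false
set_option linter.unusedSectionVars false
set_option linter.unusedVariables false

namespace Pool.Agent.Helper56.LC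

open Pool.Agent.TH165.ACC (pr Cn pr_add pr_zero pr_neg pr_sub pr_smul pr_smul_right DualVec
  exists_dual)

variable {n : ℕ} {G : Type} [AddCommGroup G] [LinearOrder G] [IsOrderedAddMonoid G]

theorem pr_comm (m u : Fin n → ℤ) : pr m u = pr u m := by
  simp only [pr, mul_comm]

theorem pr_add_r (m u u' : Fin n → ℤ) : pr m (u + u') = pr m u + pr m u' := by
  simp only [pr, Pi.add_apply, mul_add, Finset.sum_add_distrib]

theorem pr_neg_r (m u : Fin n → ℤ) : pr m (-u) = -pr m u := by
  simp only [pr, Pi.neg_apply, mul_neg, Finset.sum_neg_distrib]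

theorem pr_sub_r (m u u' : Fin n → ℤ) : pr m (u - u') = pr m u - pr m u' := by
  rw [sub_eq_add_neg, pr_add_r, pr_neg_r, sub_eq_add_neg]

theorem pr_sum_r {ι : Type*} (J : Finset ι) (m : Fin n → ℤ) (u : ι → Fin n → ℤ) :
    pr m (∑ j ∈ J, u j) = ∑ j ∈ J, pr m (u j) := by
  simp only [pr, Finset.sum_apply, Finset.mul_sum]
  rw [Finset.sum_comm]

theorem pr_sum_l {ι : Type*} (J : Finset ι) (m : ι → Fin n → ℤ) (u : Fin n → ℤ) :
    pr (∑ j ∈ J, m j) u = ∑ j ∈ J, pr (m j) u := by
  simp only [pr, Finset.sum_apply, Finset.sum_mul]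
  rw [Finset.sum_comm]

/-- **Farkas' lemma** with values in an ordered group, with linearly independent rays -/
theorem farkasG : ∀ {N : ℕ} (E : Fin N → Fin n → ℤ) (u : (Fin n → ℤ) →+ G),
    (∀ m, (∀ i, 0 ≤ pr m (E i)) → 0 ≤ u m) →
    ∃ (D : ℤ) (J : Finset (Fin N)) (g : Fin N → G), 0 < D ∧ (∀ i, 0 ≤ g i) ∧
      (∀ i, i ∉ J → g i = 0) ∧
      (∀ c : Fin N → ℤ, (∀ i, i ∉ J → c i = 0) → ∑ i, c i • E i = 0 → ∀ i, c i = 0) ∧
      ∀ m, D • u m = ∑ i, pr m (E i) • g i := by
  intro N
  induction N with
  | zero =>
    intro E u hu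
    refine ⟨1, ∅, 0, one_pos, fun i => i.elim0, fun i => i.elim0, fun c _ _ i => i.elim0,
      fun m => ?_⟩
    have h1 := hu m fun i => i.elim0
    have h2 := hu (-m) fun i => i.elim0
    rw [map_neg, neg_nonneg] at h2
    simp [le_antisymm h2 h1]
  | succ N ih =>
    intro E u hu
    by_cases hA : ∀ m, (∀ i : Fin N, 0 ≤ pr m (E i.succ)) → 0 ≤ u m
    · obtain ⟨D, J, g, hD, hg, hgJ, hJ, hrep⟩ := ih (fun i => E i.succ) u hA
      refine ⟨D, J.map (Fin.succEmb N), Fin.cons 0 g, hD, ?_, ?_, ?_, ?_⟩
      · intro i
        refine Fin.cases ?_ (fun i => ?_) i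
        · simp
        · simpa using hg i
      · intro i
        refine Fin.cases ?_ (fun i => ?_) i
        · intro _; simp
        · intro hi
          rw [Fin.cons_succ]
          apply hgJ
          intro h
          exact hi (Finset.mem_map.2 ⟨i, h, rfl⟩)
      · intro c hc h0
        have hc0 : c 0 = 0 := hc 0 (by
          intro h
          obtain ⟨i, -, h1⟩ := Finset.mem_map.1 h
          exact absurd h1 (Fin.succ_ne_zero i))
        rw [Fin.sum_univ_succ, hc0, zero_smul, zero_add] at h0
        have h1 := hJ (fun i => c i.succ) (fun i hi => hc _ (by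
          intro h
          obtain ⟨j, hj, h1⟩ := Finset.mem_map.1 h
          have h2 : j = i := Fin.succ_injective _ h1
          exact hi (h2 ▸ hj))) h0
        intro i
        refine Fin.cases hc0 (fun i => h1 i) i
      · intro m
        rw [hrep, Fin.sum_univ_succ]
        simp
    · push Not at hA
      obtain ⟨m0, hm0, hum0⟩ := hA
      set a : ℤ := -pr m0 (E 0) with ha
      have ha0 : 0 < a := by
        by_contra h
        have h1 : 0 ≤ pr m0 (E 0) := by omega
        refine absurd (hu m0 fun i => ?_) (not_le.2 hum0)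
        exact Fin.cases h1 (fun i => hm0 i) i
      let E' : Fin N → Fin n → ℤ := fun i => a • E i.succ + pr m0 (E i.succ) • E 0
      let u' : (Fin n → ℤ) →+ G :=
        { toFun := fun m => a • u m + pr m (E 0) • u m0
          map_zero' := by simp [pr_zero]
          map_add' := fun x y => by
            rw [map_add, pr_add, smul_add, add_smul]
            abel }
      have hpE' : ∀ m i, pr m (E' i) = a * pr m (E i.succ) + pr m0 (E i.succ) * pr m (E 0) := by
        intro m i
        simp only [E']
        rw [pr_add_r, pr_smul_right, pr_smul_right]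
      obtain ⟨D', J', g', hD', hg', hgJ', hJ', hrep'⟩ := ih E' u' (by
        intro m hm
        have h1 := hu (a • m + pr m (E 0) • m0) (by
          intro i
          refine Fin.cases ?_ (fun i => ?_) i
          · rw [pr_add, pr_smul, pr_smul]
            have : a * pr m (E 0) + pr m (E 0) * pr m0 (E 0) = 0 := by rw [ha]; ring
            omega
          · rw [pr_add, pr_smul, pr_smul]
            have h2 := hm i
            rw [hpE'] at h2
            have h3 : pr m0 (E i.succ) * pr m (E 0) = pr m (E 0) * pr m0 (E i.succ) := mul_comm _ _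
            omega)
        rw [map_add, map_zsmul, map_zsmul] at h1
        exact h1)
      set g0 : G := ∑ i, pr m0 (E i.succ) • g' i - D' • u m0 with hg0
      have hg0' : 0 ≤ g0 := by
        rw [hg0, sub_nonneg]
        have h1 : 0 ≤ D' • (-u m0) := zsmul_nonneg (neg_nonneg.2 hum0.le) hD'.le
        rw [smul_neg, neg_nonneg] at h1
        exact h1.trans (Finset.sum_nonneg fun i _ => zsmul_nonneg (hg' i) (hm0 i))
      refine ⟨D' * a, insert 0 (J'.map (Fin.succEmb N)), Fin.cons g0 fun i => a • g' i,
        mul_pos hD' ha0, ?_, ?_, ?_, ?_⟩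
      · intro i
        refine Fin.cases ?_ (fun i => ?_) i
        · simpa using hg0'
        · rw [Fin.cons_succ]
          exact zsmul_nonneg (hg' i) ha0.le
      · intro i
        refine Fin.cases ?_ (fun i => ?_) i
        · intro h
          exact absurd (Finset.mem_insert_self _ _) h
        · intro hi
          rw [Fin.cons_succ, hgJ' i, smul_zero]
          intro h
          exact hi (Finset.mem_insert_of_mem (Finset.mem_map.2 ⟨i, h, rfl⟩))
      · intro c hc h0
        rw [Fin.sum_univ_succ] at h0
        have hpE0 : ∀ i, pr m0 (E' i) = 0 := by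
          intro i
          rw [hpE', ha]
          ring
        -- the relation among the `E'`
        have h1 : ∑ i : Fin N, c i.succ • E' i =
            (∑ i : Fin N, c i.succ * pr m0 (E i.succ) - a * c 0) • E 0 := by
          have h2 : ∑ i : Fin N, c i.succ • E' i =
              a • ∑ i : Fin N, c i.succ • E i.succ +
                (∑ i : Fin N, c i.succ * pr m0 (E i.succ)) • E 0 := by
            rw [Finset.smul_sum, Finset.sum_smul, ← Finset.sum_add_distrib]
            refine Finset.sum_congr rfl fun i _ => ?_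
            simp only [E']
            rw [smul_add, smul_comm, smul_smul (c i.succ)]
          have h3 : ∑ i : Fin N, c i.succ • E i.succ = -(c 0 • E 0) :=
            (neg_eq_of_add_eq_zero_right h0).symm
          rw [h2, h3, sub_smul, smul_neg, smul_smul, mul_comm a (c 0)]
          abel
        have h4 := congrArg (pr m0) h1
        rw [pr_sum_r, pr_smul_right] at h4
        have h5 : ∑ i : Fin N, pr m0 (c i.succ • E' i) = 0 :=
          Finset.sum_eq_zero fun i _ => by rw [pr_smul_right, hpE0, mul_zero]
        rw [h5] at h4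
        have hE0 : pr m0 (E 0) ≠ 0 := by omega
        have h6 : ∑ i : Fin N, c i.succ * pr m0 (E i.succ) - a * c 0 = 0 :=
          (mul_eq_zero.1 h4.symm).resolve_right hE0
        rw [h6, zero_smul] at h1
        have h7 := hJ' (fun i => c i.succ) (fun i hi => hc _ (by
          intro h
          rcases Finset.mem_insert.1 h with h | h
          · exact Fin.succ_ne_zero i h
          · obtain ⟨j, hj, h1⟩ := Finset.mem_map.1 h
            have h2 : j = i := Fin.succ_injective _ h1
            exact hi (h2 ▸ hj))) h1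
        have h8 : c 0 = 0 := by
          have h9 : ∑ i : Fin N, c i.succ * pr m0 (E i.succ) = 0 :=
            Finset.sum_eq_zero fun i _ => by rw [h7 i, zero_mul]
          rw [h9, zero_sub, neg_eq_zero] at h6
          exact (mul_eq_zero.1 h6).resolve_left ha0.ne'
        intro i
        exact Fin.cases h8 (fun i => h7 i) i
      · intro m
        have h1 := hrep' m
        change D' • (a • u m + pr m (E 0) • u m0) = _ at h1
        rw [Fin.sum_univ_succ, Fin.cons_zero, hg0]
        have h2 : ∑ i, pr m (E' i) • g' i = ∑ i : Fin N, pr m (E i.succ) • (a • g' i) +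
            pr m (E 0) • ∑ i : Fin N, pr m0 (E i.succ) • g' i := by
          rw [Finset.smul_sum, ← Finset.sum_add_distrib]
          refine Finset.sum_congr rfl fun i _ => ?_
          rw [hpE', add_smul, smul_smul, smul_smul, mul_comm a, mul_comm (pr m0 _)]
        rw [h2, smul_add] at h1
        have h3 : (D' * a) • u m = D' • a • u m := by rw [mul_smul]
        have h4 : D' • pr m (E 0) • u m0 = pr m (E 0) • D' • u m0 := smul_comm _ _ _
        rw [h4] at h1
        simp only [Fin.cons_succ]
        rw [h3, smul_sub, eq_sub_of_add_eq h1]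
        abel

/-- **Carathéodory's theorem** with values in an ordered group: `u` is nonnegative on the dual basis of
some basis of `ℚ^n` consisting of rays -/
theorem exists_chart {N : ℕ} (E : Fin N → Fin n → ℤ)
    (hfull : ∀ m : Fin n → ℤ, (∀ i, pr m (E i) = 0) → m = 0) (u : (Fin n → ℤ) →+ G)
    (hu : ∀ m ∈ Cn E, 0 ≤ u m) :
    ∃ (a : Fin n → Fin N) (D : ℤ) (Q : Fin n → Fin n → ℤ), Function.Injective a ∧ 0 < D ∧
      (∀ i j, pr (Q j) (E (a i)) = if i = j then D else 0) ∧ (∀ j, 0 ≤ u (Q j)) ∧
      ∀ m, D • m = ∑ j, pr m (E (a j)) • Q j := by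
  classical
  obtain ⟨D0, J, g, hD0, hg, hgJ, hJ, hrep⟩ := farkasG E u hu
  let v : Fin N → Fin n → ℚ := fun i k => (E i k : ℚ)
  -- the rays in `J` are independent over `ℚ`
  have hJi : LinearIndepOn ℚ v (J : Set (Fin N)) := by
    rw [linearIndepOn_finset_iff]
    intro f hf i hi
    obtain ⟨K, hK, hz⟩ := Pool.Agent.TH165.ACC.exists_denom f
    choose z hz using hz
    have h1 := hJ (fun i => if i ∈ J then z i else 0) (fun i hi => if_neg hi) (by
      funext k
      rw [Finset.sum_apply, Pi.zero_apply]
      have h2 := congrFun hf k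
      rw [Finset.sum_apply, Pi.zero_apply] at h2
      have h3 : ((∑ i, ((if i ∈ J then z i else 0) • E i) k : ℤ) : ℚ) = K * ∑ i ∈ J, (f i • v i) k := by
        rw [Finset.mul_sum]
        push_cast
        rw [← Finset.sum_subset (Finset.subset_univ J)]
        · refine Finset.sum_congr rfl fun i hi => ?_
          simp only [if_pos hi, Pi.smul_apply, smul_eq_mul, v]
          push_cast
          rw [← hz i]
          ring
        · intro i _ hi
          simp only [if_neg hi, zero_smul, Pi.zero_apply, Int.cast_zero]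
      rw [h2, mul_zero] at h3
      exact_mod_cast h3) i
    simp only [if_pos hi] at h1
    have h2 := hz i
    rw [h1, Int.cast_zero] at h2
    exact (mul_eq_zero.1 h2).resolve_left (by exact_mod_cast hK.ne')
  -- extend to a basis
  obtain ⟨b, -, hJb, hspan, hb⟩ := exists_linearIndepOn_extension hJi (Set.subset_univ _)
  have htop : Submodule.span ℚ (v '' b) = ⊤ := by
    rw [eq_top_iff]
    by_contra hne
    have hlt : Submodule.span ℚ (v '' b) < ⊤ := lt_of_le_not_ge le_top hne
    obtain ⟨f, hf0, hf⟩ := Submodule.exists_le_ker_of_lt_top _ hlt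
    obtain ⟨K, hK, hz⟩ := Pool.Agent.TH165.ACC.exists_denom fun k : Fin n => f (Pi.single k 1)
    choose z hz using hz
    have hfx : ∀ x : Fin n → ℤ, (pr z x : ℚ) = K * f (fun k => (x k : ℚ)) := by
      intro x
      have h1 : (fun k => (x k : ℚ)) = ∑ k, (x k : ℚ) • (Pi.single k 1 : Fin n → ℚ) := by
        funext k
        rw [Finset.sum_apply, Finset.sum_eq_single k]
        · simp
        · intro b _ hb
          simp [hb.symm]
        · intro h; exact absurd (Finset.mem_univ _) h
      rw [h1, map_sum, Finset.mul_sum, pr]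
      push_cast
      refine Finset.sum_congr rfl fun k _ => ?_
      rw [map_smul, smul_eq_mul, ← hz k]
      ring
    have h1 : z = 0 := by
      apply hfull
      intro i
      have h2 : v i ∈ Submodule.span ℚ (v '' b) := hspan ⟨i, Set.mem_univ _, rfl⟩
      have h3 : f (v i) = 0 := hf h2
      have h4 := hfx (E i)
      change (pr z (E i) : ℚ) = K * f (v i) at h4
      rw [h3, mul_zero] at h4
      exact_mod_cast h4
    apply hf0
    refine (Pi.basisFun ℚ (Fin n)).ext fun k => ?_
    rw [Pi.basisFun_apply, LinearMap.zero_apply]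
    have h2 := hz k
    rw [h1] at h2
    simp only [Pi.zero_apply, Int.cast_zero] at h2
    exact (mul_eq_zero.1 h2).resolve_left (by exact_mod_cast hK.ne')
  -- index by `Fin n`
  have hbas : Fintype.card b = n := by
    have h1 : LinearIndependent ℚ (fun i : b => v i) := hb
    let B := Module.Basis.mk h1 (by
      have h2 : Set.range (fun i : b => v i) = v '' b := by
        ext x
        simp
      rw [h2, htop])
    have h3 := Module.finrank_eq_card_basis B
    rw [Module.finrank_fin_fun] at h3
    exact h3.symm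
  let e : Fin n ≃ b := (Fintype.equivFinOfCardEq hbas).symm
  have hae : Function.Injective fun j => (e j : Fin N) :=
    Subtype.val_injective.comp e.injective
  have hli : LinearIndependent ℚ fun (i : Fin n) (k : Fin n) => (E (e i) k : ℚ) :=
    LinearIndependent.comp hb e e.injective
  obtain ⟨D, hD, hQ⟩ := exists_dual (A := fun i : Fin n => E (e i)) hli
  choose Q hQ using hQ
  have hQ' : ∀ i j, pr (Q j) (E (e i)) = if i = j then D else 0 := fun i j => hQ j i
  -- vectors which are orthogonal to the rays of the basis vanish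
  have horth : ∀ m : Fin n → ℤ, (∀ i, pr m (E (e i)) = 0) → m = 0 := by
    intro m hm
    apply hfull
    intro i
    have h2 : v i ∈ Submodule.span ℚ (v '' b) := hspan ⟨i, Set.mem_univ _, rfl⟩
    let f : (Fin n → ℚ) →ₗ[ℚ] ℚ := ∑ k, (m k : ℚ) • (LinearMap.proj k : (Fin n → ℚ) →ₗ[ℚ] ℚ)
    have hf : ∀ i, f (v i) = (pr m (E i) : ℚ) := by
      intro i
      simp only [f, LinearMap.sum_apply, LinearMap.smul_apply, LinearMap.proj_apply, smul_eq_mul,
        pr, v]
      push_cast
      rfl
    have h3 : Submodule.span ℚ (v '' b) ≤ LinearMap.ker f := by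
      rw [Submodule.span_le]
      rintro _ ⟨j, hj, rfl⟩
      have h4 := hm (e.symm ⟨j, hj⟩)
      rw [Equiv.apply_symm_apply] at h4
      change f (v j) = 0
      rw [hf, h4, Int.cast_zero]
    have h4 : f (v i) = 0 := h3 h2
    rw [hf] at h4
    exact_mod_cast h4
  refine ⟨fun j => e j, D, Q, hae, hD, hQ', fun j => ?_, fun m => ?_⟩
  · -- nonnegativity
    have h1 := hrep (Q j)
    by_contra hneg
    have hneg : u (Q j) < 0 := not_le.1 hneg
    have h2 : 0 ≤ ∑ i, pr (Q j) (E i) • g i := by
      refine Finset.sum_nonneg fun i _ => ?_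
      by_cases hi : i ∈ J
      · have h3 : i ∈ b := hJb hi
        have h4 := hQ' (e.symm ⟨i, h3⟩) j
        rw [Equiv.apply_symm_apply] at h4
        have h5 : 0 ≤ pr (Q j) (E i) := by
          change pr (Q j) (E i) = _ at h4
          rw [h4]
          split_ifs
          · exact hD.le
          · exact le_rfl
        exact zsmul_nonneg (hg i) h5
      · rw [hgJ i hi, smul_zero]
    rw [← h1] at h2
    have h3 : 0 < D0 • (-u (Q j)) := zsmul_pos (neg_pos.2 hneg) hD0
    rw [smul_neg, neg_pos] at h3
    exact absurd h2 (not_le.2 h3)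
  · rw [← sub_eq_zero]
    apply horth
    intro i
    rw [pr_sub, pr_smul, pr_sum_l, Finset.sum_eq_single i]
    · rw [pr_smul, hQ', if_pos rfl]
      ring
    · intro j _ hj
      rw [pr_smul, hQ', if_neg hj.symm, mul_zero]
    · intro h; exact absurd (Finset.mem_univ _) h

/-- a homomorphism to an ordered group has the signs of an integral weight on a finite set -/
theorem exists_int_weight (u : (Fin n → ℤ) →+ G) (T : Finset (Fin n → ℤ)) :
    ∃ x : Fin n → ℤ, ∀ m ∈ T, (0 < u m → 0 < pr m x) ∧ (u m = 0 → pr m x = 0) ∧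
      (u m < 0 → pr m x < 0) := by
  classical
  let T' : Finset (Fin n → ℤ) := (T ∪ T.image fun m => -m).filter fun m => 0 ≤ u m
  have hT' : ∀ m ∈ T', 0 ≤ u m := fun m hm => (Finset.mem_filter.1 hm).2
  let e : Fin T'.card ≃ T' := T'.equivFin.symm
  let A : Fin T'.card → Fin n → ℤ := fun i => (e i : Fin n → ℤ)
  have hA : ∀ i, 0 ≤ u (A i) := fun i => hT' _ (e i).2
  have hex : ∀ i, ∃ x : Fin n → ℤ, (∀ k, 0 ≤ pr (A k) x) ∧ (0 < u (A i) → 0 < pr (A i) x) := by
    intro i
    by_contra hcon
    push Not at hcon
    let w : (Fin n → ℤ) →+ ℤ :=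
      { toFun := fun x => -pr x (A i)
        map_zero' := by simp [pr_zero]
        map_add' := fun x y => by rw [pr_add]; ring }
    obtain ⟨D, J, g, hD, hg, -, -, hrep⟩ := farkasG A w (by
      intro x hx
      have h1 := hcon x fun k => by rw [pr_comm]; exact hx k
      have h2 := h1.2
      rw [pr_comm] at h2
      change 0 ≤ -pr x (A i)
      omega)
    have hui : 0 < u (A i) := (hcon 0 fun k => by simp [pr]).1
    -- the relation
    have h1 : -(D • A i) = ∑ k, g k • A k := by
      funext l
      have h2 := hrep (Pi.single l 1)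
      have h3 : ∀ x : Fin n → ℤ, pr (Pi.single l 1) x = x l := by
        intro x
        simp [pr, Pi.single_apply]
      change D • -pr (Pi.single l 1) (A i) = _ at h2
      rw [h3] at h2
      simp only [h3] at h2
      rw [Finset.sum_apply, Pi.neg_apply, Pi.smul_apply]
      simp only [Pi.smul_apply, smul_eq_mul] at h2 ⊢
      rw [← mul_neg, h2]
      exact Finset.sum_congr rfl fun k _ => mul_comm _ _
    have h2 := congrArg u h1
    rw [map_neg, map_zsmul, map_sum] at h2
    have h3 : 0 ≤ ∑ k, u (g k • A k) := Finset.sum_nonneg fun k _ => by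
      rw [map_zsmul]
      exact zsmul_nonneg (hA k) (hg k)
    rw [← h2, neg_nonneg] at h3
    exact absurd h3 (not_le.2 (zsmul_pos hui hD))
  choose x hx hx' using hex
  have h0 : ∀ k, 0 ≤ pr (A k) (∑ i, x i) := fun k => by
    rw [pr_sum_r]
    exact Finset.sum_nonneg fun i _ => hx i k
  have h1 : ∀ k, 0 < u (A k) → 0 < pr (A k) (∑ i, x i) := by
    intro k hk
    rw [pr_sum_r]
    exact Finset.sum_pos' (fun i _ => hx i k) ⟨k, Finset.mem_univ _, hx' k hk⟩
  have h0' : ∀ m ∈ T', 0 ≤ pr m (∑ i, x i) := by
    intro m hm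
    have := h0 (e.symm ⟨m, hm⟩)
    simpa [A] using this
  have h1' : ∀ m ∈ T', 0 < u m → 0 < pr m (∑ i, x i) := by
    intro m hm hu
    have h2 := h1 (e.symm ⟨m, hm⟩)
    simp only [A, Equiv.apply_symm_apply] at h2
    exact h2 hu
  have hmem : ∀ m ∈ T, 0 ≤ u m → m ∈ T' := fun m hm h =>
    Finset.mem_filter.2 ⟨Finset.mem_union_left _ hm, h⟩
  have hmem' : ∀ m ∈ T, u m ≤ 0 → -m ∈ T' := fun m hm h =>
    Finset.mem_filter.2 ⟨Finset.mem_union_right _ (Finset.mem_image_of_mem _ hm), by
      rw [map_neg]; exact neg_nonneg.2 h⟩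
  refine ⟨∑ i, x i, fun m hm => ⟨fun h => h1' m (hmem m hm h.le) h, fun h => ?_, fun h => ?_⟩⟩
  · have h2 := h0' m (hmem m hm h.ge)
    have h3 := h0' (-m) (hmem' m hm h.le)
    rw [pr_neg] at h3
    omega
  · have h3 := h1' (-m) (hmem' m hm h.le) (by rw [map_neg]; exact neg_pos.2 h)
    rw [pr_neg] at h3
    omega

end Pool.Agent.Helper56.LC
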