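import Pool.Agent.Helper56.LC.Der
import Pool.Agent.Helper56.LC.Farkas
import Pool.Graph.R_pool_sql_team_seeded_1e53cb71.Helper43K9.NH.Can

/-!
# The count of independent logarithmic differentials at a point of a torus over a field
-/

set_option autoImplicit false
set_option linter.unusedSectionVars false
set_option linter.unusedVariables false

namespace Pool.Agent.Helper56.LC

open Pool.Agent.TH165.ACC (pr ex Cn lead part pr_add pr_zero pr_neg pr_sub pr_smul pr_smul_right)
open Pool.Agent.Helper43K9.NH MvPolynomial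

variable {n : ℕ} {κ : Type} [Field κ] [Algebra ℂ κ]

/-- the logarithmic gradient of `p` at `ξ` -/
noncomputable def lg (ξ : Fin n → κ) (p : MvPolynomial (Fin n) ℂ) : Fin n → κ :=
  fun l => aeval ξ (X l * pderiv l p)

/-- dual derivations of algebraically independent elements -/
theorem exists_dual_der {ι : Type} [Fintype ι] [DecidableEq ι] (z : ι → κ)
    (hz : AlgebraicIndependent ℂ z) :
    ∃ Dv : ι → Derivation ℂ κ κ, ∀ i j, Dv i (z j) = if i = j then 1 else 0 := by
  have h1 := linInd_D z hz
  let φ : (ι → κ) →ₗ[κ] (Ω[κ⁄ℂ]) :=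
    Fintype.linearCombination κ fun i => KaehlerDifferential.D ℂ κ (z i)
  have hφ : LinearMap.ker φ = ⊥ := by
    rw [LinearMap.ker_eq_bot]
    exact linearIndependent_iff_injective_fintypeLinearCombination.1 h1
  obtain ⟨L, hL⟩ := φ.exists_leftInverse_of_injective hφ
  refine ⟨fun i => ((LinearMap.proj i).comp L).compDer (KaehlerDifferential.D ℂ κ), fun i j => ?_⟩
  change (L (KaehlerDifferential.D ℂ κ (z j))) i = _
  have h2 : φ (Pi.single j 1) = KaehlerDifferential.D ℂ κ (z j) := by
    simp only [φ]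
    rw [Fintype.linearCombination_apply_single, one_smul]
  have h3 := LinearMap.congr_fun hL (Pi.single j 1)
  rw [LinearMap.comp_apply, h2] at h3
  rw [h3]
  simp [Pi.single_apply]

/-- **The count.** -/
theorem count (ξ : Fin n → κ) (hξ : ∀ i, ξ i ≠ 0) {ι₁ ι₂ ι₃ : Type} [Fintype ι₁] [Fintype ι₂]
    [Fintype ι₃] [DecidableEq ι₂] (Q : ι₁ → Fin n → ℤ)
    (hQ : AlgebraicIndependent ℂ fun j => ch ξ (Q j)) (E M : ι₂ → Fin n → ℤ) {D : ℤ} (hD : 0 < D)
    (hM : ∀ i j, pr (M j) (E i) = if i = j then D else 0) (hQE : ∀ i j, pr (Q i) (E j) = 0)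
    (p : ι₃ → MvPolynomial (Fin n) ℂ) (hp : ∀ k, aeval ξ (p k) = 0)
    (hlg : LinearIndependent κ fun k => lg ξ (p k))
    (hpE : ∀ k j, ∑ l, lg ξ (p k) l * (E j l : κ) = 0) :
    Fintype.card ι₁ + Fintype.card ι₂ + Fintype.card ι₃ ≤ n := by
  classical
  have hchar : CharZero κ := charZero_of_injective_algebraMap (algebraMap ℂ κ).injective
  obtain ⟨Dv, hDv⟩ := exists_dual_der (fun j => ch ξ (Q j)) hQ
  let v : ι₁ ⊕ ι₃ → Fin n → κ := Sum.elim (fun j l => (Q j l : κ)) fun k => lg ξ (p k)
  -- the functionals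
  have hf1 : ∀ i j, ∑ l, (Q j l : κ) * (Dv i (ξ l) / ξ l) =
      if i = j then (ch ξ (Q j))⁻¹ else 0 := by
    intro i j
    have h1 := der_ch hξ (Dv i) (Q j)
    rw [hDv] at h1
    have h2 := ch_ne hξ (Q j)
    split_ifs at h1 ⊢ with h
    · exact eq_inv_of_mul_eq_one_right h1.symm
    · exact (mul_eq_zero.1 h1.symm).resolve_left h2
  have hf2 : ∀ i k, ∑ l, lg ξ (p k) l * (Dv i (ξ l) / ξ l) = 0 := by
    intro i k
    have h1 := der_aeval hξ (Dv i) (p k)
    rw [hp, map_zero] at h1
    exact h1.symm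
  have hv : LinearIndependent κ v := by
    rw [Fintype.linearIndependent_iff]
    intro c hc
    rw [Fintype.sum_sum_type] at hc
    have hc' : ∀ l, ∑ j, c (Sum.inl j) * (Q j l : κ) + ∑ k, c (Sum.inr k) * lg ξ (p k) l = 0 := by
      intro l
      have h1 := congrFun hc l
      rw [Pi.add_apply, Finset.sum_apply, Finset.sum_apply] at h1
      exact h1
    have h1 : ∀ i, c (Sum.inl i) = 0 := by
      intro i
      have h2 : ∑ l, (∑ j, c (Sum.inl j) * (Q j l : κ) + ∑ k, c (Sum.inr k) * lg ξ (p k) l) *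
          (Dv i (ξ l) / ξ l) = 0 := Finset.sum_eq_zero fun l _ => by rw [hc', zero_mul]
      simp only [add_mul, Finset.sum_mul, Finset.sum_add_distrib] at h2
      rw [Finset.sum_comm, Finset.sum_comm (s := (Finset.univ : Finset (Fin n)))
        (t := (Finset.univ : Finset ι₃))] at h2
      simp only [mul_assoc, ← Finset.mul_sum, hf1, hf2, mul_zero, Finset.sum_const_zero, add_zero,
        mul_ite] at h2
      rw [Finset.sum_ite_eq Finset.univ i, if_pos (Finset.mem_univ _)] at h2
      exact (mul_eq_zero.1 h2).resolve_right (inv_ne_zero (ch_ne hξ _))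
    have h2 : ∀ k, c (Sum.inr k) = 0 := by
      refine Fintype.linearIndependent_iff.1 hlg _ ?_
      funext l
      have h3 := hc' l
      rw [Finset.sum_eq_zero fun j _ => by rw [h1, zero_mul], zero_add] at h3
      rw [Finset.sum_apply]
      exact h3
    rintro (i | k)
    · exact h1 i
    · exact h2 k
  -- the orthogonal space of the `E j`
  let A : (Fin n → κ) →ₗ[κ] (ι₂ → κ) :=
    { toFun := fun x j => ∑ l, x l * (E j l : κ)
      map_add' := fun x y => by
        funext j
        simp only [Pi.add_apply, add_mul, Finset.sum_add_distrib]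
      map_smul' := fun c x => by
        funext j
        simp only [Pi.smul_apply, smul_eq_mul, RingHom.id_apply, Finset.mul_sum, mul_assoc] }
  have hpr : ∀ m u : Fin n → ℤ, ∑ l, (m l : κ) * (u l : κ) = ((pr m u : ℤ) : κ) := by
    intro m u
    rw [pr]
    push_cast
    rfl
  have hA : Function.Surjective A := by
    intro y
    refine ⟨fun l => ∑ j, y j * (D : κ)⁻¹ * (M j l : κ), ?_⟩
    funext i
    change ∑ l, (∑ j, y j * (D : κ)⁻¹ * (M j l : κ)) * (E i l : κ) = y i
    simp only [Finset.sum_mul]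
    rw [Finset.sum_comm]
    simp only [mul_assoc, ← Finset.mul_sum, hpr, hM]
    rw [Finset.sum_eq_single i]
    · rw [if_pos rfl, inv_mul_cancel₀ (by exact_mod_cast hD.ne'), mul_one]
    · intro j _ hj
      rw [if_neg hj.symm, Int.cast_zero, mul_zero, mul_zero]
    · intro h; exact absurd (Finset.mem_univ _) h
  have hker : ∀ a, v a ∈ LinearMap.ker A := by
    rintro (i | k)
    · rw [LinearMap.mem_ker]
      funext j
      change ∑ l, (Q i l : κ) * (E j l : κ) = 0
      rw [hpr, hQE, Int.cast_zero]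
    · rw [LinearMap.mem_ker]
      funext j
      exact hpE k j
  have h1 := LinearMap.finrank_range_add_finrank_ker A
  rw [LinearMap.range_eq_top.2 hA, finrank_top, Module.finrank_fintype_fun_eq_card,
    Module.finrank_fin_fun] at h1
  have h2 : LinearIndependent κ (fun a => (⟨v a, hker a⟩ : LinearMap.ker A)) :=
    LinearIndependent.of_comp (LinearMap.ker A).subtype hv
  have h3 := h2.fintype_card_le_finrank
  rw [Fintype.card_sum] at h3
  omega

end Pool.Agent.Helper56.LC
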