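import Mathlib

/-!
# Differentials of algebraically independent elements are linearly independent
-/

set_option autoImplicit false

namespace Pool.Agent.Helper56.LC

open MvPolynomial TensorProduct

theorem linInd_D_basis {κ : Type} [Field κ] [Algebra ℂ κ] {ι : Type} (z : ι → κ)
    (hz : IsTranscendenceBasis ℂ z) :
    LinearIndependent κ fun i => KaehlerDifferential.D ℂ κ (z i) := by
  classical
  let S := MvPolynomial ι ℂ
  let instSK : Algebra S κ := (aeval z : S →ₐ[ℂ] κ).toRingHom.toAlgebra
  have hmap : ∀ p : S, algebraMap S κ p = aeval z p := fun p => rfl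
  have : IsScalarTower ℂ S κ := IsScalarTower.of_algebraMap_eq fun c => by
    rw [hmap]
    exact (AlgHom.commutes (aeval z : S →ₐ[ℂ] κ) c).symm
  have hinj : Function.Injective (algebraMap S κ) := hz.1
  have : FaithfulSMul S κ := (faithfulSMul_iff_algebraMap_injective S κ).2 hinj
  let F := FractionRing S
  let instFK : Algebra F κ := FractionRing.liftAlgebra S κ
  have : IsScalarTower S F κ := FractionRing.isScalarTower_liftAlgebra S κ
  have : Algebra.IsAlgebraic S κ := by
    have h1 := hz.isAlgebraic
    refine ⟨fun b => ?_⟩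
    obtain ⟨p, hp0, hp⟩ := h1.isAlgebraic b
    let φ := hz.1.aevalEquiv
    refine ⟨p.map (φ.symm : Algebra.adjoin ℂ (Set.range z) ≃ₐ[ℂ] S).toAlgHom.toRingHom, ?_, ?_⟩
    · rw [Ne, Polynomial.map_eq_zero_iff]
      · exact hp0
      · exact φ.symm.injective
    · rw [Polynomial.aeval_def, Polynomial.eval₂_map]
      rw [Polynomial.aeval_def] at hp
      rw [← hp]
      congr 1
      refine RingHom.ext fun x => ?_
      change aeval z (φ.symm x) = (x : κ)
      have h2 := hz.1.algebraMap_aevalEquiv (φ.symm x)
      rw [AlgEquiv.apply_symm_apply] at h2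
      exact h2.symm
  have : Algebra.IsAlgebraic F κ := Algebra.IsAlgebraic.extendScalars (R := S) (S := F)
    (IsFractionRing.injective S F)
  have : Algebra.IsSeparable F κ := inferInstance
  have : Algebra.FormallyEtale F κ := Algebra.FormallyEtale.of_isSeparable F κ
  have : Algebra.FormallyEtale S F := Algebra.FormallyEtale.of_isLocalization (nonZeroDivisors S)
  have : Algebra.FormallyEtale S κ := Algebra.FormallyEtale.comp S F κ
  have h1 : LinearIndependent κ fun i : ι =>
      (1 : κ) ⊗ₜ[S] (KaehlerDifferential.D ℂ S (X i)) := by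
    have h2 := ((KaehlerDifferential.mvPolynomialBasis ℂ ι).baseChange κ).linearIndependent
    have h3 : (fun i : ι => (1 : κ) ⊗ₜ[S] (KaehlerDifferential.D ℂ S (X i))) =
        ((KaehlerDifferential.mvPolynomialBasis ℂ ι).baseChange κ) := by
      funext i
      rw [Module.Basis.baseChange_apply, KaehlerDifferential.mvPolynomialBasis_apply]
    rw [h3]
    exact h2
  have h2 := h1.map' (KaehlerDifferential.tensorKaehlerEquivOfFormallyEtale ℂ S κ).toLinearMap
    (LinearEquiv.ker _)
  have h3 : (fun i => KaehlerDifferential.D ℂ κ (z i)) =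
      (KaehlerDifferential.tensorKaehlerEquivOfFormallyEtale ℂ S κ).toLinearMap ∘
        fun i : ι => (1 : κ) ⊗ₜ[S] (KaehlerDifferential.D ℂ S (X i)) := by
    funext i
    rw [Function.comp_apply]
    have h4 := KaehlerDifferential.tensorKaehlerEquivOfFormallyEtale_symm_D_algebraMap ℂ S κ (X i)
    change _ = KaehlerDifferential.tensorKaehlerEquivOfFormallyEtale ℂ S κ _
    rw [← h4, LinearEquiv.apply_symm_apply, hmap, aeval_X]
  rw [h3]
  exact h2

/-- the differentials of algebraically independent elements are linearly independent -/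
theorem linInd_D {κ : Type} [Field κ] [Algebra ℂ κ] {ι : Type} (z : ι → κ)
    (hz : AlgebraicIndependent ℂ z) :
    LinearIndependent κ fun i => KaehlerDifferential.D ℂ κ (z i) := by
  classical
  obtain ⟨t, hts, ht⟩ := exists_isTranscendenceBasis_superset (R := ℂ) (s := Set.range z)
    hz.to_subtype_range
  have h1 := linInd_D_basis _ ht
  let σ : ι → t := fun i => ⟨z i, hts ⟨i, rfl⟩⟩
  have hσ : Function.Injective σ := fun i j h => hz.injective (congrArg Subtype.val h)
  exact h1.comp σ hσ

end Pool.Agent.Helper56.LC
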