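import Mathlib

/-!
# Fibre dimension, from Zariski's main theorem

For a domain `B` of finite type over `ℂ`, a subalgebra `C` and a prime `𝔫` of `B` there is a prime
`𝔮 ≤ 𝔫` with the same trace on `C` such that the relative transcendence degree of `B` over `C` is at
most the one of `B / 𝔮` over `ℂ`.
-/

set_option autoImplicit false
set_option linter.unusedSectionVars false

namespace Pool.Agent.Helper56.LC

variable {B : Type} [CommRing B] [IsDomain B] [Algebra ℂ B]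

/-- a set of generators contains a transcendence basis of the quotient -/
theorem exists_tb {n : ℕ} (z : Fin n → B) (hz : Algebra.adjoin ℂ (Set.range z) = ⊤) (𝔮 : Ideal B)
    [h𝔮 : 𝔮.IsPrime] : ∃ s : Finset (Fin n),
      AlgebraicIndependent ℂ (fun j : s => Ideal.Quotient.mk 𝔮 (z j)) ∧
      ∀ b : B ⧸ 𝔮, IsAlgebraic (Algebra.adjoin ℂ ((fun j => Ideal.Quotient.mk 𝔮 (z j)) '' s)) b := by
  classical
  let zb : Fin n → B ⧸ 𝔮 := fun j => Ideal.Quotient.mk 𝔮 (z j)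
  have hzb : Algebra.adjoin ℂ (Set.range zb) = ⊤ := by
    have h1 := congrArg (Subalgebra.map (Ideal.Quotient.mkₐ ℂ 𝔮)) hz
    rw [AlgHom.map_adjoin, Algebra.map_top, ← Set.range_comp] at h1
    rw [(AlgHom.range_eq_top _).2 (Ideal.Quotient.mkₐ_surjective ℂ 𝔮)] at h1
    exact h1
  have halg : Algebra.IsAlgebraic (Algebra.adjoin ℂ (Set.range zb)) (B ⧸ 𝔮) := by
    refine ⟨fun b => ?_⟩
    have hb : b ∈ Algebra.adjoin ℂ (Set.range zb) := by rw [hzb]; trivial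
    exact isAlgebraic_algebraMap (R := Algebra.adjoin ℂ (Set.range zb)) (A := B ⧸ 𝔮) ⟨b, hb⟩
  have hinj : FaithfulSMul ℂ (B ⧸ 𝔮) := by
    rw [faithfulSMul_iff_algebraMap_injective]
    exact (algebraMap ℂ (B ⧸ 𝔮)).injective
  obtain ⟨t, hts, ht⟩ := exists_isTranscendenceBasis_subset (R := ℂ) (Set.range zb)
  -- choose the indices
  have h1 : ∀ b : t, ∃ j, zb j = b := fun b => hts b.2
  choose σ hσ using h1
  have htf : Finite t := (Set.finite_range zb).subset hts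
  have hσi : Function.Injective σ := fun a b h => Subtype.ext (by rw [← hσ a, ← hσ b, h])
  let s : Finset (Fin n) := Finset.univ.filter fun j => ∃ b : t, σ b = j
  have hs : ∀ j, j ∈ s ↔ ∃ b : t, σ b = j := fun j => by simp [s]
  refine ⟨s, ?_, ?_⟩
  · have h2 := ht.1
    let τ : s → t := fun j => Classical.choose ((hs j).1 j.2)
    have hτ : ∀ j : s, σ (τ j) = j := fun j => Classical.choose_spec ((hs j).1 j.2)
    have hτi : Function.Injective τ := fun a b h => Subtype.ext (by rw [← hτ a, ← hτ b, h])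
    have h3 := h2.comp τ hτi
    have h4 : (fun j : s => Ideal.Quotient.mk 𝔮 (z j)) = ((↑) : t → B ⧸ 𝔮) ∘ τ := by
      funext j
      change zb j = ((τ j : t) : B ⧸ 𝔮)
      rw [← hσ (τ j), hτ j]
    rw [h4]
    exact h3
  · have h2 := ht.isAlgebraic
    intro b
    have h3 : Set.range ((↑) : t → B ⧸ 𝔮) = (fun j => Ideal.Quotient.mk 𝔮 (z j)) '' s := by
      ext x
      constructor
      · rintro ⟨y, rfl⟩
        exact ⟨σ y, (hs _).2 ⟨y, rfl⟩, hσ y⟩
      · rintro ⟨j, hj, rfl⟩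
        obtain ⟨y, rfl⟩ := (hs j).1 hj
        exact ⟨y, (hσ y).symm⟩
    rw [← h3]
    exact h2.isAlgebraic b

theorem fd {n : ℕ} (z : Fin n → B) (hz : Algebra.adjoin ℂ (Set.range z) = ⊤)
    (C : Subalgebra ℂ B) (𝔫 : Ideal B) [h𝔫 : 𝔫.IsPrime] :
    ∃ 𝔮 : Ideal B, 𝔮.IsPrime ∧ 𝔮 ≤ 𝔫 ∧ (∀ c ∈ C, c ∈ 𝔫 → c ∈ 𝔮) ∧ ∃ s : Finset (Fin n),
      AlgebraicIndependent ℂ (fun j : s => Ideal.Quotient.mk 𝔮 (z j)) ∧
      ∀ b : B, IsAlgebraic (Algebra.adjoin ℂ ((C : Set B) ∪ z '' s)) b := by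
  classical
  have hft : Algebra.FiniteType ℂ B :=
    ⟨⟨(Set.finite_range z).toFinset, by rw [Set.Finite.coe_toFinset]; exact hz⟩⟩
  have hN : IsNoetherianRing B := Algebra.FiniteType.isNoetherianRing ℂ B
  let I : Ideal B := Ideal.span {c | c ∈ C ∧ c ∈ 𝔫}
  have hI : I ≤ 𝔫 := Ideal.span_le.2 fun c hc => hc.2
  obtain ⟨𝔮, h𝔮m, h𝔮𝔫⟩ := Ideal.exists_minimalPrimes_le hI
  have h𝔮 : 𝔮.IsPrime := h𝔮m.1.1
  have hC𝔮 : ∀ c ∈ C, c ∈ 𝔫 → c ∈ 𝔮 := fun c hc h => h𝔮m.1.2 (Ideal.subset_span ⟨hc, h⟩)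
  obtain ⟨s, hs1, hs2⟩ := exists_tb z hz 𝔮
  refine ⟨𝔮, h𝔮, h𝔮𝔫, hC𝔮, s, hs1, ?_⟩
  let C1 : Subalgebra ℂ B := Algebra.adjoin ℂ ((C : Set B) ∪ z '' s)
  have hCC1 : ∀ c ∈ C, c ∈ C1 := fun c hc => Algebra.subset_adjoin (Or.inl hc)
  have hft1 : Algebra.FiniteType C1 B := Algebra.FiniteType.of_restrictScalars_finiteType ℂ C1 B
  let q : PrimeSpectrum B := ⟨𝔮, h𝔮⟩
  -- the primes over `𝔮` with the same trace on `C1`
  have hinc : ∀ q' : Ideal B, q'.IsPrime → 𝔮 ≤ q' → q'.comap (algebraMap C1 B) =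
      𝔮.comap (algebraMap C1 B) → q' = 𝔮 := by
    intro q' hq' hle heq
    by_contra hne
    obtain ⟨b, hb, hb'⟩ := SetLike.exists_of_lt (lt_of_le_of_ne hle (Ne.symm hne))
    have hb0 : Ideal.Quotient.mk 𝔮 b ≠ 0 := by
      rwa [Ne, Ideal.Quotient.eq_zero_iff_mem]
    have h1 := Ideal.comap_ne_bot_of_algebraic_mem (R := Algebra.adjoin ℂ
      ((fun j => Ideal.Quotient.mk 𝔮 (z j)) '' s)) (I := q'.map (Ideal.Quotient.mk 𝔮)) hb0
      (Ideal.mem_map_of_mem _ hb) (hs2 _)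
    apply h1
    rw [eq_bot_iff]
    rintro ⟨y, hy⟩ hy'
    rw [Ideal.mem_comap] at hy'
    change y ∈ _ at hy'
    -- lift `y`
    have h2 : y ∈ Subalgebra.map (Ideal.Quotient.mkₐ ℂ 𝔮) C1 := by
      have h3 : Algebra.adjoin ℂ ((fun j => Ideal.Quotient.mk 𝔮 (z j)) '' s) ≤
          Subalgebra.map (Ideal.Quotient.mkₐ ℂ 𝔮) C1 := by
        rw [Algebra.adjoin_le_iff]
        rintro _ ⟨j, hj, rfl⟩
        exact ⟨z j, Algebra.subset_adjoin (Or.inr ⟨j, hj, rfl⟩), rfl⟩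
      exact h3 hy
    obtain ⟨c, hc, rfl⟩ := h2
    have h4 : c ∈ q' := by
      have h5 : c ∈ (q'.map (Ideal.Quotient.mk 𝔮)).comap (Ideal.Quotient.mk 𝔮) := hy'
      rw [Ideal.comap_map_of_surjective _ Ideal.Quotient.mk_surjective] at h5
      have h6 : q' ⊔ Ideal.comap (Ideal.Quotient.mk 𝔮) ⊥ ≤ q' := by
        rw [sup_le_iff]
        refine ⟨le_rfl, ?_⟩
        rw [← RingHom.ker_eq_comap_bot, Ideal.mk_ker]
        exact hle
      exact h6 h5
    have h5 : (⟨c, hc⟩ : C1) ∈ q'.comap (algebraMap C1 B) := h4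
    rw [heq] at h5
    have h6 : c ∈ 𝔮 := h5
    rw [Ideal.mem_bot]
    apply Subtype.ext
    exact Ideal.Quotient.eq_zero_iff_mem.2 h6
  have hopen : IsOpen (X := ↥(PrimeSpectrum.comap (algebraMap C1 B) ⁻¹'
      {PrimeSpectrum.comap (algebraMap C1 B) q})) {⟨q, rfl⟩} := by
    have hfin := Ideal.finite_minimalPrimes_of_isNoetherianRing B I
    let M : Finset (Ideal B) := hfin.toFinset.erase 𝔮
    let I' : Ideal B := ∏ p ∈ M, p
    rw [isOpen_induced_iff]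
    refine ⟨(PrimeSpectrum.zeroLocus (I' : Set B))ᶜ, (PrimeSpectrum.isClosed_zeroLocus _).isOpen_compl,
      ?_⟩
    ext ⟨q', hq'⟩
    rw [Set.mem_preimage, Set.mem_compl_iff, PrimeSpectrum.mem_zeroLocus, Set.mem_singleton_iff]
    constructor
    · intro h
      have h1 : q'.asIdeal.comap (algebraMap C1 B) = 𝔮.comap (algebraMap C1 B) :=
        congrArg PrimeSpectrum.asIdeal hq'
      have h2 : I ≤ q'.asIdeal := by
        rw [Ideal.span_le]
        rintro c ⟨hc, hc'⟩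
        have h3 : (⟨c, hCC1 c hc⟩ : C1) ∈ 𝔮.comap (algebraMap C1 B) := hC𝔮 c hc hc'
        rw [← h1] at h3
        exact h3
      obtain ⟨p, hp, hpq⟩ := Ideal.exists_minimalPrimes_le h2
      by_cases hp𝔮 : p = 𝔮
      · apply Subtype.ext
        apply PrimeSpectrum.ext
        exact hinc _ q'.2 (hp𝔮 ▸ hpq) h1
      · exfalso
        apply h
        have h3 : p ∈ M := Finset.mem_erase.2 ⟨hp𝔮, hfin.mem_toFinset.2 hp⟩
        have h4 : I' ≤ p := Ideal.le_of_dvd (Finset.dvd_prod_of_mem _ h3)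
        exact h4.trans hpq
    · intro he h
      have he' : q' = q := congrArg Subtype.val he
      have h : I' ≤ q'.asIdeal := h
      rw [he'] at h
      obtain ⟨p, hp, hp'⟩ := (h𝔮.prod_le (s := M) (f := fun p => p)).1 h
      obtain ⟨h3, h4⟩ := Finset.mem_erase.1 hp
      have h5 := hfin.mem_toFinset.1 h4
      have h6 := h𝔮m.2 h5.1 hp'
      exact h3 (le_antisymm hp' h6)
  have hqf : Algebra.QuasiFiniteAt C1 q.asIdeal :=
    Algebra.QuasiFiniteAt.of_isOpen_singleton_fiber q hopen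
  have hz : Algebra.ZariskisMainProperty C1 q.asIdeal := Algebra.ZariskisMainProperty.of_finiteType _
  rw [Algebra.zariskisMainProperty_iff] at hz
  obtain ⟨r, hr, hri, hrx⟩ := hz
  intro b
  obtain ⟨m, hm⟩ := hrx b
  have hr0 : r ≠ 0 := by
    rintro rfl
    exact hr (Ideal.zero_mem _)
  have h1 : IsAlgebraic C1 (r ^ m * b) := hm.isAlgebraic
  exact IsAlgebraic.of_mul (mem_nonZeroDivisors_of_ne_zero (pow_ne_zero m hr0))
    (hri.pow m).isAlgebraic h1

end Pool.Agent.Helper56.LC
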