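import Pool.Agent.Helper56.LC.Res

/-!
# The data of a prime divisor over a closed point of a complete intersection
-/

set_option autoImplicit false
set_option linter.unusedSectionVars false
set_option linter.unusedVariables false

namespace Pool.Agent.Helper56.LC

open Pool.Agent.H436R3.Fol Pool.Agent.H436R3.KT Pool.Agent.W497.Mld MvPolynomial
open Pool.Agent.TH165.ACC (pr ex Prim Cn Hs lead part pr_add pr_zero pr_neg pr_sub pr_smul
  pr_smul_right ex_add ex_inj exists_nat_ex mvI mem_mvI ord_eq_zero_of_notMem lead_eq euler_part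
  support_euler coeff_part)
open Pool.Agent.Helper43K9.NH (ch AA wt Inn expo phi dot ch_ne ch_add ch_sub ch_zero ch_ex
  aeval_eq_sum aeval_mon ord_ch ch_mem_AA Phi' reg_mul_zpow' Phi'_monomial der_aeval aeval_euler
  phi_expo expo_nonempty phi_spec mem_expo)
open Pool.Agent.Helper43K9.CI
open Pool.Agent.Helper43K9.LS (Kp red Red Good red_eq_zero)

variable {r d : ℕ} {L : Type} [Field L] [Algebra ℂ L]

attribute [local instance] algK

theorem F_zero (g : CIGerm r d L) (j : Fin r) : aeval g.y (g.F j) = 0 := by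
  rw [g.ker]
  refine ⟨0, ?_⟩
  have h1 : monomial (0 : Fin (d + r) →₀ ℕ) (1 : ℂ) = 1 := rfl
  rw [h1, one_mul]
  exact Ideal.subset_span ⟨j, rfl⟩

theorem diag_indep {κ : Type} [Field κ] {n : ℕ} (T : Finset (Fin n)) (u : Fin n → Fin n → κ)
    (h1 : ∀ l ∉ T, u l l ≠ 0) (h2 : ∀ l ∉ T, ∀ l' ∉ T, l' ≠ l → u l l' = 0) :
    ∃ B : Finset (Fin n → κ), B.card + T.card = n ∧ (∀ b ∈ B, ∃ l, l ∉ T ∧ b = u l) ∧
      LinearIndepOn κ id (B : Set (Fin n → κ)) := by
  classical
  obtain ⟨Tc, hTc⟩ : ∃ Tc : Finset (Fin n), ∀ l, l ∈ Tc ↔ l ∉ T :=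
    ⟨Tᶜ, fun l => Finset.mem_compl⟩
  have hTcc : Tc.card + T.card = n := by
    have h2 : Tc = Tᶜ := by
      ext l
      rw [hTc, Finset.mem_compl]
    rw [h2, Finset.card_compl, Fintype.card_fin]
    have := Finset.card_le_univ T
    rw [Fintype.card_fin] at this
    omega
  have hBi : LinearIndependent κ (fun l : Tc => u l) := by
    rw [Fintype.linearIndependent_iff]
    intro c hc l
    have h3 := congrFun hc l
    rw [Finset.sum_apply, Finset.sum_eq_single l] at h3
    · simp only [Pi.smul_apply, smul_eq_mul, Pi.zero_apply] at h3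
      exact (mul_eq_zero.1 h3).resolve_right (h1 l ((hTc _).1 l.2))
    · intro l' _ hne
      rw [Pi.smul_apply, h2 l' ((hTc _).1 l'.2) l ((hTc _).1 l.2)
        (fun h => hne (Subtype.ext h.symm)), smul_zero]
    · intro h; exact absurd (Finset.mem_univ _) h
  refine ⟨Finset.univ.image fun l : Tc => u l, ?_, ?_, ?_⟩
  · rw [Finset.card_image_of_injective _ hBi.injective, Finset.card_univ, Fintype.card_coe]
    exact hTcc
  · intro b hb
    obtain ⟨l, -, rfl⟩ := Finset.mem_image.1 hb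
    exact ⟨l, (hTc _).1 l.2, rfl⟩
  · have h3 := hBi.linearIndepOn_id
    rw [Finset.coe_image, Finset.coe_univ, Set.image_univ]
    exact h3

theorem pair_data (g : CIGerm r d L) {x : Pt g.X} {v : DVal L} (hv : IsOverGerm x v) :
    ∃ (κ : Type) (_ : Field κ) (_ : Algebra ℂ κ) (η : Fin (d + r) → κ)
      (T : Finset (Fin (d + r))), (∀ i, η i ≠ 0) ∧
      (∀ m ∈ Cn g.E, 0 ≤ pr m (wt g.y v)) ∧
      (∀ m ∈ Cn g.E, pr m (wt g.y v) = 0 → ∃ c : ℂ, ch η m = algebraMap ℂ κ c) ∧
      (∀ j, aeval η (lead (wt g.y v) (g.F j)) = 0) ∧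
      (∀ (S : Finset (Fin (d + r) → ℤ)) (a : (Fin (d + r) → ℤ) → ℂ), (∀ m ∈ S, m ∈ Cn g.E) →
        ∑ m ∈ S, algebraMap ℂ κ (a m) * ch η m = 0 → ∃ S' ⊆ S, (0 ∈ S → 0 ∈ S') ∧
          ∀ h : g.X.R, (h : L) = ∑ m ∈ S', algebraMap ℂ L (a m) * ch g.y m → x h = 0) ∧
      AlgebraicIndependent ℂ (fun l : T => η l) ∧
      ((LinearIndependent κ fun j => lg η (lead (wt g.y v) (g.F j))) → ∀ c : ℤ,
        IsCanOrd g.X.T v c →
        ((d + r : ℕ) : ℤ) - T.card - r - 1 - ∑ j, phi (g.S j) (wt g.y v) ≤ c) := by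
  classical
  obtain ⟨π, hπ, h1⟩ := v.surj
  let ξ : Fin (d + r) → Kp v := xi g.yne hπ h1
  have hξ : ∀ i, ξ i ≠ 0 := xi_ne g.yne hπ h1
  obtain ⟨w, hwdef⟩ : ∃ w, w = wt g.y v := ⟨_, rfl⟩
  have hmem : ∀ m ∈ Cn g.E, ch g.y m ∈ g.X.R := by
    intro m hm
    rw [g.hR]
    exact ch_mem_AA hm
  have hreg : ∀ f : g.X.R, v.Reg (f : L) := by
    obtain ⟨⟨S, -, h1, h2⟩, -⟩ := hv
    exact fun f => h2.1 _ (h1 f.2)
  have hw : ∀ m ∈ Cn g.E, 0 ≤ pr m (wt g.y v) := by
    intro m hm
    rw [← ord_ch g.yne]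
    exact v.ord_nonneg (ch_ne g.yne _) (hreg ⟨_, hmem m hm⟩)
  -- the constants
  have hcon : ∀ m (hm : m ∈ Cn g.E), pr m (wt g.y v) = 0 →
      ch ξ m = algebraMap ℂ (Kp v) (x ⟨ch g.y m, hmem m hm⟩) := by
    intro m hm h0
    obtain ⟨h2, h3⟩ := red_ch g.yne hπ h1 h0
    rw [algK_apply v _ (v.reg_const _)]
    change ch (xi g.yne hπ h1) m = _
    rw [← h3, ← sub_eq_zero, ← map_sub, red_eq_zero]
    have h4 : x (⟨ch g.y m, hmem m hm⟩ - algebraMap ℂ g.X.R (x ⟨ch g.y m, hmem m hm⟩)) = 0 := by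
      rw [map_sub, AlgHom.commutes]
      exact sub_self _
    exact (hv.2 _).2 h4
  -- the equations
  have hlp : ∀ j, lead (wt g.y v) (g.F j) =
      part (wt g.y v) (phi (g.S j) (wt g.y v)) (g.F j) := fun j =>
    lead_eq (phi_expo (g.Fne j) _).1 (phi_expo (g.Fne j) _).2
  have hlz : ∀ j, aeval ξ (lead (wt g.y v) (g.F j)) = 0 := by
    intro j
    obtain ⟨h2, h3⟩ := red_val g.yne hπ h1 (q := g.F j) (m := phi (g.S j) (wt g.y v))
      (phi_expo (g.Fne j) _).2
    rw [hlp]
    change aeval (xi g.yne hπ h1) _ = _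
    rw [← h3, red_eq_zero]
    left
    change aeval g.y (g.F j) * _ = 0
    rw [F_zero, zero_mul]
  have hlhom : ∀ j, ∀ s ∈ (lead (wt g.y v) (g.F j)).support,
      pr (ex s) (wt g.y v) = phi (g.S j) (wt g.y v) := by
    intro j s hs
    rw [hlp] at hs
    exact (support_part _ _ _ hs).2
  obtain ⟨T, hT, hrel⟩ := exists_rel_hom hξ (wt g.y v)
  refine ⟨KX (Kp v), inferInstance, inferInstance, et ξ (wt g.y v), T, et_ne hξ _, hw, ?_, ?_, ?_,
    hT, ?_⟩
  · intro m hm h0
    refine ⟨x ⟨ch g.y m, hmem m hm⟩, ?_⟩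
    rw [ch_et, h0, zpow_zero, mul_one, hcon m hm h0, cX_alg]
  · intro j
    rw [aeval_et_hom ξ (hlhom j), hlz, map_zero, zero_mul]
  · intro S a hS hsum
    refine ⟨S.filter fun m => pr m (wt g.y v) = 0, Finset.filter_subset _ _, fun h0 =>
      Finset.mem_filter.2 ⟨h0, pr_zero _⟩, fun h hh => ?_⟩
    have h2 : ∑ k ∈ S.image fun m => pr m (wt g.y v),
        cX (∑ m ∈ S with pr m (wt g.y v) = k, algebraMap ℂ (Kp v) (a m) * ch ξ m) * tX ^ k =
          0 := by
      rw [← hsum, ← Finset.sum_fiberwise_of_maps_to (t := S.image fun m => pr m (wt g.y v))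
        (g := fun m => pr m (wt g.y v)) fun s hs => Finset.mem_image_of_mem _ hs]
      refine Finset.sum_congr rfl fun k _ => ?_
      rw [map_sum, Finset.sum_mul]
      refine Finset.sum_congr rfl fun m hm => ?_
      rw [ch_et, (Finset.mem_filter.1 hm).2, ← cX_alg, map_mul, mul_assoc]
    have h3 : ∑ m ∈ S with pr m (wt g.y v) = 0, algebraMap ℂ (Kp v) (a m) * ch ξ m = 0 := by
      by_cases h4 : (0 : ℤ) ∈ S.image fun m => pr m (wt g.y v)
      · exact laurent_zero _ _ h2 0 h4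
      · refine Finset.sum_eq_zero fun m hm => ?_
        obtain ⟨h5, h6⟩ := Finset.mem_filter.1 hm
        exact absurd (Finset.mem_image.2 ⟨m, h5, h6⟩) h4
    let f : (Fin (d + r) → ℤ) → g.X.R := fun m =>
      if hm : m ∈ Cn g.E then ⟨ch g.y m, hmem m hm⟩ else 0
    have hf : ∀ m (hm : m ∈ Cn g.E), f m = ⟨ch g.y m, hmem m hm⟩ := by
      intro m hm
      simp only [f]
      rw [dif_pos hm]
    have h4 : h = ∑ m ∈ S with pr m (wt g.y v) = 0, algebraMap ℂ g.X.R (a m) * f m := by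
      apply Subtype.ext
      rw [hh]
      push_cast
      refine Finset.sum_congr rfl fun m hm => ?_
      rw [hf m (hS m (Finset.mem_filter.1 hm).1)]
    apply (algebraMap ℂ (Kp v)).injective
    rw [map_zero, ← h3, h4, map_sum, map_sum]
    refine Finset.sum_congr rfl fun m hm => ?_
    obtain ⟨h5, h6⟩ := Finset.mem_filter.1 hm
    rw [map_mul, map_mul, AlgHom.commutes, hf m (hS m h5), hcon m (hS m h5) h6]
    rfl
  · intro hli c hc
    obtain ⟨A, hA0, hA, rfl⟩ := hc.1
    -- the gradients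
    have hlg : ∀ j l, lg (et ξ (wt g.y v)) (lead (wt g.y v) (g.F j)) l =
        cX (lg ξ (lead (wt g.y v) (g.F j)) l) * tX ^ (phi (g.S j) (wt g.y v)) := by
      intro j l
      rw [lg, lg]
      exact aeval_et_hom ξ fun s hs => hlhom j s (support_euler _ _ hs)
    have hθi : LinearIndependent (Kp v) fun j => lg ξ (lead (wt g.y v) (g.F j)) := by
      rw [Fintype.linearIndependent_iff]
      intro c hc j
      have h2 := Fintype.linearIndependent_iff.1 hli
        (fun j => cX (c j) * tX ^ (-phi (g.S j) (wt g.y v))) (by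
          funext l
          have h3 := congrFun hc l
          rw [Finset.sum_apply] at h3 ⊢
          simp only [Pi.smul_apply, smul_eq_mul, Pi.zero_apply] at h3 ⊢
          rw [← map_zero cX, ← h3, map_sum]
          refine Finset.sum_congr rfl fun j _ => ?_
          rw [hlg, map_mul, zpow_neg]
          have h4 := zpow_ne_zero (phi (g.S j) (wt g.y v)) (tX_ne (κ := Kp v))
          field_simp) j
      rcases mul_eq_zero.1 h2 with h3 | h3
      · rwa [map_eq_zero_iff _ (RingHom.injective _)] at h3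
      · exact absurd h3 (zpow_ne_zero _ tX_ne)
    -- the good vectors
    choose! q a hqa hq0 hql hql' using hrel
    obtain ⟨B, hBc, hBq, hBi⟩ := diag_indep T (fun l => lg ξ (q l)) hql hql'
    have h2 := low_ind (g := g) (v := v) (φ := fun j => phi (g.S j) (wt g.y v))
      (t := fun j => π ^ (phi (g.S j) (wt g.y v))) (fun j => zpow_ne_zero _ hπ)
      (fun j => by rw [v.ord_zpow hπ, h1, mul_one])
      (θ := fun j => lg ξ (lead (wt g.y v) (g.F j))) (fun j => by
        have h3 : ∀ l, ∃ h : v.Reg (aeval g.y (X l * pderiv l (g.F j)) /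
            π ^ (phi (g.S j) (wt g.y v))),
            red v ⟨_, h⟩ = lg ξ (lead (wt g.y v) (g.F j)) l := by
          intro l
          obtain ⟨h4, h5⟩ := red_val g.yne hπ h1 (q := X l * pderiv l (g.F j))
            (m := phi (g.S j) (wt g.y v)) fun s hs =>
              (phi_expo (g.Fne j) _).2 s (support_euler _ _ hs)
          have h6 : aeval g.y (X l * pderiv l (g.F j)) / π ^ (phi (g.S j) (wt g.y v)) =
              aeval g.y (X l * pderiv l (g.F j)) * π ^ (-phi (g.S j) (wt g.y v)) := by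
            rw [zpow_neg, div_eq_mul_inv]
          simp only [h6]
          refine ⟨h4, h5.trans ?_⟩
          rw [← euler_part, ← hlp]
          rfl
        choose h4 h5 using h3
        exact ⟨h4, h5⟩) hθi (B := B) (by
        intro u hu
        obtain ⟨l, hl, rfl⟩ := hBq u hu
        exact good_of_hom g.yne hπ h1 (hqa l hl) (hq0 l hl)) hBi A hA0 hA
    have h3 : (B.card : ℤ) = ((d + r : ℕ) : ℤ) - T.card := by omega
    rw [h3] at h2
    exact h2

end Pool.Agent.Helper56.LC
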