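import Pool.Agent.Helper56.LC.Count

/-!
# Relations of the coordinates of a point with Laurent monomial weights
-/

set_option autoImplicit false
set_option linter.unusedSectionVars false
set_option linter.unusedVariables false

namespace Pool.Agent.Helper56.LC

open Pool.Agent.TH165.ACC (pr ex Cn lead part pr_add pr_zero pr_neg pr_sub pr_smul pr_smul_right
  coeff_part ex_add lead_eq support_euler euler_part coeff_euler)
open Pool.Agent.Helper43K9.NH MvPolynomial

variable {n : ℕ}

/-- A maximal algebraically independent set of coordinates, with relations. -/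
theorem exists_rel {K : Type} [Field K] [Algebra ℂ K] (η : Fin n → K) :
    ∃ T : Finset (Fin n), AlgebraicIndependent ℂ (fun l : T => η l) ∧
      ∀ l ∉ T, ∃ q : MvPolynomial (Fin n) ℂ, aeval η q = 0 ∧ aeval η (pderiv l q) ≠ 0 ∧
        ∀ s ∈ q.support, ∀ l' ∉ T, l' ≠ l → s l' = 0 := by
  classical
  obtain ⟨T, hT, hmax⟩ : ∃ T : Finset (Fin n), AlgebraicIndependent ℂ (fun l : T => η l) ∧
      ∀ T' : Finset (Fin n), T ⊂ T' → ¬ AlgebraicIndependent ℂ (fun l : T' => η l) := by
    obtain ⟨T, hT⟩ := (Set.toFinite {T : Finset (Fin n) |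
      AlgebraicIndependent ℂ (fun l : T => η l)}).exists_maximal
      ⟨∅, algebraicIndependent_empty_type_iff.2 (algebraMap ℂ K).injective⟩
    exact ⟨T, hT.1, fun T' h1 h2 => h1.2 (hT.2 h2 h1.1)⟩
  refine ⟨T, hT, fun l hl => ?_⟩
  have h1 := hmax (insert l T) (Finset.ssubset_insert hl)
  rw [algebraicIndependent_iff] at h1
  push Not at h1
  obtain ⟨p, hp, hp0⟩ := h1
  -- no polynomial in `T`
  have hT0 : ∀ q : MvPolynomial (Fin n) ℂ, aeval η q = 0 →
      (∀ s ∈ q.support, ∀ l' ∉ T, s l' = 0) → q = 0 := by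
    intro q hq hs
    obtain ⟨q', rfl⟩ := exists_rename_eq_of_vars_subset_range q (Subtype.val : T → Fin n)
      Subtype.val_injective (by
      intro l' hl'
      rw [Finset.mem_coe, mem_vars_iff_mem_support] at hl'
      obtain ⟨s, hs1, hs2⟩ := hl'
      by_contra h
      have h' : l' ∉ T := fun h' => h ⟨⟨l', h'⟩, rfl⟩
      exact (Finsupp.mem_support_iff.1 hs2) (hs s hs1 l' h'))
    rw [aeval_rename] at hq
    rw [algebraicIndependent_iff.1 hT q' hq, map_zero]
  have key : ∀ (k : ℕ) (q : MvPolynomial (Fin n) ℂ), q ≠ 0 → aeval η q = 0 →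
      (∀ s ∈ q.support, ∀ l' ∉ T, l' ≠ l → s l' = 0) → (∀ s ∈ q.support, s l ≤ k) →
      ∃ q : MvPolynomial (Fin n) ℂ, aeval η q = 0 ∧ aeval η (pderiv l q) ≠ 0 ∧
        ∀ s ∈ q.support, ∀ l' ∉ T, l' ≠ l → s l' = 0 := by
    intro k
    induction k with
    | zero =>
      intro q hq0 hq hs hk
      exfalso
      apply hq0
      refine hT0 q hq fun s hs' l' hl' => ?_
      by_cases h : l' = l
      · subst h
        exact Nat.le_zero.1 (hk s hs')
      · exact hs s hs' l' hl' h
    | succ k ih =>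
      intro q hq0 hq hs hk
      by_cases h : aeval η (pderiv l q) = 0
      swap
      · exact ⟨q, hq, h, hs⟩
      have hsup : ∀ t ∈ (pderiv l q).support, t + Finsupp.single l 1 ∈ q.support := by
        intro t ht
        rw [mem_support_iff, coeff_pderiv] at ht
        exact mem_support_iff.2 (left_ne_zero_of_mul ht)
      by_cases h0 : pderiv l q = 0
      · exfalso
        apply hq0
        refine hT0 q hq fun s hs' l' hl' => ?_
        by_cases h : l' = l
        · subst h
          by_contra hne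
          have h2 := congrArg (coeff (s - Finsupp.single l' 1)) h0
          rw [coeff_pderiv, coeff_zero] at h2
          have h3 : s - Finsupp.single l' 1 + Finsupp.single l' 1 = s :=
            tsub_add_cancel_of_le (Finsupp.single_le_iff.2 (Nat.one_le_iff_ne_zero.2 hne))
          rw [h3] at h2
          rcases mul_eq_zero.1 h2 with h4 | h4
          · exact mem_support_iff.1 hs' h4
          · exact (Nat.cast_add_one_ne_zero _) h4
        · exact hs s hs' l' hl' h
      · refine ih (pderiv l q) h0 h (fun t ht l' hl' hne => ?_) fun t ht => ?_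
        · have h5 := hs _ (hsup t ht) l' hl' hne
          rw [Finsupp.add_apply] at h5
          omega
        · have h5 := hk _ (hsup t ht)
          rw [Finsupp.add_apply, Finsupp.single_eq_same] at h5
          omega
  refine key ((rename Subtype.val p).support.sup fun s => s l) (rename Subtype.val p) ?_ ?_ ?_ ?_
  · intro h
    exact hp0 (rename_injective _ Subtype.val_injective (by rw [h, map_zero]))
  · rw [aeval_rename]
    exact hp
  · intro s hs l' hl' hne
    rw [support_rename_of_injective Subtype.val_injective] at hs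
    obtain ⟨s', -, rfl⟩ := Finset.mem_image.1 hs
    apply Finsupp.mapDomain_of_notMem_range
    rintro ⟨⟨x, hx⟩, rfl⟩
    rcases Finset.mem_insert.1 hx with h | h
    · exact hne h
    · exact hl' h
  · intro s hs
    exact Finset.le_sup (f := fun s : Fin n →₀ ℕ => s l) hs

section laurent

variable {κ : Type} [Field κ]

/-- the field of rational functions -/
abbrev KX (κ : Type) [Field κ] : Type := FractionRing (Polynomial κ)

noncomputable def cX : κ →+* KX κ := (algebraMap (Polynomial κ) (KX κ)).comp Polynomial.C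

noncomputable def tX : KX κ := algebraMap (Polynomial κ) (KX κ) Polynomial.X

theorem tX_ne : (tX : KX κ) ≠ 0 := by
  rw [tX, Ne, map_eq_zero_iff _ (IsFractionRing.injective _ _)]
  exact Polynomial.X_ne_zero

theorem laurent_zero (S : Finset ℤ) (c : ℤ → κ) (h : ∑ a ∈ S, cX (c a) * tX ^ a = 0) :
    ∀ a ∈ S, c a = 0 := by
  classical
  obtain ⟨N, hN⟩ : ∃ N : ℕ, ∀ a ∈ S, 0 ≤ a + N := by
    refine ⟨S.sup Int.natAbs, fun a ha => ?_⟩
    have h1 := Finset.le_sup (f := Int.natAbs) ha
    omega
  have h1 : algebraMap (Polynomial κ) (KX κ)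
      (∑ a ∈ S, Polynomial.C (c a) * Polynomial.X ^ (a + N).toNat) = 0 := by
    have h2 : (∑ a ∈ S, cX (c a) * tX ^ a) * tX ^ N = 0 := by rw [h, zero_mul]
    rw [Finset.sum_mul] at h2
    rw [map_sum, ← h2]
    refine Finset.sum_congr rfl fun a ha => ?_
    rw [map_mul, map_pow, mul_assoc]
    congr 1
    rw [← zpow_natCast tX N, ← zpow_add₀ tX_ne]
    change tX ^ (a + N).toNat = _
    rw [← zpow_natCast tX (a + N).toNat, Int.toNat_of_nonneg (hN a ha)]
  rw [map_eq_zero_iff _ (IsFractionRing.injective _ _)] at h1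
  intro a ha
  have h2 := congrArg (fun p => Polynomial.coeff p (a + N).toNat) h1
  simp only [Polynomial.finsetSum_coeff, Polynomial.coeff_C_mul_X_pow, Polynomial.coeff_zero] at h2
  rw [Finset.sum_eq_single a] at h2
  · rw [if_pos rfl] at h2
    exact h2
  · intro b hb hba
    rw [if_neg]
    intro h3
    have := hN a ha
    have := hN b hb
    omega
  · intro h; exact absurd ha h

/-- the point `ξ t^w` -/
noncomputable def et (ξ : Fin n → κ) (w : Fin n → ℤ) : Fin n → KX κ :=
  fun l => cX (ξ l) * tX ^ (w l)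

theorem et_ne {ξ : Fin n → κ} (hξ : ∀ i, ξ i ≠ 0) (w : Fin n → ℤ) (i : Fin n) : et ξ w i ≠ 0 :=
  mul_ne_zero (by rw [Ne, map_eq_zero_iff _ (RingHom.injective _)]; exact hξ i)
    (zpow_ne_zero _ tX_ne)

theorem ch_et (ξ : Fin n → κ) (w m : Fin n → ℤ) :
    ch (et ξ w) m = cX (ch ξ m) * tX ^ (pr m w) := by
  have key : ∀ s : Finset (Fin n), ∏ i ∈ s, et ξ w i ^ m i =
      cX (∏ i ∈ s, ξ i ^ m i) * tX ^ (∑ i ∈ s, m i * w i) := by
    classical
    intro s
    induction s using Finset.induction_on with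
    | empty => simp
    | insert a s ha ih =>
      rw [Finset.prod_insert ha, Finset.prod_insert ha, Finset.sum_insert ha, ih,
        zpow_add₀ tX_ne, map_mul, et, mul_zpow, map_zpow₀, ← zpow_mul, mul_comm (w a)]
      ring
  exact key Finset.univ

variable [Algebra ℂ κ]

theorem cX_alg (c : ℂ) : cX (algebraMap ℂ κ c) = algebraMap ℂ (KX κ) c := rfl

theorem part_sum (ξ : Fin n → κ) (w : Fin n → ℤ) (a : ℤ) (p : MvPolynomial (Fin n) ℂ) :
    aeval ξ (part w a p) = ∑ s ∈ p.support with pr (ex s) w = a,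
      algebraMap ℂ κ (p.coeff s) * ch ξ (ex s) := by
  rw [part, map_sum]
  exact Finset.sum_congr rfl fun s _ => aeval_mon s _

theorem aeval_et (ξ : Fin n → κ) (w : Fin n → ℤ) (p : MvPolynomial (Fin n) ℂ) :
    aeval (et ξ w) p = ∑ a ∈ p.support.image fun s => pr (ex s) w,
      cX (aeval ξ (part w a p)) * tX ^ a := by
  classical
  rw [aeval_eq_sum, ← Finset.sum_fiberwise_of_maps_to (t := p.support.image fun s => pr (ex s) w)
    (g := fun s => pr (ex s) w) fun s hs => Finset.mem_image_of_mem _ hs]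
  refine Finset.sum_congr rfl fun a _ => ?_
  rw [part_sum, map_sum, Finset.sum_mul]
  refine Finset.sum_congr rfl fun s hs => ?_
  rw [ch_et, (Finset.mem_filter.1 hs).2, ← cX_alg, map_mul, mul_assoc]

theorem support_part (w : Fin n → ℤ) (a : ℤ) (p : MvPolynomial (Fin n) ℂ) {s : Fin n →₀ ℕ}
    (hs : s ∈ (part w a p).support) : s ∈ p.support ∧ pr (ex s) w = a := by
  rw [mem_support_iff, coeff_part] at hs
  split_ifs at hs with h
  · exact ⟨mem_support_iff.2 hs, h⟩
  · exact absurd rfl hs

/-- for a homogeneous polynomial -/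
theorem aeval_et_hom (ξ : Fin n → κ) {w : Fin n → ℤ} {a : ℤ} {p : MvPolynomial (Fin n) ℂ}
    (h : ∀ s ∈ p.support, pr (ex s) w = a) :
    aeval (et ξ w) p = cX (aeval ξ p) * tX ^ a := by
  rw [aeval_eq_sum, aeval_eq_sum, map_sum, Finset.sum_mul]
  refine Finset.sum_congr rfl fun s hs => ?_
  rw [ch_et, h s hs, ← cX_alg, map_mul, mul_assoc]

theorem part_zero_of {ξ : Fin n → κ} {w : Fin n → ℤ} {p : MvPolynomial (Fin n) ℂ}
    (h : aeval (et ξ w) p = 0) (a : ℤ) : aeval ξ (part w a p) = 0 := by
  classical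
  rw [aeval_et] at h
  by_cases ha : a ∈ p.support.image fun s => pr (ex s) w
  · exact laurent_zero _ _ h a ha
  · rw [part_sum]
    refine Finset.sum_eq_zero fun s hs => ?_
    obtain ⟨h1, h2⟩ := Finset.mem_filter.1 hs
    exact absurd (Finset.mem_image.2 ⟨s, h1, h2⟩) ha

/-- **Homogeneous relations.** -/
theorem exists_rel_hom {ξ : Fin n → κ} (hξ : ∀ i, ξ i ≠ 0) (w : Fin n → ℤ) :
    ∃ T : Finset (Fin n), AlgebraicIndependent ℂ (fun l : T => et ξ w l) ∧
      ∀ l ∉ T, ∃ (q : MvPolynomial (Fin n) ℂ) (a : ℤ), (∀ s ∈ q.support, pr (ex s) w = a) ∧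
        aeval ξ q = 0 ∧ lg ξ q l ≠ 0 ∧ ∀ l' ∉ T, l' ≠ l → lg ξ q l' = 0 := by
  classical
  obtain ⟨T, hT, h⟩ := exists_rel (et ξ w)
  refine ⟨T, hT, fun l hl => ?_⟩
  obtain ⟨q, hq, hq', hs⟩ := h l hl
  have hl0 : et ξ w l ≠ 0 := et_ne hξ w l
  have h1 : aeval (et ξ w) (X l * pderiv l q) ≠ 0 := by
    rw [map_mul, aeval_X]
    exact mul_ne_zero hl0 hq'
  obtain ⟨a, ha⟩ : ∃ a, aeval ξ (part w a (X l * pderiv l q)) ≠ 0 := by
    by_contra hcon
    push Not at hcon
    apply h1
    rw [aeval_et]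
    exact Finset.sum_eq_zero fun a _ => by rw [hcon, map_zero, zero_mul]
  refine ⟨part w a q, a, fun s hs' => (support_part w a q hs').2, part_zero_of hq a, ?_, ?_⟩
  · rw [lg, euler_part]
    exact ha
  · intro l' hl' hne
    rw [lg, aeval_euler]
    refine Finset.sum_eq_zero fun s hs' => ?_
    rw [hs s (support_part w a q hs').1 l' hl' hne, Nat.cast_zero, zero_mul]

end laurent

end Pool.Agent.Helper56.LC
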