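import Pool.Agent.Helper56.LC.Rel
import Pool.Agent.Helper56.LC.Low

/-!
# The residual point of a prime divisor over a complete intersection
-/

set_option autoImplicit false
set_option linter.unusedSectionVars false
set_option linter.unusedVariables false

namespace Pool.Agent.Helper56.LC

open Pool.Agent.H436R3.Fol Pool.Agent.H436R3.KT Pool.Agent.W497.Mld MvPolynomial
open Pool.Agent.TH165.ACC (pr ex Prim Cn Hs lead part pr_add pr_zero pr_neg pr_sub pr_smul
  pr_smul_right ex_add ex_inj exists_nat_ex mvI mem_mvI ord_eq_zero_of_notMem lead_eq euler_part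
  support_euler coeff_part)
open Pool.Agent.Helper43K9.NH (ch AA wt Inn expo phi dot ch_ne ch_add ch_sub ch_zero ch_ex
  aeval_eq_sum aeval_mon ord_ch ch_mem_AA Phi' reg_mul_zpow' Phi'_monomial der_aeval aeval_euler
  phi_expo expo_nonempty phi_spec mem_expo)
open Pool.Agent.Helper43K9.CI
open Pool.Agent.Helper43K9.LS (Kp red Red Good red_eq_zero)

variable {n r d : ℕ} {L : Type} [Field L] [Algebra ℂ L]

/-- the residue field is an algebra over the complex numbers -/
@[reducible] noncomputable def algK (v : DVal L) : Algebra ℂ (Kp v) :=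
  ((red v).comp ((algebraMap ℂ L).codRestrict v.O fun c => v.reg_const c)).toAlgebra

attribute [local instance] algK

theorem algK_apply (v : DVal L) (c : ℂ) (h : v.Reg (algebraMap ℂ L c)) :
    algebraMap ℂ (Kp v) c = red v ⟨algebraMap ℂ L c, h⟩ := rfl

section phi

variable {y : Fin n → L} (hy : ∀ i, y i ≠ 0) {v : DVal L} {π : L} (hπ : π ≠ 0) (h1 : v.ord π = 1)

/-- the residual point -/
noncomputable def xi : Fin n → Kp v := fun l => red v (Phi' hy hπ h1 (X l))

theorem aeval_xi (p : MvPolynomial (Fin n) ℂ) :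
    aeval (xi hy hπ h1) p = red v (Phi' hy hπ h1 p) := by
  have h2 : ((aeval (xi hy hπ h1) : MvPolynomial (Fin n) ℂ →ₐ[ℂ] Kp v) :
      MvPolynomial (Fin n) ℂ →+* Kp v) = (red v).comp (Phi' hy hπ h1) := by
    refine MvPolynomial.ringHom_ext (fun c => ?_) fun l => ?_
    · rw [RingHom.coe_coe, ← MvPolynomial.algebraMap_eq, AlgHom.commutes, RingHom.comp_apply,
        MvPolynomial.algebraMap_eq, Phi', coe_eval₂Hom, eval₂_C]
      rfl
    · rw [RingHom.coe_coe, aeval_X]
      rfl
  exact RingHom.congr_fun h2 p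

theorem xi_ne (l : Fin n) : xi hy hπ h1 l ≠ 0 := by
  intro h
  rw [xi, red_eq_zero] at h
  have h2 : (Phi' hy hπ h1 (X l) : L) = y l * π ^ (-v.ord (y l)) := by
    rw [Phi', coe_eval₂Hom, eval₂_X]
  rw [h2] at h
  rcases h with h | h
  · exact mul_ne_zero (hy l) (zpow_ne_zero _ hπ) h
  · rw [v.map_mul _ _ (hy l) (zpow_ne_zero _ hπ), v.ord_zpow hπ, h1] at h
    omega

/-- the reduction of the value of a polynomial -/
theorem red_val {q : MvPolynomial (Fin n) ℂ} {m : ℤ}
    (h : ∀ s ∈ q.support, m ≤ pr (ex s) (wt y v)) :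
    ∃ h : v.Reg (aeval y q * π ^ (-m)), red v ⟨aeval y q * π ^ (-m), h⟩ =
      aeval (xi hy hπ h1) (part (wt y v) m q) := by
  obtain ⟨h2, h3⟩ := reg_mul_zpow' hy hπ h1 h
  refine ⟨h2, ?_⟩
  rw [aeval_xi, ← sub_eq_zero, ← map_sub, red_eq_zero]
  exact h3

theorem part_self {w : Fin n → ℤ} {q : MvPolynomial (Fin n) ℂ} {m : ℤ}
    (h : ∀ s ∈ q.support, pr (ex s) w = m) : part w m q = q := by
  ext s
  rw [coeff_part]
  split_ifs with h2
  · rfl
  · by_contra h3
    exact h2 (h s (mem_support_iff.2 (Ne.symm h3)))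

/-- the reduction of a monomial of weight zero -/
theorem red_ch {m : Fin n → ℤ} (hm : pr m (wt y v) = 0) :
    ∃ h : v.Reg (ch y m), red v ⟨ch y m, h⟩ = ch (xi hy hπ h1) m := by
  have hreg : v.Reg (ch y m) := Or.inr (by rw [ord_ch hy, hm])
  refine ⟨hreg, ?_⟩
  obtain ⟨s, t, hst⟩ := exists_nat_ex m
  have hξ := xi_ne hy hπ h1
  have h2 : ∀ s : Fin n →₀ ℕ, ch (xi hy hπ h1) (ex s) =
      red v (Phi' hy hπ h1 (monomial s 1)) := fun s => by rw [ch_ex, aeval_xi]
  have h3 : ex s = m + ex t := (eq_sub_iff_add_eq.1 hst).symm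
  have h4 : ch (xi hy hπ h1) m * ch (xi hy hπ h1) (ex t) = ch (xi hy hπ h1) (ex s) := by
    rw [h3, ch_add hξ]
  have h5 : red v ⟨ch y m, hreg⟩ * ch (xi hy hπ h1) (ex t) = ch (xi hy hπ h1) (ex s) := by
    rw [h2, h2, ← map_mul]
    congr 1
    apply Subtype.ext
    change ch y m * (Phi' hy hπ h1 (monomial t 1) : L) = (Phi' hy hπ h1 (monomial s 1) : L)
    rw [Phi'_monomial, Phi'_monomial, ← ch_ex, ← ch_ex, h3, ch_add hy, pr_add, hm, zero_add,
      mul_assoc]
  exact mul_right_cancel₀ (ch_ne hξ (ex t)) (h5.trans h4.symm)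

/-- the vectors from the homogeneous relations -/
theorem good_of_hom {q : MvPolynomial (Fin n) ℂ} {a : ℤ}
    (hq : ∀ s ∈ q.support, pr (ex s) (wt y v) = a) (h0 : aeval (xi hy hπ h1) q = 0) :
    Good y v (lg (xi hy hπ h1) q) := by
  have hπa : π ^ a ≠ 0 := zpow_ne_zero _ hπ
  have hoa : v.ord (π ^ a) = a := by rw [v.ord_zpow hπ, h1, mul_one]
  refine ⟨aeval y q, π ^ a, fun l => aeval y (X l * pderiv l q) * π ^ (-a), hπa, ?_, ?_, ?_⟩
  · obtain ⟨h2, h3⟩ := red_val hy hπ h1 (q := q) (m := a) fun s hs => (hq s hs).ge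
    rw [part_self hq, h0, red_eq_zero] at h3
    by_cases h4 : aeval y q = 0
    · exact Or.inl h4
    · right
      rcases h3 with h3 | h3
      · exact absurd h3 (mul_ne_zero h4 (zpow_ne_zero _ hπ))
      · change 0 < v.ord (aeval y q * π ^ (-a)) at h3
        rw [v.map_mul _ _ h4 (zpow_ne_zero _ hπ), v.ord_zpow hπ, h1] at h3
        rw [hoa]
        omega
  · intro D
    rw [der_aeval hy, Finset.mul_sum]
    refine Finset.sum_congr rfl fun l _ => ?_
    rw [zpow_neg]
    field_simp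
  · have h2 : ∀ l, ∃ h : v.Reg (aeval y (X l * pderiv l q) * π ^ (-a)),
        red v ⟨aeval y (X l * pderiv l q) * π ^ (-a), h⟩ = lg (xi hy hπ h1) q l := by
      intro l
      have hs : ∀ s ∈ (X l * pderiv l q).support, pr (ex s) (wt y v) = a := fun s hs =>
        hq s (support_euler l q hs)
      obtain ⟨h3, h4⟩ := red_val hy hπ h1 (q := X l * pderiv l q) (m := a) fun s hs' => (hs s hs').ge
      rw [part_self hs] at h4
      exact ⟨h3, h4⟩
    choose h3 h4 using h2
    exact ⟨h3, h4⟩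

end phi

/-- sums of monomials with exponents in the dual cone -/
theorem exists_sum (g : CIGerm r d L) (S : Finset (Fin (d + r) → ℤ)) (hS : ∀ m ∈ S, m ∈ Cn g.E)
    (a : (Fin (d + r) → ℤ) → ℂ) : ∃ h : g.X.R, (h : L) = ∑ m ∈ S, algebraMap ℂ L (a m) * ch g.y m ∧
      (0 ∈ S → g.P h = a 0) := by
  classical
  have hmem : ∀ m ∈ S, ch g.y m ∈ g.X.R := by
    intro m hm
    rw [g.hR]
    exact ch_mem_AA (hS m hm)
  let f : (Fin (d + r) → ℤ) → g.X.R := fun m => if hm : m ∈ S then ⟨ch g.y m, hmem m hm⟩ else 0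
  have hf : ∀ m ∈ S, (f m : L) = ch g.y m := by
    intro m hm
    simp only [f]
    rw [dif_pos hm]
  refine ⟨∑ m ∈ S, algebraMap ℂ g.X.R (a m) * f m, ?_, fun h0 => ?_⟩
  · push_cast
    refine Finset.sum_congr rfl fun m hm => ?_
    rw [hf m hm]
  · rw [map_sum, Finset.sum_eq_single 0]
    · rw [map_mul, AlgHom.commutes]
      have h3 : f 0 = 1 := by
        apply Subtype.ext
        rw [hf 0 h0, ch_zero]
        rfl
      rw [h3, map_one, mul_one]
      rfl
    · intro m hm hne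
      rw [map_mul]
      have h3 : g.P (f m) = 0 := g.hP _ m (hS m hm) hne (hf m hm)
      rw [h3, mul_zero]
    · intro h; exact absurd h0 h

end Pool.Agent.Helper56.LC
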