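import Pool.Agent.Helper56.LC.Val
import Pool.Agent.Helper56.LC.Fd

/-!
# The second valuation
-/

set_option autoImplicit false
set_option linter.unusedSectionVars false
set_option linter.unusedVariables false

namespace Pool.Agent.Helper56.LC

open Pool.Agent.TH165.ACC (pr ex Cn lead part pr_add pr_zero pr_neg pr_sub pr_smul pr_smul_right
  coeff_part ex_add exists_nat_ex)
open Pool.Agent.Helper43K9.NH MvPolynomial Filter

variable {n N : ℕ} {K : Type} [Field K] [Algebra ℂ K] {ηs : Fin n → K}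

theorem ch_sum {η : Fin n → K} (hη : ∀ i, η i ≠ 0) {ι : Type}
    (S : Finset ι) (m : ι → Fin n → ℤ) : ch η (∑ j ∈ S, m j) = ∏ j ∈ S, ch η (m j) := by
  classical
  induction S using Finset.induction_on with
  | empty => rw [Finset.sum_empty, Finset.prod_empty, ch_zero]
  | insert a S ha ih => rw [Finset.sum_insert ha, Finset.prod_insert ha, ch_add hη, ih]

theorem ch_single {K : Type} [Field K] (η : Fin n → K) (l : Fin n) :
    ch η (Pi.single l 1) = η l := by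
  rw [ch, Finset.prod_eq_single l]
  · simp
  · intro b _ hb
    simp [hb]
  · intro h; exact absurd (Finset.mem_univ _) h

theorem ch_chart (hηs : ∀ l, ηs l ≠ 0) {E : Fin N → Fin n → ℤ} {a : Fin n → Fin N} {D : ℤ}
    {Q : Fin n → Fin n → ℤ} (hrep : ∀ m, D • m = ∑ j, pr m (E (a j)) • Q j) (m : Fin n → ℤ) :
    ch ηs (D • m) = ∏ j, ch ηs (Q j) ^ pr m (E (a j)) := by
  rw [hrep, ch_sum hηs]
  exact Finset.prod_congr rfl fun j _ => ch_smul hηs _ _

theorem ch_chart' (hηs : ∀ l, ηs l ≠ 0) {E : Fin N → Fin n → ℤ} {a : Fin n → Fin N} {D : ℤ}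
    {Q : Fin n → Fin n → ℤ} (hrep : ∀ m, D • m = ∑ j, pr m (E (a j)) • Q j) {m : Fin n → ℤ}
    (hm : m ∈ Cn E) :
    ch ηs (D • m) = ∏ j, ch ηs (Q j) ^ (pr m (E (a j))).toNat := by
  rw [ch_chart hηs hrep]
  refine Finset.prod_congr rfl fun j _ => ?_
  rw [← zpow_natCast, Int.toNat_of_nonneg (hm (a j))]

/-- all elements are algebraic over the chart -/
theorem isAlg_chart (hηs : ∀ l, ηs l ≠ 0) {E : Fin N → Fin n → ℤ} {a : Fin n → Fin N} {D : ℤ}
    (hD : 0 < D) {Q : Fin n → Fin n → ℤ} (hrep : ∀ m, D • m = ∑ j, pr m (E (a j)) • Q j)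
    (hK : ∀ x : K, ∃ p q : MvPolynomial (Fin n) ℂ, aeval ηs q ≠ 0 ∧
      x * aeval ηs q = aeval ηs p) {B : Subalgebra ℂ K} (hB : ∀ j, ch ηs (Q j) ∈ B) (x : K) :
    IsAlgebraic B x := by
  let Ac : Subalgebra B K := Subalgebra.algebraicClosure B K
  have hinv : ∀ x ∈ Ac, x⁻¹ ∈ Ac := fun x hx => IsAlgebraic.inv hx
  have hQ : ∀ j, ch ηs (Q j) ∈ Ac := fun j => Ac.algebraMap_mem ⟨_, hB j⟩
  have hzpow : ∀ x ∈ Ac, ∀ k : ℤ, x ^ k ∈ Ac := by
    intro x hx k
    obtain ⟨m, rfl | rfl⟩ := k.eq_nat_or_neg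
    · rw [zpow_natCast]; exact Ac.pow_mem hx m
    · rw [zpow_neg, zpow_natCast]; exact hinv _ (Ac.pow_mem hx m)
  have hη : ∀ l, ηs l ∈ Ac := by
    intro l
    have h1 : ηs l ^ D.toNat ∈ Ac := by
      have h2 : ηs l ^ D.toNat = ch ηs (D • (Pi.single l 1 : Fin n → ℤ)) := by
        rw [ch_smul hηs, ch_single, ← zpow_natCast, Int.toNat_of_nonneg hD.le]
      rw [h2, ch_chart hηs hrep]
      exact Ac.prod_mem fun j _ => hzpow _ (hQ j) _
    exact IsAlgebraic.of_pow (by omega) h1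
  have hp : ∀ p : MvPolynomial (Fin n) ℂ, aeval ηs p ∈ Ac := by
    intro p
    induction p using MvPolynomial.induction_on with
    | C c =>
      rw [aeval_C]
      exact Ac.algebraMap_mem (algebraMap ℂ B c)
    | add p q hp hq => rw [map_add]; exact Ac.add_mem hp hq
    | mul_X p l hp => rw [map_mul, aeval_X]; exact Ac.mul_mem hp (hη l)
  obtain ⟨p, q, hq, h⟩ := hK x
  have h1 : x = aeval ηs p * (aeval ηs q)⁻¹ := by
    rw [← h, mul_assoc, mul_inv_cancel₀ hq, mul_one]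
  rw [h1]
  exact Ac.mul_mem (hp p) (hinv _ (hp q))

theorem exists_second {E : Fin N → Fin n → ℤ}
    (hfull : ∀ m : Fin n → ℤ, (∀ i, pr m (E i) = 0) → m = 0) (hηs : ∀ l, ηs l ≠ 0)
    (hP : ∀ (S : Finset (Fin n → ℤ)) (a : (Fin n → ℤ) → ℂ), (∀ m ∈ S, m ∈ Cn E) → 0 ∈ S →
      a 0 ≠ 0 → ∑ m ∈ S, algebraMap ℂ K (a m) * ch ηs m ≠ 0)
    (hK : ∀ x : K, ∃ p q : MvPolynomial (Fin n) ℂ, aeval ηs q ≠ 0 ∧
      x * aeval ηs q = aeval ηs p) (Γ : Set (Fin n → ℤ)) (hΓ : ∀ m ∈ Γ, m ∈ Cn E)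
    (T : Finset (Fin n)) (hT : ∀ (R : Type) [CommRing R] [Algebra R K],
      Function.Injective (algebraMap R K) →
      (∀ c : R, algebraMap R K c ∈ Algebra.adjoin ℂ {x | ∃ m ∈ Γ, ∃ D : ℤ, x = ch ηs (D • m)}) →
      AlgebraicIndependent R fun l : T => ηs l) :
    ∃ (V : ValuationSubring K) (hV : ∀ c : ℂ, algebraMap ℂ K c ∈ V) (a : Fin n → Fin N) (D : ℤ)
      (Q : Fin n → Fin n → ℤ) (hQV : ∀ j, ch ηs (Q j) ∈ V) (s : Finset (Fin n)),
      Function.Injective a ∧ 0 < D ∧ (∀ i j, pr (Q j) (E (a i)) = if i = j then D else 0) ∧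
      (∀ m, D • m = ∑ j, pr m (E (a j)) • Q j) ∧ (∀ j ∈ s, uO V hηs (Q j) = 0) ∧
      (∀ m ∈ Γ, m ≠ 0 → ∃ j, 0 < uO V hηs (Q j) ∧ 0 < pr m (E (a j))) ∧ T.card ≤ s.card ∧
      letI := algR hV
      AlgebraicIndependent ℂ fun j : s => IsLocalRing.residue V ⟨ch ηs (Q j), hQV j⟩ := by
  classical
  obtain ⟨V0, hV0, hV0m, hV0m'⟩ := exists_first hfull hηs hP
  obtain ⟨a, D, Q, ha, hD, hdual, hQ0, hrep⟩ := exists_chart E hfull (uO V0 hηs) fun m hm =>
    (uO_nonneg hηs m).2 (hV0m m hm)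
  let z : Fin n → K := fun j => ch ηs (Q j)
  let B : Subalgebra ℂ K := Algebra.adjoin ℂ (Set.range z)
  have hzB : ∀ j, z j ∈ B := fun j => Algebra.subset_adjoin ⟨j, rfl⟩
  let zB : Fin n → B := fun j => ⟨z j, hzB j⟩
  have htop : Algebra.adjoin ℂ (Set.range zB) = ⊤ := by
    have h1 := Algebra.adjoin_adjoin_coe_preimage (R := ℂ) (s := Set.range z)
    have h2 : Set.range zB = ((↑) : B → K) ⁻¹' (Set.range z) := by
      ext x
      constructor
      · rintro ⟨j, rfl⟩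
        exact ⟨j, rfl⟩
      · rintro ⟨j, hj⟩
        exact ⟨j, Subtype.ext hj⟩
    rw [h2]
    exact h1
  have hBV0 : ∀ b ∈ B, b ∈ V0 := by
    intro b hb
    induction hb using Algebra.adjoin_induction with
    | mem b hb =>
      obtain ⟨j, rfl⟩ := hb
      exact (uO_nonneg hηs _).1 (hQ0 j)
    | algebraMap r => exact hV0 r
    | add b b' _ _ h h' => exact V0.add_mem _ _ h h'
    | mul b b' _ _ h h' => exact V0.mul_mem _ _ h h'
  let f : B →+* V0 := (algebraMap B K).codRestrict V0 fun b => hBV0 b.1 b.2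
  let 𝔫 : Ideal B := (IsLocalRing.maximalIdeal V0).comap f
  have h𝔫 : 𝔫.IsPrime := Ideal.comap_isPrime f _
  have hmon : ∀ m ∈ Cn E, ch ηs (D • m) ∈ B := by
    intro m hm
    rw [ch_chart' hηs hrep hm]
    exact B.prod_mem fun j _ => B.pow_mem (hzB j) _
  let G : Set B := {b | ∃ m ∈ Γ, (b : K) = ch ηs (D • m)}
  let C : Subalgebra ℂ B := Algebra.adjoin ℂ G
  obtain ⟨𝔮, h𝔮, h𝔮𝔫, hC𝔮, s, hs1, hs2⟩ := fd zB htop C 𝔫
  -- the count
  have hTs : T.card ≤ s.card := by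
    refine card_le_of_alg C zB s hs2 (isAlg_chart hηs hD hrep hK hzB) T (fun l => ηs l) ?_
    refine hT C ?_ fun c => ?_
    · intro c c' h
      exact Subtype.ext (Subtype.ext h)
    · have h1 : ∀ b ∈ C, ((b : B) : K) ∈
          Algebra.adjoin ℂ {x | ∃ m ∈ Γ, ∃ D : ℤ, x = ch ηs (D • m)} := by
        intro b hb
        induction hb using Algebra.adjoin_induction with
        | mem b hb =>
          obtain ⟨m, hm, hb⟩ := hb
          exact Algebra.subset_adjoin ⟨m, hm, D, hb⟩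
        | algebraMap r => exact Subalgebra.algebraMap_mem _ r
        | add b b' _ _ h h' => exact Subalgebra.add_mem _ h h'
        | mul b b' _ _ h h' => exact Subalgebra.mul_mem _ h h'
      exact h1 c.1 c.2
  -- the second valuation
  let 𝔮' : Ideal B.toSubring := 𝔮
  have h𝔮' : 𝔮'.IsPrime := h𝔮
  obtain ⟨V, hV1, hV2⟩ := exists_val B.toSubring 𝔮'
  have hV1' : ∀ b : B, (b : K) ∈ V := hV1
  have hV2' : ∀ b : B, (b : K) ∈ V.nonunits ↔ b ∈ 𝔮 := hV2
  have hV : ∀ c : ℂ, algebraMap ℂ K c ∈ V := fun c => hV1' (algebraMap ℂ B c)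
  have hQV : ∀ j, ch ηs (Q j) ∈ V := fun j => hV1' (zB j)
  have hupos : ∀ j, 0 < uO V hηs (Q j) ↔ zB j ∈ 𝔮 := fun j => by
    rw [uO_pos]
    exact hV2' (zB j)
  refine ⟨V, hV, a, D, Q, hQV, s, ha, hD, hdual, hrep, ?_, ?_, hTs, ?_⟩
  · intro j hj
    by_contra hne
    have h1 : 0 < uO V hηs (Q j) :=
      lt_of_le_of_ne ((uO_nonneg hηs _).2 (hQV j)) (Ne.symm hne)
    rw [hupos] at h1
    have h2 := hs1.ne_zero ⟨j, hj⟩
    apply h2
    exact Ideal.Quotient.eq_zero_iff_mem.2 h1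
  · intro m hm hm0
    have h1 : (⟨ch ηs (D • m), hmon m (hΓ m hm)⟩ : B) ∈ C :=
      Algebra.subset_adjoin ⟨m, hm, rfl⟩
    have h2 : (⟨ch ηs (D • m), hmon m (hΓ m hm)⟩ : B) ∈ 𝔫 := by
      rw [Ideal.mem_comap]
      have h3 : ch ηs (D • m) ∈ V0.nonunits := by
        rw [← uO_pos hηs, map_zsmul]
        exact zsmul_pos ((uO_pos hηs m).2 (hV0m' m (hΓ m hm) hm0)) hD
      exact (ValuationSubring.coe_mem_nonunits_iff
        (a := (⟨ch ηs (D • m), hBV0 _ (hmon m (hΓ m hm))⟩ : V0))).1 h3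
    have h3 := hC𝔮 _ h1 h2
    have h4 : (⟨ch ηs (D • m), hmon m (hΓ m hm)⟩ : B) = ∏ j, zB j ^ (pr m (E (a j))).toNat := by
      apply Subtype.ext
      change ch ηs (D • m) = _
      rw [ch_chart' hηs hrep (hΓ m hm)]
      push_cast
      rfl
    rw [h4, h𝔮.prod_mem_iff] at h3
    obtain ⟨j, -, hj⟩ := h3
    refine ⟨j, (hupos j).2 (h𝔮.mem_of_pow_mem _ hj), ?_⟩
    by_contra hle
    have h5 : (pr m (E (a j))).toNat = 0 := by omega
    rw [h5, pow_zero] at hj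
    exact h𝔮.ne_top ((Ideal.eq_top_iff_one _).2 hj)
  · let instR := algR hV
    -- the map to the residue field
    let f' : B →+* V := (algebraMap B K).codRestrict V hV1'
    let g : B →ₐ[ℂ] IsLocalRing.ResidueField V :=
      { (IsLocalRing.residue V).comp f' with
        commutes' := fun c => rfl }
    have hg : ∀ b : B, g b = IsLocalRing.residue V ⟨b, hV1' b⟩ := fun b => rfl
    have hg0 : ∀ b : B, g b = 0 ↔ b ∈ 𝔮 := by
      intro b
      rw [hg, IsLocalRing.residue_eq_zero_iff, ← hV2']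
      exact (ValuationSubring.coe_mem_nonunits_iff (a := (⟨b, hV1' b⟩ : V))).symm
    let gq : (B ⧸ 𝔮) →ₐ[ℂ] IsLocalRing.ResidueField V :=
      Ideal.Quotient.liftₐ 𝔮 g fun b hb => (hg0 b).2 hb
    have hgq : Function.Injective gq := by
      rw [injective_iff_map_eq_zero]
      intro x hx
      obtain ⟨b, rfl⟩ := Ideal.Quotient.mk_surjective x
      have h1 : g b = 0 := hx
      exact Ideal.Quotient.eq_zero_iff_mem.2 ((hg0 b).1 h1)
    have h2 := hs1.map' hgq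
    have h3 : (fun j : s => IsLocalRing.residue V ⟨ch ηs (Q j), hQV j⟩) =
        (⇑gq ∘ fun j : s => Ideal.Quotient.mk 𝔮 (zB j)) := by
      funext j
      exact (hg (zB j)).symm
    rw [h3]
    exact h2

end Pool.Agent.Helper56.LC
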