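import Pool.Graph.R_pool_sql_team_seeded_1e53cb71.Helper43K9.CI.Step
import Pool.Graph.R_pool_sql_team_seeded_1e53cb71.Helper43K9.CI.Asm
import Pool.Graph.R_pool_sql_team_seeded_1e53cb71.Helper43K9.CI.Bk
import Pool.Graph.R_pool_sql_team_seeded_1e53cb71.Helper43K9.CI.Lim
import Pool.Graph.R_pool_sql_team_seeded_1e53cb71.Helper43K9.CI.Lead
import Pool.Graph.R_pool_sql_team_seeded_1e53cb71.Helper43K9.CI.Inn
import Pool.Graph.R_pool_sql_team_seeded_1e53cb71.Helper43K9.CI.Evh
import Pool.Graph.R_pool_sql_team_seeded_1e53cb71.Helper43K9.CI.Cot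
import Pool.Graph.R_pool_sql_team_seeded_1e53cb71.Helper43K9.CI.Trd
import Pool.Graph.R_pool_sql_team_seeded_1e53cb71.Helper43K9.CI.Prm
import Pool.Graph.R_pool_sql_team_seeded_1e53cb71.Helper43K9.CI.Idx
import Pool.Graph.R_pool_sql_team_seeded_1e53cb71.Helper43K9.CI.Red
import Pool.Graph.R_pool_sql_team_seeded_1e53cb71.Helper43K9.CI.Open
import Pool.Graph.R_pool_sql_team_seeded_1e53cb71.Helper43K9.CI.Pnt

/-!
# Combinatorial inversion of adjunction, uniformly in the boundary; the minimum formula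

The step of `Pool.Agent.Helper58K9.CI.Step` does not depend on `ψ`. So the minimum formula for the
minimal log discrepancy at the fixed point needs no log canonicity of the boundary in question.
-/

set_option autoImplicit false
set_option linter.unusedVariables false
set_option linter.unusedSectionVars false

namespace Pool.Agent.Helper56.LC

section
open Pool.Agent.Helper58K9.CI Pool.Agent.Helper43K9.NH
open Pool.Agent.TH165.ACC (pr Cn pr_add pr_zero pr_neg pr_sub pr_smul pr_smul_right)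
open Module

/-- **Combinatorial inversion of adjunction.** -/
theorem stepU {n N r : ℕ} (E : Fin N → Fin n → ℤ) (S : Fin r → Finset (Fin n → ℤ))
    (hS : ∀ j, (S j).Nonempty) (hP : ∀ j, ∀ m ∈ S j, ∃ i, phi (S j) (E i) < pr m (E i))
    (w : Fin n → ℤ) (hw : Inn E w) (hR : ¬ RadoC S w) :
    ∃ I : Finset (Fin N), I.Nonempty ∧ Inn E (w + ∑ i ∈ I, E i) ∧
      ∀ ψ : Fin n → ℝ, (∀ i, dot ψ (E i) ≤ 1 + ∑ j, (phi (S j) (E i) : ℝ)) →
        Lam ψ S (w + ∑ i ∈ I, E i) ≤ Lam ψ S w := by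
  classical
  -- the minimal `J`
  obtain ⟨J, hJ, hJmin⟩ : ∃ J : Finset (Fin r), finrank ℝ (VJ S w J) < J.card ∧
      ∀ J' ⊂ J, J'.card ≤ finrank ℝ (VJ S w J') := by
    unfold RadoC at hR
    push Not at hR
    have hex : ∃ k : ℕ, ∃ J : Finset (Fin r), finrank ℝ (VJ S w J) < J.card ∧ J.card = k := by
      obtain ⟨J, hJ⟩ := hR
      exact ⟨_, J, hJ, rfl⟩
    obtain ⟨J, hJ, hk⟩ := Nat.find_spec hex
    refine ⟨J, hJ, fun J' hJ' => ?_⟩
    by_contra hcon
    push Not at hcon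
    have := Nat.find_min hex (m := J'.card) (by
      have := Finset.card_lt_card hJ'
      omega)
    exact this ⟨J', hcon, rfl⟩
  have hJne : J.Nonempty := by
    rw [Finset.nonempty_iff_ne_empty]
    rintro rfl
    simp at hJ
  obtain ⟨j0, hj0⟩ := hJne
  obtain ⟨⟨m0, hm0, hm0w⟩, -⟩ := phi_spec (hS j0) w
  obtain ⟨i0, hi0⟩ := hP j0 m0 hm0
  -- the space `V`
  let V := VJ S w J
  let e : Fin N → V →ₗ[ℝ] ℝ := fun i => (ev (rv (E i))).comp V.subtype
  have hwV : ∀ v ∈ V, ev (rv w) v = 0 := by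
    intro v hv
    have hle : V ≤ LinearMap.ker (ev (rv w)) := by
      refine Submodule.span_le.2 ?_
      rintro x ⟨j, hj, m, hm, m', hm', h1, h2, rfl⟩
      rw [SetLike.mem_coe, LinearMap.mem_ker, ev_rv, pr_sub, h1, h2]
      simp
    exact hle hv
  obtain ⟨c, hc0, hc1, hc2, hc3⟩ := exists_min e i0 (by
    obtain ⟨c, t, h0, h1, h2⟩ := exists_rel hw i0
    refine ⟨c, h0, h1, fun v => ?_⟩
    have h3 : ∑ i, c i * e i v = t * ev (rv w) v := by
      simp only [e, LinearMap.comp_apply, Submodule.subtype_apply, ev, rv, LinearMap.coe_mk,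
        AddHom.coe_mk, Finset.mul_sum]
      rw [Finset.sum_comm]
      refine Finset.sum_congr rfl fun k _ => ?_
      have := h2 k
      calc ∑ i, c i * ((E i k : ℝ) * v.1 k) = (∑ i, c i * (E i k : ℝ)) * v.1 k := by
            rw [Finset.sum_mul]
            exact Finset.sum_congr rfl fun i _ => by ring
        _ = _ := by rw [this]; ring
    rw [h3, hwV v v.2, mul_zero])
  let I : Finset (Fin N) := Finset.univ.filter fun i => c i ≠ 0
  have hI : ∀ i, i ∈ I ↔ c i ≠ 0 := fun i => by simp [I]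
  -- the numbers `λ_j`
  let la : Fin r → (Fin n → ℤ) → ℝ := fun j m => ∑ i, c i * ((pr m (E i) : ℝ) - phi (S j) (E i))
  have hgap : ∀ j, ∀ m ∈ S j, ∀ i, (0 : ℝ) ≤ (pr m (E i) : ℝ) - phi (S j) (E i) := by
    intro j m hm i
    have := (phi_spec (hS j) (E i)).2 m hm
    have h2 : (phi (S j) (E i) : ℝ) ≤ (pr m (E i) : ℝ) := by exact_mod_cast this
    linarith
  have hla0 : ∀ j, ∀ m ∈ S j, 0 ≤ la j m := fun j m hm =>
    Finset.sum_nonneg fun i _ => mul_nonneg (hc0 i) (hgap j m hm i)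
  have hlaeq : ∀ j ∈ J, ∀ m ∈ S j, ∀ m' ∈ S j, pr m w = phi (S j) w → pr m' w = phi (S j) w →
      la j m = la j m' := by
    intro j hj m hm m' hm' h1 h2
    have hv : rv (m - m') ∈ V := Submodule.subset_span ⟨j, hj, m, hm, m', hm', h1, h2, rfl⟩
    have h3 := hc2 ⟨rv (m - m'), hv⟩
    have h4 : ∀ i, e i ⟨rv (m - m'), hv⟩ = (pr m (E i) : ℝ) - pr m' (E i) := by
      intro i
      simp only [e, LinearMap.comp_apply, Submodule.subtype_apply]
      rw [ev_rv, pr_sub]
      push_cast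
      ring
    simp only [h4] at h3
    have h5 : la j m - la j m' = 0 := by
      simp only [la]
      rw [← Finset.sum_sub_distrib, ← h3]
      exact Finset.sum_congr rfl fun i _ => by ring
    linarith
  -- the set `J0`
  let J0 : Finset (Fin r) := J.filter fun j => ∀ m ∈ S j, pr m w = phi (S j) w → la j m = 0
  have hJ0 : J0 ⊂ J := by
    rw [Finset.ssubset_iff_of_subset (Finset.filter_subset _ _)]
    refine ⟨j0, hj0, fun h => ?_⟩
    have h1 := (Finset.mem_filter.1 h).2 m0 hm0 hm0w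
    have h2 : 0 < la j0 m0 := by
      refine Finset.sum_pos' (fun i _ => mul_nonneg (hc0 i) (hgap j0 m0 hm0 i))
        ⟨i0, Finset.mem_univ _, mul_pos hc1 ?_⟩
      have : (phi (S j0) (E i0) : ℝ) < (pr m0 (E i0) : ℝ) := by exact_mod_cast hi0
      linarith
    linarith
  have hzero : ∀ j ∈ J0, ∀ m ∈ S j, pr m w = phi (S j) w → ∀ i ∈ I,
      pr m (E i) = phi (S j) (E i) := by
    intro j hj m hm h1 i hi
    have h2 := (Finset.mem_filter.1 hj).2 m hm h1
    have h3 := (Finset.sum_eq_zero_iff_of_nonneg (fun i _ =>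
      mul_nonneg (hc0 i) (hgap j m hm i))).1 h2 i (Finset.mem_univ _)
    rcases mul_eq_zero.1 h3 with h4 | h4
    · exact absurd h4 ((hI i).1 hi)
    · have : (pr m (E i) : ℝ) = phi (S j) (E i) := by linarith
      exact_mod_cast this
  -- the dimension
  let K : Submodule ℝ V := (VJ S w J0).comap V.subtype
  have hVle : VJ S w J0 ≤ V := by
    refine Submodule.span_mono ?_
    rintro x ⟨j, hj, h⟩
    exact ⟨j, Finset.filter_subset _ _ hj, h⟩
  have hKf : finrank ℝ K = finrank ℝ (VJ S w J0) := by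
    exact (Submodule.comapSubtypeEquivOfLe hVle).finrank_eq
  have hK : ∀ v ∈ K, ∀ i ∈ I, e i v = 0 := by
    intro v hv i hi
    have hle : VJ S w J0 ≤ LinearMap.ker (ev (rv (E i))) := by
      refine Submodule.span_le.2 ?_
      rintro x ⟨j, hj, m, hm, m', hm', h1, h2, rfl⟩
      rw [SetLike.mem_coe, LinearMap.mem_ker, ev_rv, pr_sub, hzero j hj m hm h1 i hi,
        hzero j hj m' hm' h2 i hi]
      simp
    exact hle hv
  obtain ⟨-, hdim⟩ := rank_min e c I hI hc3 K hK ⊤
  rw [hKf] at hdim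
  have hJ0c := hJmin J0 hJ0
  have hcard : I.card ≤ (J \ J0).card := by
    have h1 : (J \ J0).card + J0.card = J.card :=
      Finset.card_sdiff_add_card_eq_card (Finset.filter_subset _ _ : J0 ⊆ J)
    have h2 : finrank ℝ V = finrank ℝ (VJ S w J) := rfl
    omega
  have hIne : I.Nonempty := ⟨i0, (hI i0).2 hc1.ne'⟩
  refine ⟨I, hIne, inn_add hw I, fun ψ hψ => ?_⟩
  -- growth of `φ_j`
  have hphi : ∀ j, (phi (S j) w : ℝ) + ∑ i ∈ I, (phi (S j) (E i) : ℝ) +
      (if j ∈ J \ J0 then 1 else 0) ≤ (phi (S j) (w + ∑ i ∈ I, E i) : ℝ) := by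
    intro j
    obtain ⟨⟨m, hm, hmw⟩, -⟩ := phi_spec (hS j) (w + ∑ i ∈ I, E i)
    rw [← hmw, Pool.Agent.Helper58K9.CI.pr_add_right, pr_sum_right]
    have h1 := (phi_spec (hS j) w).2 m hm
    have h2 : ∑ i ∈ I, phi (S j) (E i) ≤ ∑ i ∈ I, pr m (E i) :=
      Finset.sum_le_sum fun i _ => (phi_spec (hS j) (E i)).2 m hm
    have h3 : phi (S j) w + ∑ i ∈ I, phi (S j) (E i) + (if j ∈ J \ J0 then 1 else 0) ≤
        pr m w + ∑ i ∈ I, pr m (E i) := by
      split_ifs with hj
      · by_cases h4 : pr m w = phi (S j) w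
        · obtain ⟨hjJ, hjJ0⟩ := Finset.mem_sdiff.1 hj
          -- `λ_j > 0`
          have h5 : la j m ≠ 0 := by
            intro h6
            apply hjJ0
            refine Finset.mem_filter.2 ⟨hjJ, fun m' hm' h7 => ?_⟩
            rw [hlaeq j hjJ m' hm' m hm h7 h4, h6]
          have h6 : 0 < la j m := lt_of_le_of_ne (hla0 j m hm) (Ne.symm h5)
          obtain ⟨i, -, hi⟩ := Finset.exists_lt_of_sum_lt (s := Finset.univ) (f := fun _ => (0 : ℝ))
            (g := fun i => c i * ((pr m (E i) : ℝ) - phi (S j) (E i))) (by simpa using h6)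
          have hci : c i ≠ 0 := by
            intro h7
            rw [h7] at hi
            simp at hi
          have h8 : phi (S j) (E i) < pr m (E i) := by
            refine lt_of_le_of_ne ((phi_spec (hS j) (E i)).2 m hm) fun h9 => ?_
            rw [h9] at hi
            simp at hi
          have h9 : ∑ i ∈ I, phi (S j) (E i) < ∑ i ∈ I, pr m (E i) :=
            Finset.sum_lt_sum (fun i _ => (phi_spec (hS j) (E i)).2 m hm)
              ⟨i, (hI i).2 hci, h8⟩
          omega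
        · omega
      · omega
    have h4 : ((phi (S j) w + ∑ i ∈ I, phi (S j) (E i) + (if j ∈ J \ J0 then 1 else 0) : ℤ) : ℝ)
        ≤ ((pr m w + ∑ i ∈ I, pr m (E i) : ℤ) : ℝ) := by exact_mod_cast h3
    push_cast at h4 ⊢
    exact h4
  have hsum := Finset.sum_le_sum fun j (_ : j ∈ Finset.univ) => hphi j
  rw [Finset.sum_add_distrib, Finset.sum_add_distrib] at hsum
  have h1 : ∑ j, (if j ∈ J \ J0 then (1 : ℝ) else 0) = ((J \ J0).card : ℝ) := by
    rw [Finset.sum_ite_mem, Finset.univ_inter]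
    simp
  rw [h1, Finset.sum_comm] at hsum
  have h2 : dot ψ (w + ∑ i ∈ I, E i) ≤ dot ψ w + ((I.card : ℝ) +
      ∑ i ∈ I, ∑ j, (phi (S j) (E i) : ℝ)) := by
    rw [Pool.Agent.Helper58K9.CI.dot_add, dot_sum]
    have h3 : ∑ i ∈ I, dot ψ (E i) ≤ ∑ i ∈ I, (1 + ∑ j, (phi (S j) (E i) : ℝ)) :=
      Finset.sum_le_sum fun i _ => hψ i
    rw [Finset.sum_add_distrib] at h3
    simp only [Finset.sum_const, nsmul_eq_mul, mul_one] at h3
    linarith
  have h3 : (I.card : ℝ) ≤ ((J \ J0).card : ℝ) := by exact_mod_cast hcard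
  unfold Lam
  linarith



end

open Pool.Agent.H436R3.Fol Pool.Agent.H436R3.KT Pool.Agent.W497.Mld MvPolynomial
open Pool.Agent.TH165.ACC (pr ex Prim Cn Hs lead part mldsR pr_add pr_zero pr_neg pr_sub pr_smul
  pr_smul_right ex_add ex_inj exists_nat_ex exists_prim coeff_part lead_eq)
open Pool.Agent.Helper43K9.NH (ch AA wt Inn expo phi dot inn_of_over over_of_local)
open Pool.Agent.Helper43K9.CI

variable {n d r : ℕ} {L : Type} [Field L] [Algebra ℂ L]

/-- The minimum formula, the upper bound: no log canonicity needed. -/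
theorem hminU (hdr : 0 < d + r) {g : CIGerm r d L} (hk : KltType g) (b : Bd g) {B : EffDiv g.X}
    {e : LocEq B g.P} (hr : IsRestr b e) {m : ℝ} (hm0 : 0 ≤ m)
    (hm : ∀ v, IsOverGerm g.P v → ∀ a, IsLogDisc e v a → m ≤ a) :
    ∀ w, Inn g.E w → m ≤ la b.ψ g.S w := by
  have hS := S_ne g
  have htrop : ∀ w, Inn g.E w → Bern g.S w → m ≤ la b.ψ g.S w := by
    intro w hi ht
    obtain ⟨k, w', hk0, hw', rfl⟩ := exists_prim (Pool.Agent.Helper43K9.CI.Inn.ne_zero hdr hi)
    obtain ⟨v, hv, hwt, hc⟩ := exists_over (bk opn red lim) lead_ inn (div lim evh cot trd prm)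
      (top idx low) (hi.of_smul hk0) hw' (bern_smul hS hk0 ht)
    have h1 : m ≤ la b.ψ g.S w' := by
      apply hm v hv
      refine ⟨_, hc, ?_⟩
      rw [hr, hwt, la]
      push_cast
      ring
    rw [la_smul _ hS hk0.le]
    have h2 : (1 : ℝ) ≤ k := by exact_mod_cast hk0
    nlinarith
  obtain ⟨b', ε, Q, hε, hQ, hlow⟩ := hk
  have hψ : ∀ (b : Bd g) (i), dot b.ψ (g.E i) ≤ 1 + ∑ j, (phi (g.S j) (g.E i) : ℝ) := by
    intro b i
    rw [b.eq]
    have := b.nonneg i
    linarith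
  have key : ∀ (k : ℕ) (w : Fin (d + r) → ℤ), Inn g.E w → ⌈la b'.ψ g.S w / ε⌉ - pr Q w < k →
      m ≤ la b.ψ g.S w := by
    intro k
    induction k with
    | zero =>
      intro w hw hc
      exfalso
      have h1 : (pr Q w : ℝ) ≤ la b'.ψ g.S w / ε := by
        rw [le_div_iff₀ hε, mul_comm]
        exact hlow w hw
      have h2 : (pr Q w : ℝ) ≤ (⌈la b'.ψ g.S w / ε⌉ : ℝ) := h1.trans (Int.le_ceil _)
      have h3 : pr Q w ≤ ⌈la b'.ψ g.S w / ε⌉ := by exact_mod_cast h2
      simp only [Nat.cast_zero] at hc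
      omega
    | succ k ih =>
      intro w hw hc
      by_cases ht : Bern g.S w
      · exact htrop w hw ht
      have hR : ¬ Pool.Agent.Helper58K9.CI.RadoC g.S w := fun h =>
        ht fun J => (h J).trans (finrank_real_le g.S w J)
      obtain ⟨I, hI, hInn, hle⟩ := stepU g.E g.S hS (pnt r d L g) w hw hR
      refine (ih _ hInn ?_).trans (hle b.ψ (hψ b))
      have h1 : la b'.ψ g.S (w + ∑ i ∈ I, g.E i) ≤ la b'.ψ g.S w := hle b'.ψ (hψ b')
      have h5 : ⌈la b'.ψ g.S (w + ∑ i ∈ I, g.E i) / ε⌉ ≤ ⌈la b'.ψ g.S w / ε⌉ :=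
        Int.ceil_le_ceil (div_le_div_of_nonneg_right h1 hε.le)
      have h2 : pr Q (w + ∑ i ∈ I, g.E i) = pr Q w + ∑ i ∈ I, pr Q (g.E i) := by
        rw [Pool.Agent.Helper58K9.CI.pr_add_right, Pool.Agent.Helper58K9.CI.pr_sum_right]
      have h3 : 0 < ∑ i ∈ I, pr Q (g.E i) := Finset.sum_pos (fun i _ => hQ i) hI
      push_cast at hc
      omega
  intro w hw
  refine key (⌈la b'.ψ g.S w / ε⌉ - pr Q w + 1).toNat w hw ?_
  have := Int.self_le_toNat (⌈la b'.ψ g.S w / ε⌉ - pr Q w + 1)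
  omega

end Pool.Agent.Helper56.LC
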