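import Pool.Agent.Helper56.LC.Ang

/-!
# Limits of points of tori along an ultrafilter
-/

set_option autoImplicit false
set_option linter.unusedSectionVars false
set_option linter.unusedVariables false

namespace Pool.Agent.Helper56.LC

open Pool.Agent.TH165.ACC (pr ex Cn lead part pr_add pr_zero pr_neg pr_sub pr_smul pr_smul_right
  coeff_part ex_add exists_nat_ex)
open Pool.Agent.Helper43K9.NH MvPolynomial Filter

theorem uf_const {ι α : Type} (𝒰 : Ultrafilter ι) (S : Finset α) (τ : ι → α) (h : ∀ i, τ i ∈ S) :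
    ∃ c ∈ S, ∀ᶠ i in (𝒰 : Filter ι), τ i = c := by
  by_contra hcon
  push Not at hcon
  have h1 : ∀ᶠ i in (𝒰 : Filter ι), ∀ c ∈ S, ¬ τ i = c := by
    rw [Filter.eventually_all_finset]
    intro c hc
    exact hcon c hc
  obtain ⟨i, hi⟩ := h1.exists
  exact hi _ (h i) rfl

variable {n : ℕ} {ι : Type} (𝒰 : Ultrafilter ι) {Kι : ι → Type} [∀ i, Field (Kι i)]
  [∀ i, Algebra ℂ (Kι i)]

/-- the limit of the ideals of the points -/
def PU (η : ∀ i, Fin n → Kι i) : Ideal (MvPolynomial (Fin n) ℂ) where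
  carrier := {p | ∀ᶠ i in (𝒰 : Filter ι), aeval (η i) p = 0}
  add_mem' {p q} hp hq := by
    filter_upwards [hp, hq] with i h1 h2
    rw [map_add, h1, h2, add_zero]
  zero_mem' := Filter.Eventually.of_forall fun i => map_zero _
  smul_mem' c p hp := by
    filter_upwards [hp] with i h1
    rw [smul_eq_mul, map_mul, h1, mul_zero]

theorem mem_PU {η : ∀ i, Fin n → Kι i} {p : MvPolynomial (Fin n) ℂ} :
    p ∈ PU 𝒰 η ↔ ∀ᶠ i in (𝒰 : Filter ι), aeval (η i) p = 0 := Iff.rfl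

theorem PU_prime (η : ∀ i, Fin n → Kι i) : (PU 𝒰 η).IsPrime := by
  refine ⟨?_, fun {p q} h => ?_⟩
  · rw [Ideal.ne_top_iff_one, mem_PU]
    intro h
    obtain ⟨i, hi⟩ := h.exists
    rw [map_one] at hi
    exact one_ne_zero hi
  · rw [mem_PU, mem_PU, ← Ultrafilter.eventually_or]
    rw [mem_PU] at h
    filter_upwards [h] with i hi
    rw [map_mul] at hi
    exact mul_eq_zero.1 hi

/-- **The limit point.** -/
theorem exists_limit (η : ∀ i, Fin n → Kι i) (hη : ∀ i l, η i l ≠ 0) :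
    ∃ (K : Type) (_ : Field K) (_ : Algebra ℂ K) (ηs : Fin n → K), (∀ l, ηs l ≠ 0) ∧
      (∀ p : MvPolynomial (Fin n) ℂ,
        aeval ηs p = 0 ↔ ∀ᶠ i in (𝒰 : Filter ι), aeval (η i) p = 0) ∧
      ∀ x : K, ∃ p q : MvPolynomial (Fin n) ℂ, aeval ηs q ≠ 0 ∧ x * aeval ηs q = aeval ηs p := by
  have hP := PU_prime 𝒰 η
  let R := MvPolynomial (Fin n) ℂ ⧸ PU 𝒰 η
  let K := FractionRing R
  let ηs : Fin n → K := fun l => algebraMap R K (Ideal.Quotient.mk _ (X l))
  have hev : ∀ p : MvPolynomial (Fin n) ℂ,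
      aeval ηs p = algebraMap R K (Ideal.Quotient.mk (PU 𝒰 η) p) := by
    intro p
    have h1 : (aeval ηs : MvPolynomial (Fin n) ℂ →ₐ[ℂ] K) =
        (Algebra.algHom ℂ R K).comp (Ideal.Quotient.mkₐ ℂ (PU 𝒰 η)) := by
      apply MvPolynomial.algHom_ext
      intro l
      rw [aeval_X]
      rfl
    rw [h1]
    rfl
  have hzero : ∀ p : MvPolynomial (Fin n) ℂ,
      aeval ηs p = 0 ↔ ∀ᶠ i in (𝒰 : Filter ι), aeval (η i) p = 0 := by
    intro p
    rw [hev, map_eq_zero_iff _ (IsFractionRing.injective R K), Ideal.Quotient.eq_zero_iff_mem,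
      mem_PU]
  refine ⟨K, inferInstance, inferInstance, ηs, fun l h => ?_, hzero, fun x => ?_⟩
  · have h1 : aeval ηs (X l : MvPolynomial (Fin n) ℂ) = 0 := by rw [aeval_X]; exact h
    rw [hzero] at h1
    obtain ⟨i, hi⟩ := h1.exists
    rw [aeval_X] at hi
    exact hη i l hi
  · obtain ⟨a, b, hb, hx⟩ := IsFractionRing.div_surjective (A := R) x
    obtain ⟨p, rfl⟩ := Ideal.Quotient.mk_surjective a
    obtain ⟨q, rfl⟩ := Ideal.Quotient.mk_surjective b
    have hq : aeval ηs q ≠ 0 := by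
      rw [hev, Ne, map_eq_zero_iff _ (IsFractionRing.injective R K)]
      exact nonZeroDivisors.ne_zero hb
    refine ⟨p, q, hq, ?_⟩
    rw [← hx, hev, hev] at *
    exact div_mul_cancel₀ _ hq

/-- Laurent polynomials as polynomials -/
theorem exists_clear (S : Finset (Fin n → ℤ)) (a : (Fin n → ℤ) → ℂ) :
    ∃ (e : Fin n →₀ ℕ) (p : MvPolynomial (Fin n) ℂ), ∀ (K : Type) [Field K] [Algebra ℂ K]
      (ζ : Fin n → K), (∀ l, ζ l ≠ 0) →
      aeval ζ p = ch ζ (ex e) * ∑ m ∈ S, algebraMap ℂ K (a m) * ch ζ m := by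
  classical
  have h1 : ∀ m : Fin n → ℤ, ∃ s t : Fin n →₀ ℕ, m = ex s - ex t := exists_nat_ex
  choose s t hst using h1
  refine ⟨∑ m ∈ S, t m, ∑ m ∈ S, monomial (s m + ∑ m' ∈ S.erase m, t m') (a m), ?_⟩
  intro K _ _ ζ hζ
  rw [map_sum, Finset.mul_sum]
  refine Finset.sum_congr rfl fun m hm => ?_
  have h2 : ex (s m + ∑ m' ∈ S.erase m, t m') = ex (∑ m ∈ S, t m) + m := by
    rw [← Finset.add_sum_erase S t hm, ex_add, ex_add, ← eq_sub_iff_add_eq.1 (hst m)]
    abel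
  rw [aeval_mon, h2, ch_add hζ]
  ring

theorem laurent_iff {η : ∀ i, Fin n → Kι i} (hη : ∀ i l, η i l ≠ 0) {K : Type} [Field K]
    [Algebra ℂ K] {ηs : Fin n → K} (hηs : ∀ l, ηs l ≠ 0) (hz : ∀ p : MvPolynomial (Fin n) ℂ,
        aeval ηs p = 0 ↔ ∀ᶠ i in (𝒰 : Filter ι), aeval (η i) p = 0)
    (S : Finset (Fin n → ℤ)) (a : (Fin n → ℤ) → ℂ) :
    ∑ m ∈ S, algebraMap ℂ K (a m) * ch ηs m = 0 ↔ ∀ᶠ i in (𝒰 : Filter ι),
      ∑ m ∈ S, algebraMap ℂ (Kι i) (a m) * ch (η i) m = 0 := by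
  obtain ⟨e, p, hp⟩ := exists_clear S a
  have h1 : ∑ m ∈ S, algebraMap ℂ K (a m) * ch ηs m = 0 ↔ aeval ηs p = 0 := by
    rw [hp K ηs hηs, mul_eq_zero, or_iff_right (ch_ne hηs _)]
  rw [h1, hz]
  refine Filter.eventually_congr (Filter.Eventually.of_forall fun i => ?_)
  rw [hp (Kι i) (η i) (hη i), mul_eq_zero, or_iff_right (ch_ne (hη i) _)]

/-- the element `c` of the limit field is a quotient of polynomials by monomials which are complex
numbers at the points -/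
def Rep {K : Type} [Field K] [Algebra ℂ K] (ηs : Fin n → K) (η : ∀ i, Fin n → Kι i) (c : K) :
    Prop :=
  ∃ (p : MvPolynomial (Fin n) ℂ) (e : Fin n →₀ ℕ), c * ch ηs (ex e) = aeval ηs p ∧
    ∀ᶠ i in (𝒰 : Filter ι), ∃ c' : ℂ,
      aeval (η i) p = algebraMap ℂ (Kι i) c' * ch (η i) (ex e)

theorem rep_adjoin {η : ∀ i, Fin n → Kι i} (hη : ∀ i l, η i l ≠ 0) {K : Type} [Field K]
    [Algebra ℂ K] {ηs : Fin n → K} (hηs : ∀ l, ηs l ≠ 0) {G : Set K}
    (hG : ∀ x ∈ G, Rep 𝒰 ηs η x) : ∀ c ∈ Algebra.adjoin ℂ G, Rep 𝒰 ηs η c := by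
  intro c hc
  induction hc using Algebra.adjoin_induction with
  | mem x hx => exact hG x hx
  | algebraMap r =>
    refine ⟨C r, 0, ?_, Filter.Eventually.of_forall fun i => ⟨r, ?_⟩⟩
    · have h1 : ex (0 : Fin n →₀ ℕ) = 0 := by funext i; simp [Pool.Agent.TH165.ACC.ex]
      rw [h1, ch_zero, mul_one, aeval_C]
    · have h1 : ex (0 : Fin n →₀ ℕ) = 0 := by funext i; simp [Pool.Agent.TH165.ACC.ex]
      rw [h1, ch_zero, mul_one, aeval_C]
  | add x y _ _ hx hy =>
    obtain ⟨p1, e1, h1, h2⟩ := hx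
    obtain ⟨p2, e2, h3, h4⟩ := hy
    refine ⟨p1 * monomial e2 1 + p2 * monomial e1 1, e1 + e2, ?_, ?_⟩
    · rw [map_add, map_mul, map_mul, ← h1, ← h3, ex_add, ch_add hηs, ← ch_ex, ← ch_ex]
      ring
    · filter_upwards [h2, h4] with i hi hi'
      obtain ⟨c1, hc1⟩ := hi
      obtain ⟨c2, hc2⟩ := hi'
      refine ⟨c1 + c2, ?_⟩
      rw [map_add, map_mul, map_mul, hc1, hc2, ex_add, ch_add (hη i), ← ch_ex, ← ch_ex, map_add]
      ring
  | mul x y _ _ hx hy =>
    obtain ⟨p1, e1, h1, h2⟩ := hx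
    obtain ⟨p2, e2, h3, h4⟩ := hy
    refine ⟨p1 * p2, e1 + e2, ?_, ?_⟩
    · rw [map_mul, ← h1, ← h3, ex_add, ch_add hηs]
      ring
    · filter_upwards [h2, h4] with i hi hi'
      obtain ⟨c1, hc1⟩ := hi
      obtain ⟨c2, hc2⟩ := hi'
      refine ⟨c1 * c2, ?_⟩
      rw [map_mul, hc1, hc2, ex_add, ch_add (hη i), map_mul]
      ring

theorem aeval_eq_fin {σ : Type} [Fintype σ] {R A : Type} [CommRing R] [CommRing A] [Algebra R A]
    (x : σ → A) (q : MvPolynomial σ R) :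
    aeval x q = ∑ α ∈ q.support, algebraMap R A (q.coeff α) * ∏ i, x i ^ α i := by
  rw [aeval_def, eval₂_eq']

/-- **Algebraic independence of the limits over the constants.** -/
theorem algIndep_limit {η : ∀ i, Fin n → Kι i} (hη : ∀ i l, η i l ≠ 0) {K : Type} [Field K]
    [Algebra ℂ K] {ηs : Fin n → K} (hηs : ∀ l, ηs l ≠ 0) (hz : ∀ p : MvPolynomial (Fin n) ℂ,
        aeval ηs p = 0 ↔ ∀ᶠ i in (𝒰 : Filter ι), aeval (η i) p = 0) {R : Type} [CommRing R]
    [Algebra R K] (hR : Function.Injective (algebraMap R K))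
    (hC : ∀ c : R, Rep 𝒰 ηs η (algebraMap R K c)) (T : Finset (Fin n))
    (hT : ∀ᶠ i in (𝒰 : Filter ι), AlgebraicIndependent ℂ (fun l : T => η i l)) :
    AlgebraicIndependent R (fun l : T => ηs l) := by
  classical
  rw [algebraicIndependent_iff]
  intro q hq
  choose p e hpe hpe' using hC
  -- the polynomial
  let A := q.support
  let f : (T →₀ ℕ) → MvPolynomial (Fin n) ℂ := fun α => p (q.coeff α)
  let e' : (T →₀ ℕ) → (Fin n →₀ ℕ) := fun α => e (q.coeff α)
  let et : Fin n →₀ ℕ := ∑ α ∈ A, e' α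
  let P : MvPolynomial (Fin n) ℂ := ∑ α ∈ A, f α * monomial (∑ β ∈ A.erase α, e' β) 1 *
    rename Subtype.val (monomial α (1 : ℂ))
  have hmon : ∀ (K' : Type) [Field K'] [Algebra ℂ K'] (ζ : Fin n → K') (α : T →₀ ℕ),
      aeval ζ (rename Subtype.val (monomial α (1 : ℂ))) = ∏ l : T, ζ l ^ α l := by
    intro K' _ _ ζ α
    rw [aeval_rename, aeval_monomial, map_one, one_mul, Finsupp.prod_fintype _ _ fun i => pow_zero _]
    rfl
  have het : ∀ α ∈ A, et = e' α + ∑ β ∈ A.erase α, e' β := fun α hα =>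
    (Finset.add_sum_erase A e' hα).symm
  have hP : aeval ηs P = 0 := by
    have h1 : aeval ηs P = ch ηs (ex et) * aeval (fun l : T => ηs l) q := by
      rw [aeval_eq_fin (fun l : T => ηs l) q, Finset.mul_sum]
      simp only [P, map_sum]
      refine Finset.sum_congr rfl fun α hα => ?_
      rw [map_mul, map_mul, hmon K ηs α, ← hpe, ← ch_ex, het α hα, ex_add, ch_add hηs]
      ring
    rw [h1, hq, mul_zero]
  rw [hz] at hP
  have hall : ∀ᶠ i in (𝒰 : Filter ι), ∀ α ∈ A, ∃ c' : ℂ,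
      aeval (η i) (f α) = algebraMap ℂ (Kι i) c' * ch (η i) (ex (e' α)) := by
    rw [Filter.eventually_all_finset]
    exact fun α _ => hpe' _
  have hzero : ∀ᶠ i in (𝒰 : Filter ι), ∀ α ∈ A, aeval (η i) (f α) = 0 := by
    filter_upwards [hP, hall, hT] with i h1 h2 h3
    choose! c' hc' using h2
    have h4 : ch (η i) (ex et) * aeval (fun l : T => η i l) (∑ α ∈ A, monomial α (c' α)) = 0 := by
      rw [← h1, map_sum, Finset.mul_sum]
      simp only [P, map_sum]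
      refine Finset.sum_congr rfl fun α hα => ?_
      rw [map_mul, map_mul, hmon (Kι i) (η i) α, hc' α hα, ← ch_ex, het α hα, ex_add,
        ch_add (hη i), aeval_monomial, Finsupp.prod_fintype _ _ fun i => pow_zero _]
      ring
    have h5 := (mul_eq_zero.1 h4).resolve_left (ch_ne (hη i) _)
    have h6 := (algebraicIndependent_iff.1 h3) _ h5
    intro α hα
    have h7 := congrArg (coeff α) h6
    rw [coeff_sum, coeff_zero, Finset.sum_eq_single α] at h7
    · rw [coeff_monomial, if_pos rfl] at h7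
      rw [hc' α hα, h7, map_zero, zero_mul]
    · intro β _ hβ
      rw [coeff_monomial, if_neg hβ]
    · intro h; exact absurd hα h
  rw [Filter.eventually_all_finset] at hzero
  rw [← support_eq_empty, Finset.eq_empty_iff_forall_notMem]
  intro α hα
  have h1 := (hz (f α)).2 (hzero α hα)
  have h2 := hpe (q.coeff α)
  change _ = aeval ηs (f α) at h2
  rw [h1] at h2
  have h3 := (mul_eq_zero.1 h2).resolve_right (ch_ne hηs _)
  rw [map_eq_zero_iff _ hR] at h3
  exact mem_support_iff.1 hα h3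

end Pool.Agent.Helper56.LC
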