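import Pool.Agent.Helper56.LC.Uf

/-!
# Valuations with given centres
-/

set_option autoImplicit false
set_option linter.unusedSectionVars false
set_option linter.unusedVariables false

namespace Pool.Agent.Helper56.LC

open Pool.Agent.TH165.ACC (pr ex Cn lead part pr_add pr_zero pr_neg pr_sub pr_smul pr_smul_right
  coeff_part ex_add exists_nat_ex)
open Pool.Agent.Helper43K9.NH MvPolynomial Filter

/-- a valuation ring with a given centre -/
theorem exists_val {K : Type} [Field K] (A : Subring K) (P : Ideal A) [hP : P.IsPrime] :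
    ∃ V : ValuationSubring K, (∀ a : A, (a : K) ∈ V) ∧ ∀ a : A, (a : K) ∈ V.nonunits ↔ a ∈ P := by
  obtain ⟨V, hV⟩ := (LocalSubring.ofPrime A P).exists_le_valuationSubring
  have h1 : ∀ a : A, (a : K) ∈ V := fun a => hV.1 (LocalSubring.le_ofPrime A P a.2)
  refine ⟨V, h1, fun a => ?_⟩
  have h2 : (a : K) ∈ V.nonunits ↔ (⟨a, h1 a⟩ : V) ∈ IsLocalRing.maximalIdeal V :=
    ValuationSubring.coe_mem_nonunits_iff (a := (⟨a, h1 a⟩ : V))
  rw [h2, IsLocalRing.mem_maximalIdeal, _root_.mem_nonunits_iff]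
  have h3 : IsUnit (⟨a, h1 a⟩ : V) ↔
      IsUnit (algebraMap A (LocalSubring.ofPrime A P).toSubring a) := by
    constructor
    · intro h
      have h4 := hV.2
      exact h4.map_nonunit _ h
    · intro h
      exact h.map (Subring.inclusion hV.1)
  rw [h3, IsLocalization.AtPrime.isUnit_to_map_iff _ P]
  simp [Ideal.mem_primeCompl_iff]

variable {n N : ℕ} {K : Type} [Field K] [Algebra ℂ K] {ηs : Fin n → K}

theorem cn_add_ne {E : Fin N → Fin n → ℤ} (hfull : ∀ m : Fin n → ℤ, (∀ i, pr m (E i) = 0) → m = 0)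
    {m m' : Fin n → ℤ} (hm : m ∈ Cn E) (hm' : m' ∈ Cn E) (h : m' ≠ 0) : m + m' ≠ 0 := by
  intro h0
  apply h
  apply hfull
  intro i
  have h1 := hm i
  have h2 := hm' i
  have h3 : pr (m + m') (E i) = 0 := by rw [h0, pr_zero]
  rw [pr_add] at h3
  omega

theorem cn_add {E : Fin N → Fin n → ℤ} {m m' : Fin n → ℤ} (hm : m ∈ Cn E) (hm' : m' ∈ Cn E) :
    m + m' ∈ Cn E := fun i => by
  rw [pr_add]
  exact add_nonneg (hm i) (hm' i)

/-- **A valuation ring with centre the fixed point.** -/
theorem exists_first {E : Fin N → Fin n → ℤ}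
    (hfull : ∀ m : Fin n → ℤ, (∀ i, pr m (E i) = 0) → m = 0) (hηs : ∀ l, ηs l ≠ 0)
    (hP : ∀ (S : Finset (Fin n → ℤ)) (a : (Fin n → ℤ) → ℂ), (∀ m ∈ S, m ∈ Cn E) → 0 ∈ S →
      a 0 ≠ 0 → ∑ m ∈ S, algebraMap ℂ K (a m) * ch ηs m ≠ 0) :
    ∃ V : ValuationSubring K, (∀ c : ℂ, algebraMap ℂ K c ∈ V) ∧ (∀ m ∈ Cn E, ch ηs m ∈ V) ∧
      ∀ m ∈ Cn E, m ≠ 0 → ch ηs m ∈ V.nonunits := by
  classical
  let A : Subring K := (AA ηs (Cn E)).toSubring
  let I : Ideal A := Ideal.span {x | ∃ m ∈ Cn E, m ≠ 0 ∧ (x : K) = ch ηs m}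
  let M0 : Submodule ℂ K := Submodule.span ℂ (ch ηs '' {m | m ∈ Cn E ∧ m ≠ 0})
  have hmul1 : ∀ m' ∈ Cn E, ∀ x ∈ M0, ch ηs m' * x ∈ M0 := by
    intro m' hm' x hx
    induction hx using Submodule.span_induction with
    | mem x hx =>
      obtain ⟨m, hm, rfl⟩ := hx
      rw [← ch_add hηs]
      exact Submodule.subset_span ⟨_, ⟨cn_add hm' hm.1, cn_add_ne hfull hm' hm.1 hm.2⟩, rfl⟩
    | zero => rw [mul_zero]; exact M0.zero_mem
    | add x y _ _ hx hy => rw [mul_add]; exact M0.add_mem hx hy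
    | smul c x _ hx => rw [mul_smul_comm]; exact M0.smul_mem _ hx
  have hmul : ∀ c ∈ AA ηs (Cn E), ∀ x ∈ M0, c * x ∈ M0 := by
    intro c hc
    induction hc using Algebra.adjoin_induction with
    | mem c hc =>
      obtain ⟨m, hm, rfl⟩ := hc
      exact hmul1 m hm
    | algebraMap r =>
      intro x hx
      rw [← Algebra.smul_def]
      exact M0.smul_mem _ hx
    | add c c' _ _ h h' =>
      intro x hx
      rw [add_mul]
      exact M0.add_mem (h x hx) (h' x hx)
    | mul c c' _ _ h h' =>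
      intro x hx
      rw [mul_assoc]
      exact h _ (h' x hx)
  have hI : ∀ x ∈ I, (x : K) ∈ M0 := by
    intro x hx
    induction hx using Submodule.span_induction with
    | mem x hx =>
      obtain ⟨m, hm, hm0, h⟩ := hx
      rw [h]
      exact Submodule.subset_span ⟨m, ⟨hm, hm0⟩, rfl⟩
    | zero => exact M0.zero_mem
    | add x y _ _ hx hy => exact M0.add_mem hx hy
    | smul c x _ hx => exact hmul _ c.2 _ hx
  have hne : I ≠ ⊤ := by
    intro htop
    have h1 : (1 : K) ∈ M0 := hI 1 (by rw [htop]; trivial)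
    obtain ⟨f, hf, hf1⟩ := (Finsupp.mem_span_image_iff_linearCombination ℂ).1 h1
    have hfs : ∀ m ∈ f.support, m ∈ Cn E ∧ m ≠ 0 := fun m hm =>
      (Finsupp.mem_supported _ _).1 hf hm
    have h0 : (0 : Fin n → ℤ) ∉ f.support := fun h => (hfs 0 h).2 rfl
    refine hP (insert 0 f.support) (fun m => if m = 0 then 1 else -f m) ?_
      (Finset.mem_insert_self _ _) (by simp) ?_
    · intro m hm
      rcases Finset.mem_insert.1 hm with rfl | h
      · intro i
        rw [pr_zero]
      · exact (hfs m h).1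
    · rw [Finset.sum_insert h0, if_pos rfl, map_one, ch_zero, one_mul]
      rw [Finsupp.linearCombination_apply, Finsupp.sum] at hf1
      rw [← hf1, ← Finset.sum_add_distrib]
      refine Finset.sum_eq_zero fun m hm => ?_
      rw [if_neg (hfs m hm).2, Algebra.smul_def, map_neg]
      ring
  obtain ⟨V, hV1, hV2⟩ := Ideal.image_subset_nonunits_valuationSubring I hne
  refine ⟨V, fun c => hV1 ((AA ηs (Cn E)).algebraMap_mem c), fun m hm => hV1 (ch_mem_AA hm),
    fun m hm hm0 => hV2 ⟨⟨ch ηs m, ch_mem_AA hm⟩, Ideal.subset_span ⟨m, hm, hm0, rfl⟩, rfl⟩⟩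

theorem isAlg_trans {A B K : Type} [CommRing A] [IsDomain A] [CommRing B] [Field K] [Algebra A K]
    [Algebra B K] (hB : Function.Injective (algebraMap B K))
    (h1 : ∀ b : B, IsAlgebraic A (algebraMap B K b)) {x : K} (h2 : IsAlgebraic B x) :
    IsAlgebraic A x := by
  let Ac : Subalgebra A K := Subalgebra.algebraicClosure A K
  let g : B →+* Ac := (algebraMap B K).codRestrict Ac h1
  have hg : Function.Injective g := fun b b' h => by
    have h1 : ((g b : Ac) : K) = ((g b' : Ac) : K) := by rw [h]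
    exact hB h1
  have h3 : IsAlgebraic Ac x := by
    obtain ⟨p, hp0, hp⟩ := h2
    refine ⟨p.map g, (Polynomial.map_ne_zero_iff hg).2 hp0, ?_⟩
    rw [Polynomial.aeval_def, Polynomial.eval₂_map]
    rw [Polynomial.aeval_def] at hp
    exact hp
  exact h3.restrictScalars A

/-- the bound for the number of algebraically independent elements -/
theorem card_le_of_alg {B : Subalgebra ℂ K} (C : Subalgebra ℂ B) (zB : Fin n → B)
    (s : Finset (Fin n))
    (halg : ∀ b : B, IsAlgebraic (Algebra.adjoin ℂ ((C : Set B) ∪ zB '' s)) b)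
    (hK : ∀ x : K, IsAlgebraic B x) (T : Finset (Fin n)) (x : T → K)
    (hT : AlgebraicIndependent C x) : T.card ≤ s.card := by
  classical
  let A1 : Subalgebra ℂ B := Algebra.adjoin ℂ ((C : Set B) ∪ zB '' s)
  let S2 : Set K := (fun j => ((zB j : B) : K)) '' s
  let A2 : Subalgebra C K := Algebra.adjoin C S2
  have hA12 : ∀ b ∈ A1, ((b : B) : K) ∈ A2 := by
    intro b hb
    induction hb using Algebra.adjoin_induction with
    | mem b hb =>
      rcases hb with hb | ⟨j, hj, rfl⟩
      · exact A2.algebraMap_mem (⟨b, hb⟩ : C)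
      · exact Algebra.subset_adjoin ⟨j, hj, rfl⟩
    | algebraMap r => exact A2.algebraMap_mem (algebraMap ℂ C r)
    | add b b' _ _ h h' => exact A2.add_mem h h'
    | mul b b' _ _ h h' => exact A2.mul_mem h h'
  let f : A1 →+* A2 := ((algebraMap B K).comp A1.val.toRingHom).codRestrict A2.toSubring
    fun b => hA12 b.1 b.2
  have hf : Function.Injective f := by
    intro b b' h
    have h1 : ((f b : A2) : K) = ((f b' : A2) : K) := by rw [h]
    apply Subtype.ext
    apply Subtype.ext
    exact h1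
  -- the elements of `B` are algebraic over `A2`
  have hB : ∀ b : B, IsAlgebraic A2 (b : K) := by
    intro b
    obtain ⟨p, hp0, hp⟩ := halg b
    refine ⟨p.map f, (Polynomial.map_ne_zero_iff hf).2 hp0, ?_⟩
    rw [Polynomial.aeval_def, Polynomial.eval₂_map]
    have h1 := congrArg (algebraMap B K) hp
    rw [Polynomial.aeval_def, Polynomial.hom_eval₂, map_zero] at h1
    exact h1
  have hKA : Algebra.IsAlgebraic A2 K := by
    refine ⟨fun x => ?_⟩
    exact isAlg_trans (A := A2) (B := B) Subtype.val_injective hB (hK x)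
  have h1 := hT.cardinalMk_le_trdeg
  have h2 : Algebra.trdeg C K ≤ Cardinal.mk S2 :=
    Algebra.IsAlgebraic.trdeg_le_cardinalMk C S2
  have h3 : Cardinal.mk S2 ≤ s.card := by
    have h4 : S2 = ((s.image fun j => ((zB j : B) : K) : Finset K) : Set K) := by
      rw [Finset.coe_image]
    rw [h4]
    refine le_trans (le_of_eq Cardinal.mk_coe_finset) ?_
    exact_mod_cast Finset.card_image_le
  have h4 := h1.trans (h2.trans h3)
  rw [Cardinal.mk_coe_finset] at h4
  exact_mod_cast h4

end Pool.Agent.Helper56.LC
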